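import Pool.Agent.Lib.P28u.Defs2
import Pool.Agent.Lib.P28t.Form

set_option autoImplicit false
set_option maxSynthPendingDepth 3

/-!
# The energy gap for symplectic forms on `CP^n`: definitions

`a0 n`: the connection form of the Fubini-Study form. `Jm n`: its matrix in unitary frames (`Jm k l = 2 Im ⟨Eb k, Eb l⟩`). `Nm α i j = Qm α i j + Rm i j`,
the failure of the matrix `Wm α` to commute with the curvature matrices. `St n`: the unitary matrices which fix the line of `e0`. `lf α`, `sf α`: the logarithm of
the square of the norm of `Wm α` and the component of the normalised matrix in the direction `Jm n`. `Bad α l d`: the set where `dw α` is not `d`-close to `l` times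
the Fubini-Study form.
-/

open MeasureTheory Set Metric
open scoped ContDiff Topology ENNReal

namespace Pool.Agent.Lib.P28v

open Pool.Agent.P28b04d Pool.Agent.Lib.P28e Pool.Agent.Lib.P28c Pool.Agent.Lib.P28t Pool.Agent.Lib.P28u
open Pool.Agent.Lib.P28f (V EV)

variable {n : ℕ}

/-- The connection form of the Fubini-Study form: `v ↦ Im ⟨z, v⟩ / |z|²`. -/
noncomputable def a0 (n : ℕ) : FW n := fun z => (nsq z)⁻¹ • Complex.imCLM.comp (hL z)

/-- The matrix of the Fubini-Study form. -/
noncomputable def Jm (n : ℕ) : MR n := fun k l => 2 * (hip (Eb k) (Eb l)).im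

/-- `Q + R`. -/
noncomputable def Nm (α : FW n) (i j : Fin (n * 2)) (g : XX n) : MR n := Qm α i j g + Rm i j

/-- The stabilizer of the line of `e0`. -/
def St (n : ℕ) : Set (XX n) := {h | h ∈ Un n ∧ ∃ c : ℂ, h 0 = c • e0 n}

/-- `log |W|²`. -/
noncomputable def lf (α : FW n) (g : XX n) : ℝ := Real.log (fr2 (Wm α g))

/-- The component of `W / |W|` in the direction `J`. -/
noncomputable def sf (α : FW n) (g : XX n) : ℝ := inn (Wm α g) (Jm n) / Real.sqrt (fr2 (Wm α g))

/-- The set where `dw α` is not close to `l` times the Fubini-Study form. -/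
def Bad (α : FW n) (l d : ℝ) : Set (W n) :=
  {z | z ≠ 0 ∧ d * |l| < ‖z‖ ^ 2 * ‖dw α z - l • dw (a0 n) z‖}

theorem a0_apply (z v : W n) : a0 n z v = (nsq z)⁻¹ * (hip z v).im := by
  simp [a0, hL_apply]

end Pool.Agent.Lib.P28v
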