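import Pool.Agent.Lib.P28t.SmoothS
import Pool.Agent.Lib.P28v.Defs

set_option autoImplicit false
set_option maxSynthPendingDepth 3

/-!
# Averaging at a fixed scale

PROOF. Simplify the proof of `smooth_S` (`P28t/SmoothS.lean`), with a constant radius function instead of `exists_rad`. `N = n + 1`, `k₀` from `mean_flat` (`k = k₀`), `C₂` from `avg_close` with `K = N`. Given `η` take `η2 = min η (min (1/4) η / C₂)` (so `C₂ η2 ≤ 1/4`, `C₂ η2 ≤ η`, `η2 ≤ η`), `c` from `mean_flat` for `η2`.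
Let `α, h, s, ρ` be given, `r = ρ / N` (`r ≤ 1 / (8 N)` as `ρ ≤ k s ≤ 1/8`). The constant function `r` is `RadF` (`fderiv` of a constant is zero). For `t ∈ (0, 1]`, `z ≠ 0`: `mean_flat` at `z` with the radius `t ρ ‖z‖ ≤ k s ‖z‖` gives `MGood α z (t * ρ * ‖z‖) η2 ct σ`, and `avg_close` (for `t r`, `N * (t r) * ‖z‖ = t ρ ‖z‖ ≤ ‖z‖ / 8`, `K = N`) gives `‖dw (AvF (t r) α) z - ct‖ ≤ C₂ η2 σ ≤ σ / 4`.
`MGood` contains `σ ‖p‖ ≤ ‖ct p‖` for `hip z p = 0`, so `‖dw (AvF (t r) α) z p‖ ≥ (3/4) σ ‖p‖`, and `ndAt_of_lower`, `con_AvF` give `Symp (AvF (t r) α)` for `t ∈ (0, 1]`; `AvF_zero` for `t = 0`; `join_family` with `AvF_smooth` gives `JoinF α (AvF r α)` exactly as in `smooth_S`. `β = AvF r α`; `t = 1` gives the second assertion (`MGood` with `η2 ≤ η`: the bound in `MClose` is monotone in `η`).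
-/

open MeasureTheory Set Metric
open scoped ContDiff Topology ENNReal

namespace Pool.Agent.Lib.P28v

open Pool.Agent.P28b04d Pool.Agent.Lib.P28e Pool.Agent.Lib.P28c Pool.Agent.Lib.P28t Pool.Agent.Lib.P28u
open Pool.Agent.Lib.P28f (V EV)

variable {n : ℕ}

theorem avg_R (n : ℕ) (hn : 1 ≤ n) : ∃ k : ℝ, 0 < k ∧ k ≤ 1 / 8 ∧ ∀ η : ℝ, 0 < η → ∃ c : ℝ, 0 < c ∧
    ∀ (α : FW n) (h : W n → ℝ), Symp α → Dens α h → ∀ s : ℝ, 0 < s → s ≤ 1 →
      (∀ z : W n, z ≠ 0 → enH h (PB (pt z) s) ≤ ENNReal.ofReal c) → ∀ ρ : ℝ, 0 < ρ → ρ ≤ k * s →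
        ∃ β : FW n, Symp β ∧ JoinF α β ∧ ∀ z : W n, z ≠ 0 → ∃ (ct : BW n) (σ : ℝ),
          MGood α z (ρ * ‖z‖) η ct σ ∧ ‖dw β z - ct‖ ≤ η * σ := by
  obtain ⟨k, hk0, hk1, hk⟩ := mean_flat n hn
  have hn0 : (0 : ℝ) ≤ n := Nat.cast_nonneg n
  obtain ⟨N, hN⟩ : ∃ N : ℝ, N = (n : ℝ) + 1 := ⟨_, rfl⟩
  have hN1 : 1 ≤ N := by rw [hN]; linarith
  have hN0 : 0 < N := by linarith
  obtain ⟨C, hC, havg⟩ := avg_close n (K := N) hN1
  have hC0 : 0 < C := by linarith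
  refine ⟨k, hk0, hk1, fun η hη => ?_⟩
  obtain ⟨e, he⟩ : ∃ e : ℝ, e = min (1 / 4) η / C := ⟨_, rfl⟩
  have hm0 : 0 < min (1 / 4) η := lt_min (by norm_num) hη
  have he0 : 0 < e := by rw [he]; positivity
  have hCe : C * e = min (1 / 4) η := by rw [he]; field_simp
  have hCe1 : C * e ≤ 1 / 4 := by rw [hCe]; exact min_le_left _ _
  have hCe2 : C * e ≤ η := by rw [hCe]; exact min_le_right _ _
  have heη : e ≤ η := by nlinarith
  obtain ⟨c, hc, hmean⟩ := hk e he0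
  refine ⟨c, hc, ?_⟩
  intro α h hα hdens s hs0 hs1 hsm ρ hρ0 hρ
  have hρ8 : ρ ≤ 1 / 8 := by nlinarith
  obtain ⟨r, hr⟩ : ∃ r : ℝ, r = ρ / N := ⟨_, rfl⟩
  have hr0 : 0 < r := by rw [hr]; positivity
  have hNr : N * r = ρ := by rw [hr]; field_simp
  have hR : RadF (fun _ : W n => r) := by
    refine ⟨contDiffOn_const, fun _ _ _ => rfl, fun _ => hr0.le, fun _ => ?_, fun z _ => ?_⟩
    · rw [← hN, le_div_iff₀ (by positivity)]
      nlinarith
    · simp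
  have loc : ∀ t : ℝ, 0 < t → t ≤ 1 → ∀ z : W n, z ≠ 0 → ∃ (ct : BW n) (σ : ℝ),
      MGood α z (t * ρ * ‖z‖) e ct σ ∧
        ‖dw (AvF (fun _ : W n => t * r) α) z - ct‖ ≤ C * e * σ := by
    intro t ht ht1 z hz
    have hz0 : 0 < ‖z‖ := norm_pos_iff.2 hz
    have htρ : t * ρ ≤ ρ := by nlinarith
    obtain ⟨ct, σ, hg⟩ := hmean α h hα hdens z hz s hs0 hs1 (hsm z hz) (t * ρ * ‖z‖)
      (by positivity) (mul_le_mul_of_nonneg_right (htρ.trans hρ) hz0.le)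
    refine ⟨ct, σ, hg, ?_⟩
    obtain ⟨hσ, hcl, -, -⟩ := hg
    have hav := havg α hα.1 (fun _ : W n => t * r) (hR.smul ht.le ht1) z hz (by positivity)
      _ _ ct (by positivity) hcl
      (le_of_eq (by rw [← hN, ← hNr]; ring)) (le_of_eq (by rw [← hNr]; ring)) (by
        have h1 : t * ρ ≤ 1 / 8 := htρ.trans hρ8
        have h2 : t * ρ * ‖z‖ ≤ 1 / 8 * ‖z‖ := mul_le_mul_of_nonneg_right h1 hz0.le
        linarith)
    exact hav.trans (le_of_eq (by ring))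
  have hsymp : ∀ t : ℝ, 0 < t → t ≤ 1 → Symp (AvF (fun _ : W n => t * r) α) := by
    intro t ht ht1
    have hcon := con_AvF (hR.smul ht.le ht1) hα.1
    refine ⟨hcon, fun z hz => ?_⟩
    obtain ⟨ct, σ, ⟨hσ, -, -, hl⟩, h1⟩ := loc t ht ht1 z hz
    refine ndAt_of_lower hcon hz (σ := σ / 4) (by positivity)
      (SmoothSAux.lower_of_close hσ hCe1 h1 fun p hp => ?_)
    have h2 := hl p hp
    have h3 : 0 ≤ σ * ‖p‖ := by positivity
    linarith
  have hβ : AvF (fun _ : W n => 1 * r) α = AvF (fun _ : W n => r) α := by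
    congr 1
    funext z
    rw [one_mul]
  have e0 : (fun _ : W n => 0 * r) = fun _ : W n => (0 : ℝ) := by
    funext z
    rw [zero_mul]
  refine ⟨AvF (fun _ : W n => r) α, ?_, ?_, ?_⟩
  · rw [← hβ]
    exact hsymp 1 one_pos le_rfl
  · refine join_family (K := fun p => AvF (fun _ : W n => p.1 * r) α p.2)
      (AvF_smooth hR hα.1) ?_ ?_ ?_
    · intro t ht
      rcases ht.1.eq_or_lt with h0 | h0
      · subst h0
        refine hα.congr (fun z hz => ?_)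
        change AvF (fun _ : W n => 0 * r) α z = α z
        rw [e0, AvF_zero]
      · exact hsymp t h0 ht.2
    · intro z hz
      change AvF (fun _ : W n => 0 * r) α z = α z
      rw [e0, AvF_zero]
    · intro z hz
      change AvF (fun _ : W n => 1 * r) α z = _
      rw [hβ]
  · intro z hz
    obtain ⟨ct, σ, ⟨hσ, hcl, hkill, hl⟩, h1⟩ := loc 1 one_pos le_rfl z hz
    rw [hβ] at h1
    rw [one_mul] at hcl
    refine ⟨ct, σ, ⟨hσ, ⟨hcl.1, hcl.2.trans ?_⟩, hkill, hl⟩, h1.trans ?_⟩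
    · exact mul_le_mul_left (ENNReal.ofReal_le_ofReal
        (mul_le_mul_of_nonneg_right heη hσ.le)) _
    · exact mul_le_mul_of_nonneg_right hCe2 hσ.le

end Pool.Agent.Lib.P28v
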