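import Pool.Agent.Lib.P28v.Defs
import Pool.Agent.Lib.P28t.Form
import Pool.Agent.Lib.P28t.MFacts
import Pool.Agent.Lib.P28u.EbF
import Pool.Agent.Lib.P28u.FrUn
import Pool.Agent.Lib.P28u.WmF

set_option autoImplicit false
set_option maxSynthPendingDepth 3

/-!
# The Fubini-Study connection form

PROOF. `con_a0`: `nsq` and `hL` are smooth (polynomial), `nsq z ≠ 0`; `hip (c z) (c v) = |c|² hip z v`, `nsq (c z) = |c|² nsq z`; `hip z z = nsq z` is real; `hip z (i z) = i nsq z`. `dw_a0`: `fderiv (a0 n) z v w = (hip v w).im / nsq z - (hip z w).im * 2 (hip z v).re / nsq z ^ 2`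
(product rule; the derivative of `nsq` at `z` in the direction `v` is `2 (hip z v).re`), subtract the same with `v`, `w` exchanged: `(hip w v).im = - (hip v w).im` and `(hip z w).im (hip z v).re - (hip z v).im (hip z w).re = (star (hip z v) * hip z w).im`.
`Wm_a0`: for `g ∈ Un n`: `nsq (g 0) = 1`, `hip (g 0) (mx g (Eb k)) = 0` (`hip_col`), `hip_mx`. `fs_a0`: first and third bound hold for every `α` with `Con α` (with a constant depending on `α`): `‖z‖² ‖dw α z‖` and `‖z‖³ ‖fderiv (dw α) z‖` are invariant under `z ↦ c z` (`Con.norm_dw`, `Con.norm_dw3`), continuous on the compact sphere `‖z‖ = 1`, hence bounded;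
third bound: mean value inequality on the convex ball `closedBall z (‖z‖/8)` (no zero inside, `‖y‖ ≥ 7/8 ‖z‖` there). Second bound: `dw (a0 n) z p (i p) = 2 nsq p / nsq z` if `hip z p = 0`, and `nsq p ≥ ‖p‖²` (`le_nsq`), `nsq z ≤ (n+1) ‖z‖²` (`nsq_le`), `‖i p‖ = ‖p‖`. `symp_a0`: `ndAt_of_lower` with the second bound.
-/

open MeasureTheory Set Metric
open scoped ContDiff Topology ENNReal

namespace Pool.Agent.Lib.P28v

open Pool.Agent.P28b04d Pool.Agent.Lib.P28e Pool.Agent.Lib.P28c Pool.Agent.Lib.P28t Pool.Agent.Lib.P28u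
open Pool.Agent.Lib.P28f (V EV)

variable {n : ℕ}

namespace FsFAux

/-- `hL` as a linear map of `z`. -/
noncomputable def hLL (n : ℕ) : W n →L[ℝ] (W n →L[ℝ] ℂ) :=
  ∑ k : Fin (n + 1), (((ContinuousLinearMap.compL ℝ (W n) ℂ ℂ).flip
      (ContinuousLinearMap.proj (R := ℝ) (φ := fun _ : Fin (n + 1) => ℂ) k)).comp
        (ContinuousLinearMap.mul ℝ ℂ)).comp
      ((Complex.conjCLE : ℂ →L[ℝ] ℂ).comp
        (ContinuousLinearMap.proj (R := ℝ) (φ := fun _ : Fin (n + 1) => ℂ) k))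

theorem hLL_apply (z : W n) : hLL n z = hL z := by
  ext v
  simp [hLL, hL]

theorem hip_swap (z w : W n) : hip w z = star (hip z w) := by
  simp only [hip, star_sum, star_mul', star_star]
  exact Finset.sum_congr rfl fun k _ => mul_comm _ _

theorem hip_swap_im (z w : W n) : (hip w z).im = -(hip z w).im := by
  rw [hip_swap z w]
  simp

theorem hip_swap_re (z w : W n) : (hip w z).re = (hip z w).re := by
  rw [hip_swap z w]
  simp

theorem hip_smulL (z w : W n) (c : ℂ) : hip (c • z) w = star c * hip z w := by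
  rw [hip_swap w (c • z), FormAux.hip_smul, star_mul', ← hip_swap w z]

/-- `Im hip`. -/
noncomputable def imL (n : ℕ) : W n →L[ℝ] (W n →L[ℝ] ℝ) :=
  (ContinuousLinearMap.compL ℝ (W n) ℂ ℝ Complex.imCLM).comp (hLL n)

theorem imL_apply (z v : W n) : imL n z v = (hip z v).im := by
  simp [imL, hLL_apply, hL_apply]

theorem a0_eq : a0 n = fun z => (nsq z)⁻¹ • imL n z := by
  funext z
  ext v
  rw [a0_apply, ContinuousLinearMap.smul_apply, imL_apply, smul_eq_mul]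

theorem hasN (z : W n) : HasFDerivAt (fun z : W n => nsq z)
    ((2 : ℝ) • Complex.reCLM.comp (hL z)) z := by
  have h1 : HasFDerivAt (fun y : W n => hLL n y y)
      ((hLL n z).comp (ContinuousLinearMap.id ℝ (W n)) + (hLL n).flip z) z :=
    ((hLL n).hasFDerivAt (x := z)).clm_apply (hasFDerivAt_id z)
  have h2 : HasFDerivAt (fun y : W n => Complex.reCLM (hLL n y y)) _ z :=
    Complex.reCLM.hasFDerivAt.comp z h1
  have h3 : (fun z : W n => nsq z) = fun z => Complex.reCLM (hLL n z z) := by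
    funext y
    simp [hLL_apply, hL_apply, hip_self]
  rw [h3]
  refine h2.congr_fderiv ?_
  ext v
  simp only [ContinuousLinearMap.comp_apply, ContinuousLinearMap.add_apply,
    ContinuousLinearMap.flip_apply, ContinuousLinearMap.smul_apply, hLL_apply, hL_apply,
    ContinuousLinearMap.id_apply, Complex.reCLM_apply, Complex.add_re, smul_eq_mul, id]
  rw [hip_swap_re z v]
  ring

theorem hasA {z : W n} (hz : z ≠ 0) : HasFDerivAt (a0 n)
    ((nsq z)⁻¹ • imL n + ((-(nsq z ^ 2)⁻¹ : ℝ) • ((2 : ℝ) • Complex.reCLM.comp (hL z))).smulRight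
      (imL n z)) z := by
  have hN := (nsq_pos hz).ne'
  have h1 : HasFDerivAt (fun z : W n => (nsq z)⁻¹)
      ((-(nsq z ^ 2)⁻¹ : ℝ) • ((2 : ℝ) • Complex.reCLM.comp (hL z))) z :=
    (hasDerivAt_inv hN).comp_hasFDerivAt z (hasN z)
  rw [a0_eq]
  exact h1.smul ((imL n).hasFDerivAt (x := z))

end FsFAux

open FsFAux in
theorem con_a0 (n : ℕ) : Con (a0 n) where
  smooth z hz := by
    rw [a0_eq]
    exact (contDiff_nsq.contDiffAt.inv (nsq_pos hz).ne').smul (imL n).contDiff.contDiffAt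
  hom c z v hc hz := by
    have hc1 : Complex.normSq c ≠ 0 := fun h => hc (Complex.normSq_eq_zero.1 h)
    have hN := (nsq_pos hz).ne'
    have h1 : hip (c • z) (c • v) = (Complex.normSq c : ℂ) * hip z v := by
      rw [hip_smulL, FormAux.hip_smul, ← mul_assoc]
      congr 1
      rw [Complex.normSq_eq_conj_mul_self]
      rfl
    rw [a0_apply, a0_apply, h1, Complex.im_ofReal_mul, Pool.Agent.P28b04d.nsq_smul]
    field_simp
  rad z hz := by
    rw [a0_apply, hip_self]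
    simp
  rot z hz := by
    have hN := (nsq_pos hz).ne'
    rw [a0_apply, FormAux.hip_smul, hip_self]
    simp [hN]

open FsFAux in
theorem dw_a0 {z : W n} (hz : z ≠ 0) (v w : W n) : dw (a0 n) z v w =
    2 * (hip v w).im / nsq z - 2 * (star (hip z v) * hip z w).im / nsq z ^ 2 := by
  have hN := (nsq_pos hz).ne'
  rw [dw, (hasA hz).fderiv]
  simp only [ContinuousLinearMap.sub_apply, ContinuousLinearMap.flip_apply,
    ContinuousLinearMap.add_apply, ContinuousLinearMap.smul_apply,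
    ContinuousLinearMap.smulRight_apply, ContinuousLinearMap.comp_apply, imL_apply, hL_apply,
    Complex.reCLM_apply, smul_eq_mul]
  rw [hip_swap_im v w]
  have h1 : (star (hip z v) * hip z w).im = (hip z v).re * (hip z w).im
      - (hip z v).im * (hip z w).re := by
    simp [Complex.mul_im]
    ring
  rw [h1]
  field_simp
  ring

theorem Wm_a0 {g : XX n} (hg : g ∈ Un n) : Wm (a0 n) g = Jm n := by
  ext k l
  show dw (a0 n) (g 0) (mx g (Eb k)) (mx g (Eb l)) = 2 * (hip (Eb k) (Eb l)).im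
  rw [dw_a0 (col_ne hg 0), hip_col hg k, hip_mx hg, nsq_col hg 0]
  simp

namespace FsFAux

theorem scale1 {z : W n} (hz : z ≠ 0) : ‖((‖z‖⁻¹ : ℝ) : ℂ) • z‖ = 1 := by
  rw [norm_smul, Complex.norm_real, norm_inv, norm_norm, inv_mul_cancel₀ (norm_ne_zero_iff.2 hz)]

theorem cne {z : W n} (hz : z ≠ 0) : ((‖z‖⁻¹ : ℝ) : ℂ) ≠ 0 := by
  exact_mod_cast inv_ne_zero (norm_ne_zero_iff.2 hz)

theorem cnorm (z : W n) : ‖((‖z‖⁻¹ : ℝ) : ℂ)‖⁻¹ = ‖z‖ := by
  rw [Complex.norm_real, norm_inv, norm_norm, inv_inv]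

theorem bound1 {α : FW n} (h : Con α) : ∃ C : ℝ, 0 ≤ C ∧ ∀ z : W n, z ≠ 0 →
    ‖z‖ ^ 2 * ‖dw α z‖ ≤ C := by
  have hc : ContinuousOn (dw α) (sphere (0 : W n) 1) := fun z hz =>
    (h.contDiffAt_dw (ne_of_mem_sphere hz one_ne_zero)).continuousAt.continuousWithinAt
  obtain ⟨C, hC⟩ := (isCompact_sphere (0 : W n) 1).exists_bound_of_continuousOn hc
  refine ⟨|C|, abs_nonneg C, fun z hz => ?_⟩
  have h1 := h.norm_dw (cne hz) hz
  rw [cnorm] at h1
  rw [← h1]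
  exact (hC _ (by rw [mem_sphere, dist_zero_right]; exact scale1 hz)).trans (le_abs_self C)

theorem cont2 {α : FW n} (h : Con α) {z : W n} (hz : z ≠ 0) :
    ContinuousAt (fderiv ℝ (dw α)) z := by
  have h1 : ContDiffAt ℝ ∞ (fderiv ℝ (dw α)) z :=
    (h.contDiffAt_dw hz).fderiv_right (m := ∞) (by simp)
  exact h1.continuousAt

theorem bound2 {α : FW n} (h : Con α) : ∃ C : ℝ, 0 ≤ C ∧ ∀ z : W n, z ≠ 0 →
    ‖z‖ ^ 3 * ‖fderiv ℝ (dw α) z‖ ≤ C := by
  have hc : ContinuousOn (fderiv ℝ (dw α)) (sphere (0 : W n) 1) := fun z hz =>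
    (cont2 h (ne_of_mem_sphere hz one_ne_zero)).continuousWithinAt
  obtain ⟨C, hC⟩ := (isCompact_sphere (0 : W n) 1).exists_bound_of_continuousOn hc
  refine ⟨|C|, abs_nonneg C, fun z hz => ?_⟩
  have h1 := h.norm_dw3 (cne hz) hz
  rw [cnorm] at h1
  rw [← h1]
  exact (hC _ (by rw [mem_sphere, dist_zero_right]; exact scale1 hz)).trans (le_abs_self C)

theorem bound3 {α : FW n} (h : Con α) : ∃ C : ℝ, 0 ≤ C ∧ ∀ z : W n, z ≠ 0 → ∀ x : W n,
    ‖x - z‖ ≤ ‖z‖ / 8 → ‖z‖ ^ 3 * ‖dw α x - dw α z‖ ≤ C * ‖x - z‖ := by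
  obtain ⟨C, hC, hb⟩ := bound2 h
  refine ⟨2 * C, by positivity, fun z hz x hx => ?_⟩
  have hz' : 0 < ‖z‖ := norm_pos_iff.2 hz
  have hy : ∀ y ∈ closedBall z (‖z‖ / 8), 7 / 8 * ‖z‖ ≤ ‖y‖ := by
    intro y hy
    rw [mem_closedBall, dist_eq_norm] at hy
    have h1 : ‖z‖ ≤ ‖y‖ + ‖y - z‖ := by
      have := norm_sub_le y (y - z)
      simpa using this
    linarith
  have hy0 : ∀ y ∈ closedBall z (‖z‖ / 8), y ≠ 0 := by
    intro y hy1 h0
    have := hy y hy1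
    rw [h0, norm_zero] at this
    linarith
  have hd : ∀ y ∈ closedBall z (‖z‖ / 8), DifferentiableAt ℝ (dw α) y := fun y hy1 =>
    (h.contDiffAt_dw (hy0 y hy1)).differentiableAt (by simp)
  have hbd : ∀ y ∈ closedBall z (‖z‖ / 8), ‖fderiv ℝ (dw α) y‖ ≤ 2 * C / ‖z‖ ^ 3 := by
    intro y hy1
    have h1 := hb y (hy0 y hy1)
    have h2 := hy y hy1
    have h3 : ‖z‖ ^ 3 ≤ 2 * ‖y‖ ^ 3 := by
      have h4 : (7 / 8 * ‖z‖) ^ 3 ≤ ‖y‖ ^ 3 := pow_le_pow_left₀ (by positivity) h2 3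
      have h5 : 0 < ‖z‖ ^ 3 := by positivity
      have h6 : (7 / 8 * ‖z‖) ^ 3 = 343 / 512 * ‖z‖ ^ 3 := by ring
      rw [h6] at h4
      linarith
    rw [le_div_iff₀ (by positivity)]
    have h7 := norm_nonneg (fderiv ℝ (dw α) y)
    calc ‖fderiv ℝ (dw α) y‖ * ‖z‖ ^ 3 ≤ ‖fderiv ℝ (dw α) y‖ * (2 * ‖y‖ ^ 3) :=
          mul_le_mul_of_nonneg_left h3 h7
      _ = 2 * (‖y‖ ^ 3 * ‖fderiv ℝ (dw α) y‖) := by ring
      _ ≤ 2 * C := by linarith
  have hm := (convex_closedBall z (‖z‖ / 8)).norm_image_sub_le_of_norm_fderiv_le hd hbd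
    (mem_closedBall_self (by positivity)) (mem_closedBall.2 (by rwa [dist_eq_norm]))
  calc ‖z‖ ^ 3 * ‖dw α x - dw α z‖ ≤ ‖z‖ ^ 3 * (2 * C / ‖z‖ ^ 3 * ‖x - z‖) :=
        mul_le_mul_of_nonneg_left hm (by positivity)
    _ = 2 * C * ‖x - z‖ := by field_simp

theorem bound4 {z : W n} (hz : z ≠ 0) {p : W n} (hp : hip z p = 0) :
    ‖p‖ ≤ ((n : ℝ) + 1) * (‖z‖ ^ 2 * ‖dw (a0 n) z p‖) := by
  by_cases hp0 : p = 0
  · rw [hp0, norm_zero]
    positivity
  have hpn : 0 < ‖p‖ := norm_pos_iff.2 hp0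
  have hzn : 0 < ‖z‖ := norm_pos_iff.2 hz
  have hN := nsq_pos hz
  have h1 : dw (a0 n) z p (Complex.I • p) = 2 * nsq p / nsq z := by
    rw [dw_a0 hz, FormAux.hip_smul, hip_self, hp]
    simp
  have h2 : ‖dw (a0 n) z p (Complex.I • p)‖ ≤ ‖dw (a0 n) z p‖ * ‖p‖ := by
    have := (dw (a0 n) z p).le_opNorm (Complex.I • p)
    rwa [norm_smul, Complex.norm_I, one_mul] at this
  rw [h1, Real.norm_of_nonneg (by have := nsq_nonneg p; positivity), div_le_iff₀ hN] at h2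
  have h3 := le_nsq p
  have h4 := nsq_le z
  have h5 : 0 ≤ ‖dw (a0 n) z p‖ * ‖p‖ := by positivity
  have h6 : ‖p‖ ^ 2 ≤ ‖dw (a0 n) z p‖ * ‖p‖ * (((n : ℝ) + 1) * ‖z‖ ^ 2) := by
    have := mul_le_mul_of_nonneg_left h4 h5
    have h7 := nsq_nonneg p
    linarith
  have h8 : ‖p‖ * ‖p‖ ≤ (((n : ℝ) + 1) * (‖z‖ ^ 2 * ‖dw (a0 n) z p‖)) * ‖p‖ := by
    calc ‖p‖ * ‖p‖ = ‖p‖ ^ 2 := by ring
      _ ≤ _ := h6
      _ = _ := by ring
  exact le_of_mul_le_mul_right h8 hpn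

end FsFAux

open FsFAux in
theorem fs_a0 (n : ℕ) : ∃ C : ℝ, 1 ≤ C ∧ ∀ z : W n, z ≠ 0 → ‖z‖ ^ 2 * ‖dw (a0 n) z‖ ≤ C ∧
    (∀ p : W n, hip z p = 0 → ‖p‖ ≤ C * (‖z‖ ^ 2 * ‖dw (a0 n) z p‖)) ∧
    ∀ x : W n, ‖x - z‖ ≤ ‖z‖ / 8 → ‖z‖ ^ 3 * ‖dw (a0 n) x - dw (a0 n) z‖ ≤ C * ‖x - z‖ := by
  obtain ⟨C1, hC1, h1⟩ := bound1 (con_a0 n)
  obtain ⟨C3, hC3, h3⟩ := bound3 (con_a0 n)
  have hn : (0 : ℝ) ≤ n := Nat.cast_nonneg n
  refine ⟨C1 + C3 + ((n : ℝ) + 1), by linarith, fun z hz => ⟨?_, fun p hp => ?_, fun x hx => ?_⟩⟩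
  · have := h1 z hz
    linarith
  · refine (bound4 hz hp).trans (mul_le_mul_of_nonneg_right (by linarith) (by positivity))
  · refine (h3 z hz x hx).trans (mul_le_mul_of_nonneg_right (by linarith) (norm_nonneg _))

open FsFAux in
theorem symp_a0 (n : ℕ) : Symp (a0 n) := by
  refine ⟨con_a0 n, fun z hz => ?_⟩
  have hzn : 0 < ‖z‖ := norm_pos_iff.2 hz
  have hn : (0 : ℝ) < (n : ℝ) + 1 := by positivity
  refine ndAt_of_lower (con_a0 n) hz (σ := (((n : ℝ) + 1) * ‖z‖ ^ 2)⁻¹) (by positivity)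
    fun p hp => ?_
  have h := bound4 hz hp
  rw [inv_mul_le_iff₀ (by positivity)]
  calc ‖p‖ ≤ _ := h
    _ = _ := by ring

end Pool.Agent.Lib.P28v
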