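import Pool.Agent.Lib.P28v.MeaU
import Pool.Agent.Lib.P28v.FsF
import Pool.Agent.Lib.P28u.PolU
import Pool.Agent.Lib.P28u.HaarU
import Pool.Agent.Lib.P28u.FrUn

set_option autoImplicit false
set_option maxSynthPendingDepth 3

/-!
# Small energy: closeness in measure on the unit ball

PROOF. For `α` with `Con α` put `D z = dw α z - l • dw (a0 n) z`. `norm_D`: `D (c z) (c v) (c w) = D z v w` (`Con.dw_hom` twice), so `‖D (c z)‖ ≤ (‖c‖⁻¹) ^ 2 * ‖D z‖` (copy `FormAux.norm_dw_le`) and equality by `FormAux.scale_eq` (for `f z = ‖D z‖`, `k = 2`). So `bad_smul` (`‖c z‖ = ‖c‖ ‖z‖`). `meas_bad`: `z ↦ ‖z‖ ^ 2 * ‖D z‖` is continuous on `{0}ᶜ` (`Con.contDiffAt_dw`), hence measurable (`measurable_of_continuousOn_compl_singleton`), and `{z | z ≠ 0}` is open.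
`fr_D`: for `g ∈ Un n`, `z = g 0`: `D z` kills `c • z` in both variables (`Con.dw_left`, `Con.dw_right`), and `D z (mx g (Eb k)) (mx g (Eb l)) = (Wm α g - l • Jm n) k l` (`Wm_a0`). Every `q` is `S y + c • z` with `S = (mxL g).comp (Lv n)`, `‖y‖ ≤ K ‖q‖` (`frm_un`: `Frm.cov`, `Frm.inj`), `S y = ∑ y i • mx g (Eb i)` (`Lv_sum`, `mxL_apply`, linearity), so `|D z q q2| = |∑ i j, y i y2 j (Wm α g - l • Jm n) i j| ≤ (2 n)² K² √(fr2 ..) ‖q‖ ‖q2‖` (`abs_le_fr2`). (See `FrCAux.form_sum`, `FrCAux.form_le` in `P28u/FrC.lean` for the same computation.) `‖z‖ ≤ K`.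
`meas_b`: `ν` from `exists_haar`; `C` from `pol_u` for `G = (Bad α l d).indicator 1`: `volume (ball 0 1 ∩ Bad α l d) = ∫⁻ z in ball 0 1, G z ≤ C * ∫⁻ g, G (g 0) ∂ν = C * ν {g | g 0 ∈ Bad α l d} ≤ C * ν {g | g ∈ Un n ∧ (d / C₂) * |l| < √..} ≤ C * ofReal δ2 ≤ ofReal δ` (`ν (Un n)ᶜ = 0`, `fr_D` with constant `C₂`, `meas_u` for `d / C₂` and `δ2` with `C * ofReal δ2 ≤ ofReal δ`: `P28e.exists_delta` or `δ2 = δ / (C.toReal + 1)`).
-/

open MeasureTheory Set Metric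
open scoped ContDiff Topology ENNReal

namespace Pool.Agent.Lib.P28v

open Pool.Agent.P28b04d Pool.Agent.Lib.P28e Pool.Agent.Lib.P28c Pool.Agent.Lib.P28t Pool.Agent.Lib.P28u
open Pool.Agent.Lib.P28f (V EV)

variable {n : ℕ}

namespace MeaBAux

theorem norm_D_le {α : FW n} (hα : Con α) (l : ℝ) {c : ℂ} (hc : c ≠ 0) {z : W n} (hz : z ≠ 0) :
    ‖dw α (c • z) - l • dw (a0 n) (c • z)‖ ≤ (‖c‖⁻¹) ^ 2 * ‖dw α z - l • dw (a0 n) z‖ := by
  have hc0 : 0 ≤ ‖c‖⁻¹ := inv_nonneg.2 (norm_nonneg c)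
  refine ContinuousLinearMap.opNorm_le_bound _ (by positivity) fun v => ?_
  refine ContinuousLinearMap.opNorm_le_bound _ (by positivity) fun w => ?_
  have h1 := hα.dw_hom hc hz (c⁻¹ • v) (c⁻¹ • w)
  have h2 := (con_a0 n).dw_hom hc hz (c⁻¹ • v) (c⁻¹ • w)
  rw [smul_inv_smul₀ hc, smul_inv_smul₀ hc] at h1 h2
  have h3 : (dw α (c • z) - l • dw (a0 n) (c • z)) v w =
      (dw α z - l • dw (a0 n) z) (c⁻¹ • v) (c⁻¹ • w) := by
    simp only [sub_apply, smul_apply, smul_eq_mul]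
    rw [h1, h2]
  rw [h3]
  calc ‖(dw α z - l • dw (a0 n) z) (c⁻¹ • v) (c⁻¹ • w)‖
      ≤ ‖dw α z - l • dw (a0 n) z‖ * ‖c⁻¹ • v‖ * ‖c⁻¹ • w‖ :=
        (dw α z - l • dw (a0 n) z).le_opNorm₂ _ _
    _ = (‖c‖⁻¹) ^ 2 * ‖dw α z - l • dw (a0 n) z‖ * ‖v‖ * ‖w‖ := by
        rw [norm_smul, norm_smul, norm_inv]
        ring

/-- the matrix of a bilinear form in a frame -/
noncomputable def BM (B : W n →L[ℝ] W n →L[ℝ] ℝ) (S : V (n * 2) →L[ℝ] W n) : MR n :=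
  fun k l => B (S (Pi.single k 1)) (S (Pi.single l 1))

theorem vm_B (B : W n →L[ℝ] W n →L[ℝ] ℝ) (S : V (n * 2) →L[ℝ] W n) (x : V (n * 2))
    (l : Fin (n * 2)) :
    Matrix.vecMul x (BM B S) l = B (S x) (S (Pi.single l 1)) := by
  have h := FrCAux.lin_sum ((B.flip (S (Pi.single l 1))).comp S) x
  have e : B (S x) (S (Pi.single l 1)) = ((B.flip (S (Pi.single l 1))).comp S) x := rfl
  rw [e, h]
  unfold Matrix.vecMul dotProduct
  rfl

theorem sum_B (B : W n →L[ℝ] W n →L[ℝ] ℝ) (S : V (n * 2) →L[ℝ] W n) (x y : V (n * 2)) :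
    B (S x) (S y) = ∑ l, y l * Matrix.vecMul x (BM B S) l := by
  have h := FrCAux.lin_sum ((B (S x)).comp S) y
  have e : B (S x) (S y) = ((B (S x)).comp S) y := rfl
  rw [e, h]
  refine Finset.sum_congr rfl fun l _ => ?_
  rw [vm_B]
  rfl

theorem norm_B_le {B : W n →L[ℝ] W n →L[ℝ] ℝ} {K : ℝ} {z : W n} {S : V (n * 2) →L[ℝ] W n}
    (h : Frm K z S) (hB : ∀ (p q : W n) (c d : ℂ), B (p + c • z) (q + d • z) = B p q) :
    ‖B‖ ≤ (((n : ℝ) * 2) ^ 2 * K ^ 2) * Real.sqrt (fr2 (BM B S)) := by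
  have hK := h.pos
  have hs := Real.sqrt_nonneg (fr2 (BM B S))
  refine ContinuousLinearMap.opNorm_le_bound _ (by positivity) fun v => ?_
  refine ContinuousLinearMap.opNorm_le_bound _ (by positivity) fun w => ?_
  obtain ⟨x, c, hv⟩ := h.cov v
  obtain ⟨y, d, hw⟩ := h.cov w
  have h1 : ‖x‖ ≤ K * ‖v‖ := by
    rw [hv]
    exact h.inj x c
  have h2 : ‖y‖ ≤ K * ‖w‖ := by
    rw [hw]
    exact h.inj y d
  have h3 : B v w = ∑ l, y l * Matrix.vecMul x (BM B S) l := by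
    rw [← sum_B, hv, hw, hB]
  rw [h3, Real.norm_eq_abs]
  refine (FrCAux.sum_le _ _).trans ?_
  have h4 := norm_vecMul_le (BM B S) x
  calc ((n : ℝ) * 2) * (‖y‖ * ‖Matrix.vecMul x (BM B S)‖)
      ≤ ((n : ℝ) * 2) * ((K * ‖w‖) * (((n : ℝ) * 2) * Real.sqrt (fr2 (BM B S)) * (K * ‖v‖))) := by
        refine mul_le_mul_of_nonneg_left ?_ (by positivity)
        refine mul_le_mul h2 (h4.trans ?_) (norm_nonneg _) (by positivity)
        exact mul_le_mul_of_nonneg_left h1 (by positivity)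
    _ = _ := by ring

theorem D_kill {α : FW n} (hα : Con α) (l : ℝ) {z : W n} (hz : z ≠ 0) (p q : W n) (c d : ℂ) :
    (dw α z - l • dw (a0 n) z) (p + c • z) (q + d • z) = (dw α z - l • dw (a0 n) z) p q := by
  simp only [sub_apply, smul_apply]
  rw [FrCAux.form_add hα hz, FrCAux.form_add (con_a0 n) hz]

theorem BM_D {α : FW n} (l : ℝ) {g : XX n} (hg : g ∈ Un n) :
    BM (dw α (g 0) - l • dw (a0 n) (g 0)) ((mxL g).comp (Lv n)) = Wm α g - l • Jm n := by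
  rw [← Wm_a0 hg, Wm_eq, Wm_eq]
  rfl

theorem contOn_D {α : FW n} (hα : Con α) (l : ℝ) :
    ContinuousOn (fun z : W n => ‖z‖ ^ 2 * ‖dw α z - l • dw (a0 n) z‖) {0}ᶜ := by
  intro z hz
  have hz' : z ≠ 0 := hz
  have h1 : ContinuousAt (dw α) z := (hα.contDiffAt_dw hz').continuousAt
  have h2 : ContinuousAt (dw (a0 n)) z := ((con_a0 n).contDiffAt_dw hz').continuousAt
  exact ((continuous_norm.continuousAt.pow 2).mul
    ((h1.sub (h2.const_smul l)).norm)).continuousWithinAt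

end MeaBAux

open MeaBAux

theorem norm_D {α : FW n} (hα : Con α) (l : ℝ) {c : ℂ} (hc : c ≠ 0) {z : W n} (hz : z ≠ 0) :
    ‖dw α (c • z) - l • dw (a0 n) (c • z)‖ = (‖c‖⁻¹) ^ 2 * ‖dw α z - l • dw (a0 n) z‖ :=
  FormAux.scale_eq (f := fun z => ‖dw α z - l • dw (a0 n) z‖)
    (fun _ _ hc hz => norm_D_le hα l hc hz) hc hz

theorem bad_smul {α : FW n} (hα : Con α) (l d : ℝ) {c : ℂ} (hc : c ≠ 0) (z : W n) :
    c • z ∈ Bad α l d ↔ z ∈ Bad α l d := by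
  by_cases hz : z = 0
  · rw [hz, smul_zero]
  · have hcz : c • z ≠ 0 := smul_ne_zero hc hz
    have hc0 : 0 < ‖c‖ := norm_pos_iff.2 hc
    have e : ‖c • z‖ ^ 2 * ‖dw α (c • z) - l • dw (a0 n) (c • z)‖ =
        ‖z‖ ^ 2 * ‖dw α z - l • dw (a0 n) z‖ := by
      rw [norm_D hα l hc hz, norm_smul]
      field_simp
    constructor
    · rintro ⟨-, h⟩
      refine ⟨hz, ?_⟩
      rwa [e] at h
    · rintro ⟨-, h⟩
      refine ⟨hcz, ?_⟩
      rwa [e]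

theorem meas_bad {α : FW n} (hα : Con α) (l d : ℝ) : MeasurableSet (Bad α l d) := by
  have h1 : Measurable (fun z : W n => ‖z‖ ^ 2 * ‖dw α z - l • dw (a0 n) z‖) :=
    measurable_of_continuousOn_compl_singleton 0 (contOn_D hα l)
  have h2 : MeasurableSet {z : W n | z ≠ 0} := isOpen_ne.measurableSet
  have h3 : MeasurableSet {z : W n | d * |l| < ‖z‖ ^ 2 * ‖dw α z - l • dw (a0 n) z‖} :=
    measurableSet_lt measurable_const h1
  exact h2.inter h3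

theorem fr_D (n : ℕ) : ∃ C : ℝ, 0 < C ∧ ∀ α : FW n, Con α → ∀ (l : ℝ), ∀ g ∈ Un n,
    ‖g 0‖ ^ 2 * ‖dw α (g 0) - l • dw (a0 n) (g 0)‖ ≤ C * Real.sqrt (fr2 (Wm α g - l • Jm n)) := by
  obtain ⟨K, hK, hf⟩ := frm_un n
  refine ⟨K ^ 2 * (((n : ℝ) * 2) ^ 2 * K ^ 2) + 1, by positivity, ?_⟩
  intro α hα l g hg
  have h := hf g hg
  have h1 := norm_B_le h (D_kill hα l h.ne)
  rw [BM_D l hg] at h1
  have hs := Real.sqrt_nonneg (fr2 (Wm α g - l • Jm n))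
  have h2 : ‖g 0‖ ^ 2 ≤ K ^ 2 := pow_le_pow_left₀ (norm_nonneg _) h.zle 2
  calc ‖g 0‖ ^ 2 * ‖dw α (g 0) - l • dw (a0 n) (g 0)‖
      ≤ K ^ 2 * ((((n : ℝ) * 2) ^ 2 * K ^ 2) * Real.sqrt (fr2 (Wm α g - l • Jm n))) :=
        mul_le_mul h2 h1 (norm_nonneg _) (by positivity)
    _ ≤ _ := by nlinarith

theorem meas_b (n : ℕ) (hn : 2 ≤ n) {d δ : ℝ} (hd : 0 < d) (hδ : 0 < δ) :
    ∃ E : ℝ, 0 < E ∧ ∀ α : FW n, Symp α →
      ∫⁻ z in ball (0 : W n) 1, ENNReal.ofReal (aO α z) ^ (2 * n) ≤ ENNReal.ofReal E →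
      ∃ l : ℝ, l ≠ 0 ∧ volume (ball (0 : W n) 1 ∩ Bad α l d) ≤ ENNReal.ofReal δ := by
  obtain ⟨ν, hν⟩ := exists_haar n
  obtain ⟨C, hC, hpol⟩ := pol_u n
  obtain ⟨C₂, hC₂, hfr⟩ := fr_D n
  obtain ⟨δ2, hδ2, hle⟩ := exists_delta (C := C) (t := ENNReal.ofReal δ) hC
    (by simpa using hδ)
  obtain ⟨E, hE, hmeas⟩ := meas_u n hn hν (d := d / C₂) (δ := δ2) (by positivity) hδ2
  refine ⟨E, hE, ?_⟩
  intro α hα hen
  obtain ⟨l, hl, hb⟩ := hmeas α hα hen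
  refine ⟨l, hl, ?_⟩
  have hG : Measurable ((Bad α l d).indicator (1 : W n → ℝ≥0∞)) :=
    measurable_one.indicator (meas_bad hα.1 l d)
  have hh : ∀ (c : ℂ) (z : W n), c ≠ 0 → z ≠ 0 →
      (Bad α l d).indicator (1 : W n → ℝ≥0∞) (c • z) = (Bad α l d).indicator (1 : W n → ℝ≥0∞) z := by
    intro c z hc _
    by_cases hz : z ∈ Bad α l d
    · rw [indicator_of_mem hz, indicator_of_mem ((bad_smul hα.1 l d hc z).2 hz)]
      rfl
    · rw [indicator_of_notMem hz,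
        indicator_of_notMem (fun h => hz ((bad_smul hα.1 l d hc z).1 h))]
  have h1 := (hpol ν hν _ hG hh).1
  have h2 : ∫⁻ z in ball (0 : W n) 1, (Bad α l d).indicator (1 : W n → ℝ≥0∞) z =
      volume (ball (0 : W n) 1 ∩ Bad α l d) := by
    rw [lintegral_indicator_one (meas_bad hα.1 l d), Measure.restrict_apply (meas_bad hα.1 l d),
      inter_comm]
  have h3 : ∫⁻ g, (Bad α l d).indicator (1 : W n → ℝ≥0∞) (g 0) ∂ν =
      ν {g : XX n | g 0 ∈ Bad α l d} := by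
    have hm : MeasurableSet {g : XX n | g 0 ∈ Bad α l d} :=
      (measurable_pi_apply 0) (meas_bad hα.1 l d)
    rw [← lintegral_indicator_one hm]
    rfl
  rw [h2, h3] at h1
  have h4 : ν {g : XX n | g 0 ∈ Bad α l d} ≤ ν {g | g ∈ Un n ∧ (d / C₂) * |l| <
      Real.sqrt (fr2 (Wm α g - l • Jm n))} := by
    have h5 : {g : XX n | g 0 ∈ Bad α l d} ⊆ {g | g ∈ Un n ∧ (d / C₂) * |l| <
      Real.sqrt (fr2 (Wm α g - l • Jm n))} ∪ (Un n)ᶜ := by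
      intro g hg
      by_cases hU : g ∈ Un n
      · left
        refine ⟨hU, ?_⟩
        have h6 := hfr α hα.1 l g hU
        have h7 : d * |l| < ‖g 0‖ ^ 2 * ‖dw α (g 0) - l • dw (a0 n) (g 0)‖ := hg.2
        rw [div_mul_eq_mul_div, div_lt_iff₀ hC₂]
        linarith
      · right
        exact hU
    refine (measure_mono h5).trans ((measure_union_le _ _).trans ?_)
    rw [hν.supp, add_zero]
  calc volume (ball (0 : W n) 1 ∩ Bad α l d) ≤ C * ν {g : XX n | g 0 ∈ Bad α l d} := h1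
    _ ≤ C * ENNReal.ofReal δ2 := by
        gcongr
        exact h4.trans hb
    _ ≤ ENNReal.ofReal δ := hle

end Pool.Agent.Lib.P28v
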