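import Pool.Agent.Lib.P28v.FsF
import Pool.Agent.Lib.P28v.MeaB
import Pool.Agent.Lib.P28t.MFacts
import Pool.Agent.Lib.P28t.MTrans

set_option autoImplicit false
set_option maxSynthPendingDepth 3

/-!
# Comparison with the Fubini-Study form on a ball

PROOF. `C` from `fs_a0`, `θ ≤ 1` without loss (or not), `η = min (1/6) (θ / (48 (C + 1)))`, `d = min 1 (θ / 8)`, `ρ₀ = min (1/8) (θ / (4 C))`. Given `ρ`: `δ > 0` with `ofReal δ < (1/4) volume (closedBall w (ρ / 2))` for every `w` (`volume (closedBall w r) = ofReal (r ^ (2 n + 2)) * volume (ball 0 1)`, real dimension of `W n` is `2 n + 2`: `Measure.addHaar_closedBall`, `AvgClAux.fr`).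
Let `z ≠ 0`, `B = closedBall z (ρ ‖z‖)`, `m = 2 ‖z‖`. BAD SET: `volume (B ∩ Bad) ≤ (1/4) volume B`: scaling by `m` (`Measure.addHaar_smul`, `bad_smul` for the real number `m`): `B ∩ Bad = m • (closedBall (m⁻¹ • z) (ρ/2) ∩ Bad)` and `closedBall (m⁻¹ • z) (ρ / 2) ⊆ ball 0 1` (`‖m⁻¹ • z‖ = 1/2`, `ρ ≤ 1/8`). 
CHEBYSHEV: `∫⁻ x in B, ‖dw α x - ct‖ₑ ≤ ofReal (η σ) volume B` (`MGood`, `MClose`), so `{x ∈ B | 3 η σ ≤ ‖dw α x - ct‖}` has measure at most `(1/3) volume B` (`0 < volume B < ∞`; measurability: `x ↦ ‖dw α x - ct‖ₑ` is measurable, continuous off `0`; see `MeanBAux.measurable_G`). `1/4 + 1/3 < 1`: there is `x ∈ B`, `x ∉ Bad`, `‖dw α x - ct‖ ≤ 3 η σ`. `x ≠ 0` and `(7/8) ‖z‖ ≤ ‖x‖ ≤ (9/8) ‖z‖`, so `‖dw α x - l • dw (a0 n) x‖ ≤ d |l| / ‖x‖² ≤ 2 d |l| / ‖z‖²`.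
BOUND OF `σ`: there is `p ≠ 0` with `hip z p = 0` (`MFactsAux.exists_perp`), `σ ‖p‖ ≤ ‖ct p‖ ≤ (‖l • dw (a0 n) x‖ + 3 η σ + 2 d |l| / ‖z‖²) ‖p‖`, `‖dw (a0 n) x‖ ≤ C / ‖x‖² ≤ 2 C / ‖z‖²`, `3 η ≤ 1/2`: `σ ≤ 4 (C + d) |l| / ‖z‖² ≤ 4 (C + 1) |l| / ‖z‖²`.
TOTAL: `‖D - l • dw (a0 n) z‖ ≤ ‖D - ct‖ + ‖ct - dw α x‖ + ‖dw α x - l • dw (a0 n) x‖ + |l| ‖dw (a0 n) x - dw (a0 n) z‖ ≤ η σ + 3 η σ + 2 d |l| / ‖z‖² + |l| C ρ / ‖z‖²` (`fs_a0`: `‖x - z‖ ≤ ρ ‖z‖`), so `‖z‖² ‖D - l • dw (a0 n) z‖ ≤ |l| (16 η (C + 1) + 2 d + C ρ) ≤ |l| (θ/3 + θ/4 + θ/4) ≤ θ |l|`.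
-/

open MeasureTheory Set Metric
open scoped ContDiff Topology ENNReal Pointwise

namespace Pool.Agent.Lib.P28v

open Pool.Agent.P28b04d Pool.Agent.Lib.P28e Pool.Agent.Lib.P28c Pool.Agent.Lib.P28t Pool.Agent.Lib.P28u
open Pool.Agent.Lib.P28f (V EV)

variable {n : ℕ}

namespace CmpFAux

theorem measurable_nG {α : FW n} (h : Con α) (ct : BW n) :
    Measurable fun z : W n => ‖dw α z - ct‖ₑ := by
  have h1 : Measurable fun z : W n => ‖dw α z - ct‖ := by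
    refine measurable_of_continuousOn_compl_singleton 0 fun z hz => ?_
    have h2 : ContinuousAt (dw α) z := (h.contDiffAt_dw hz).continuousAt
    exact (h2.sub continuousAt_const).norm.continuousWithinAt
  have h2 : (fun z : W n => ‖dw α z - ct‖ₑ) = fun z => ENNReal.ofReal ‖dw α z - ct‖ := by
    funext z
    rw [ofReal_norm]
  rw [h2]
  exact h1.ennreal_ofReal

/-- The bad set occupies at most an eighth of a ball. -/
theorem bad_part {α : FW n} (hα : Con α) (l d : ℝ) {ρ δ : ℝ} (hρ : 0 < ρ) (hρ8 : ρ ≤ 1 / 8)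
    (hδ : ENNReal.ofReal δ ≤ volume (closedBall (0 : W n) (ρ / 2)) / 8)
    (hb : volume (ball (0 : W n) 1 ∩ Bad α l d) ≤ ENNReal.ofReal δ) {z : W n} (hz : z ≠ 0) :
    volume (closedBall z (ρ * ‖z‖) ∩ Bad α l d) ≤ volume (closedBall z (ρ * ‖z‖)) / 8 := by
  have hZ : 0 < ‖z‖ := norm_pos_iff.2 hz
  set m : ℝ := 2 * ‖z‖ with hm
  have hm0 : 0 < m := by positivity
  have hmne : m ≠ 0 := hm0.ne'
  have hmi : 0 < m⁻¹ := inv_pos.2 hm0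
  have e1 : closedBall z (ρ * ‖z‖) = m • closedBall (m⁻¹ • z) (ρ / 2) := by
    rw [smul_closedBall' hmne, smul_inv_smul₀ hmne, Real.norm_of_nonneg hm0.le]
    congr 1
    rw [hm]; ring
  have e2 : closedBall z (ρ * ‖z‖) ∩ Bad α l d ⊆
      m • (closedBall (m⁻¹ • z) (ρ / 2) ∩ Bad α l d) := by
    intro x hx
    have hx1 := hx.1
    rw [e1] at hx1
    obtain ⟨y, hy, hyx⟩ := hx1
    refine ⟨y, ⟨hy, ?_⟩, hyx⟩
    have hc : ((m : ℝ) : ℂ) ≠ 0 := by exact_mod_cast hmne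
    have h1 := bad_smul hα l d hc y
    have h2 : ((m : ℝ) : ℂ) • y = x := by
      rw [← hyx]
      exact (Complex.coe_smul m y)
    rw [h2] at h1
    exact h1.1 hx.2
  have e3 : closedBall (m⁻¹ • z) (ρ / 2) ∩ Bad α l d ⊆ ball (0 : W n) 1 ∩ Bad α l d := by
    refine inter_subset_inter_left _ fun y hy => ?_
    have h1 : ‖m⁻¹ • z‖ = 1 / 2 := by
      rw [norm_smul, Real.norm_of_nonneg hmi.le, hm]
      field_simp
    have h2 : ‖y - m⁻¹ • z‖ ≤ ρ / 2 := mem_closedBall_iff_norm.1 hy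
    have h3 : ‖y‖ ≤ ‖y - m⁻¹ • z‖ + ‖m⁻¹ • z‖ := by
      have := norm_add_le (y - m⁻¹ • z) (m⁻¹ • z)
      rwa [sub_add_cancel] at this
    rw [mem_ball_zero_iff]
    linarith
  set K : ℝ≥0∞ := ENNReal.ofReal |m ^ Module.finrank ℝ (W n)| with hK
  have hvB : volume (closedBall z (ρ * ‖z‖)) = K * volume (closedBall (0 : W n) (ρ / 2)) := by
    rw [e1, Measure.addHaar_smul, Measure.addHaar_closedBall_center]
  calc volume (closedBall z (ρ * ‖z‖) ∩ Bad α l d)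
      ≤ volume (m • (closedBall (m⁻¹ • z) (ρ / 2) ∩ Bad α l d)) := measure_mono e2
    _ = K * volume (closedBall (m⁻¹ • z) (ρ / 2) ∩ Bad α l d) := Measure.addHaar_smul _ _ _
    _ ≤ K * (volume (closedBall (0 : W n) (ρ / 2)) / 8) :=
        mul_le_mul' le_rfl (((measure_mono e3).trans hb).trans hδ)
    _ = volume (closedBall z (ρ * ‖z‖)) / 8 := by rw [hvB, mul_div_assoc]

/-- Chebyshev: there is a good point in the ball. -/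
theorem good_point {α : FW n} (hα : Con α) (l d : ℝ) {ρ δ : ℝ} (hρ : 0 < ρ) (hρ8 : ρ ≤ 1 / 8)
    (hδ : ENNReal.ofReal δ ≤ volume (closedBall (0 : W n) (ρ / 2)) / 8)
    (hb : volume (ball (0 : W n) 1 ∩ Bad α l d) ≤ ENNReal.ofReal δ) {z : W n} (hz : z ≠ 0)
    {ct : BW n} {e : ℝ} (he : 0 < e) (hm : MClose α z (ρ * ‖z‖) e ct) :
    ∃ x ∈ closedBall z (ρ * ‖z‖), x ∉ Bad α l d ∧ ‖dw α x - ct‖ ≤ 3 * e := by
  by_contra hcon
  push Not at hcon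
  have hZ : 0 < ‖z‖ := norm_pos_iff.2 hz
  set B := closedBall z (ρ * ‖z‖) with hB
  have hv0 : 0 < volume B := measure_closedBall_pos _ _ (by positivity)
  have hvt : volume B < ⊤ := measure_closedBall_lt_top
  set G : Set (W n) := {x | ENNReal.ofReal (3 * e) ≤ ‖dw α x - ct‖ₑ} with hG
  have h1 : B ⊆ (B ∩ Bad α l d) ∪ (G ∩ B) := by
    intro x hx
    by_cases hx1 : x ∈ Bad α l d
    · exact Or.inl ⟨hx, hx1⟩
    · refine Or.inr ⟨?_, hx⟩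
      have h2 := hcon x hx hx1
      show ENNReal.ofReal (3 * e) ≤ ‖dw α x - ct‖ₑ
      rw [← ofReal_norm]
      exact ENNReal.ofReal_le_ofReal h2.le
  have h2 : volume B ≤ volume (B ∩ Bad α l d) + volume (G ∩ B) :=
    (measure_mono h1).trans (measure_union_le _ _)
  have h3 : volume (B ∩ Bad α l d) ≤ volume B / 8 := bad_part hα l d hρ hρ8 hδ hb hz
  have h4 : ENNReal.ofReal (3 * e) * volume (G ∩ B) ≤ ENNReal.ofReal e * volume B := by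
    have h5 := mul_meas_ge_le_lintegral₀ (μ := volume.restrict B)
      (measurable_nG hα ct).aemeasurable (ENNReal.ofReal (3 * e))
    have h6 : (volume.restrict B) G = volume (G ∩ B) :=
      Measure.restrict_apply' measurableSet_closedBall
    rw [← h6]
    exact h5.trans hm.2
  have hat : volume (B ∩ Bad α l d) ≠ ⊤ := ((measure_mono inter_subset_left).trans_lt hvt).ne
  have hbt : volume (G ∩ B) ≠ ⊤ := ((measure_mono inter_subset_right).trans_lt hvt).ne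
  have r2 : (volume B).toReal ≤ (volume (B ∩ Bad α l d)).toReal + (volume (G ∩ B)).toReal := by
    rw [← ENNReal.toReal_add hat hbt]
    exact ENNReal.toReal_mono (ENNReal.add_ne_top.2 ⟨hat, hbt⟩) h2
  have r3 : (volume (B ∩ Bad α l d)).toReal ≤ (volume B).toReal / 8 := by
    have h7 : volume B / 8 ≠ ⊤ := (ENNReal.div_lt_top hvt.ne (by norm_num)).ne
    have h8 := ENNReal.toReal_mono h7 h3
    rw [ENNReal.toReal_div] at h8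
    simpa using h8
  have r4 : 3 * e * (volume (G ∩ B)).toReal ≤ e * (volume B).toReal := by
    have h7 : ENNReal.ofReal e * volume B ≠ ⊤ := ENNReal.mul_ne_top ENNReal.ofReal_ne_top hvt.ne
    have h8 := ENNReal.toReal_mono h7 h4
    rw [ENNReal.toReal_mul, ENNReal.toReal_mul, ENNReal.toReal_ofReal (by positivity),
      ENNReal.toReal_ofReal he.le] at h8
    exact h8
  have r5 : 3 * (volume (G ∩ B)).toReal ≤ (volume B).toReal := by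
    have h9 : e * (3 * (volume (G ∩ B)).toReal) ≤ e * (volume B).toReal := by linarith
    exact le_of_mul_le_mul_left h9 he
  have r0 : 0 < (volume B).toReal := ENNReal.toReal_pos hv0.ne' hvt.ne
  linarith

end CmpFAux

open CmpFAux in
theorem cmp_f (n : ℕ) (hn : 1 ≤ n) {θ : ℝ} (hθ : 0 < θ) : ∃ η d ρ₀ : ℝ, 0 < η ∧ 0 < d ∧ 0 < ρ₀ ∧ ρ₀ ≤ 1 / 8 ∧
    ∀ ρ : ℝ, 0 < ρ → ρ ≤ ρ₀ → ∃ δ : ℝ, 0 < δ ∧ ∀ α : FW n, Con α → ∀ l : ℝ, l ≠ 0 →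
      volume (ball (0 : W n) 1 ∩ Bad α l d) ≤ ENNReal.ofReal δ → ∀ z : W n, z ≠ 0 →
        ∀ (ct D : BW n) (σ : ℝ), MGood α z (ρ * ‖z‖) η ct σ → ‖D - ct‖ ≤ η * σ →
          ‖z‖ ^ 2 * ‖D - l • dw (a0 n) z‖ ≤ θ * |l| := by
  obtain ⟨C, hC1, hC⟩ := fs_a0 n
  have hC0 : 0 < C := by linarith
  refine ⟨min (1 / 6) (θ / (48 * (C + 1))), min 1 (θ / 8), min (1 / 8) (θ / (4 * C)),
    lt_min (by norm_num) (by positivity), lt_min (by norm_num) (by positivity),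
    lt_min (by norm_num) (by positivity), min_le_left _ _, ?_⟩
  intro ρ hρ hρ0
  set η : ℝ := min (1 / 6) (θ / (48 * (C + 1))) with hη
  set d : ℝ := min 1 (θ / 8) with hd
  have hη0 : 0 < η := lt_min (by norm_num) (by positivity)
  have hη1 : η ≤ 1 / 6 := min_le_left _ _
  have hη2 : 48 * (C + 1) * η ≤ θ := by
    have h1 : η ≤ θ / (48 * (C + 1)) := min_le_right _ _
    have h2 : 0 < 48 * (C + 1) := by positivity
    rw [le_div_iff₀ h2] at h1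
    linarith
  have hd0 : 0 < d := lt_min (by norm_num) (by positivity)
  have hd1 : d ≤ 1 := min_le_left _ _
  have hd2 : d ≤ θ / 8 := min_le_right _ _
  have hρ8 : ρ ≤ 1 / 8 := hρ0.trans (min_le_left _ _)
  have hρC : 4 * C * ρ ≤ θ := by
    have h1 : ρ ≤ θ / (4 * C) := hρ0.trans (min_le_right _ _)
    have h2 : 0 < 4 * C := by positivity
    rw [le_div_iff₀ h2] at h1
    linarith
  have hV0 : 0 < volume (closedBall (0 : W n) (ρ / 2)) :=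
    measure_closedBall_pos _ _ (by positivity)
  have hVt : volume (closedBall (0 : W n) (ρ / 2)) < ⊤ := measure_closedBall_lt_top
  have h8t : volume (closedBall (0 : W n) (ρ / 2)) / 8 ≠ ⊤ :=
    (ENNReal.div_lt_top hVt.ne (by norm_num)).ne
  have h80 : volume (closedBall (0 : W n) (ρ / 2)) / 8 ≠ 0 :=
    (ENNReal.div_pos hV0.ne' (by norm_num)).ne'
  refine ⟨(volume (closedBall (0 : W n) (ρ / 2)) / 8).toReal, ENNReal.toReal_pos h80 h8t, ?_⟩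
  intro α hα l hl hb z hz ct D σ hgood hD
  obtain ⟨hσ, hmc, -, hlow⟩ := hgood
  have hδ : ENNReal.ofReal (volume (closedBall (0 : W n) (ρ / 2)) / 8).toReal ≤
      volume (closedBall (0 : W n) (ρ / 2)) / 8 := ENNReal.ofReal_toReal_le
  obtain ⟨x, hxB, hxbad, hxc⟩ := good_point hα l d hρ hρ8 hδ hb hz (mul_pos hη0 hσ) hmc
  have hZ : 0 < ‖z‖ := norm_pos_iff.2 hz
  have hxz : ‖x - z‖ ≤ ρ * ‖z‖ := mem_closedBall_iff_norm.1 hxB
  have hxz8 : ‖x - z‖ ≤ ‖z‖ / 8 := hxz.trans (by nlinarith)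
  have hX : 7 / 8 * ‖z‖ ≤ ‖x‖ := by
    have h1 : ‖z‖ ≤ ‖x‖ + ‖x - z‖ := by
      have := norm_sub_le x (x - z)
      rwa [sub_sub_cancel] at this
    linarith
  have hX0 : x ≠ 0 := by
    intro h
    rw [h, norm_zero] at hX
    linarith
  have hXX : ‖z‖ ^ 2 ≤ 2 * ‖x‖ ^ 2 := by nlinarith
  have hl0 : 0 ≤ |l| := abs_nonneg l
  set Dx : BW n := dw α x - l • dw (a0 n) x with hDx
  have b1 : ‖z‖ ^ 2 * ‖Dx‖ ≤ 2 * (d * |l|) := by
    have h1 : ‖x‖ ^ 2 * ‖Dx‖ ≤ d * |l| := by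
      by_contra h2
      exact hxbad ⟨hX0, not_le.1 h2⟩
    have h3 : ‖z‖ ^ 2 * ‖Dx‖ ≤ 2 * ‖x‖ ^ 2 * ‖Dx‖ := mul_le_mul_of_nonneg_right hXX (norm_nonneg _)
    linarith
  have b2 : ‖z‖ ^ 2 * ‖dw (a0 n) x‖ ≤ 2 * C := by
    have h1 := (hC x hX0).1
    have h3 : ‖z‖ ^ 2 * ‖dw (a0 n) x‖ ≤ 2 * ‖x‖ ^ 2 * ‖dw (a0 n) x‖ :=
      mul_le_mul_of_nonneg_right hXX (norm_nonneg _)
    linarith
  have b3 : ‖z‖ ^ 2 * ‖dw (a0 n) x - dw (a0 n) z‖ ≤ C * ρ := by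
    have h1 := (hC z hz).2.2 x hxz8
    have h2 : C * ‖x - z‖ ≤ C * (ρ * ‖z‖) := mul_le_mul_of_nonneg_left hxz hC0.le
    have h3 : ‖z‖ * (‖z‖ ^ 2 * ‖dw (a0 n) x - dw (a0 n) z‖) ≤ ‖z‖ * (C * ρ) := by
      calc ‖z‖ * (‖z‖ ^ 2 * ‖dw (a0 n) x - dw (a0 n) z‖)
          = ‖z‖ ^ 3 * ‖dw (a0 n) x - dw (a0 n) z‖ := by ring
        _ ≤ C * ‖x - z‖ := h1
        _ ≤ C * (ρ * ‖z‖) := h2
        _ = ‖z‖ * (C * ρ) := by ring
    exact le_of_mul_le_mul_left h3 hZ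
  -- the bound of `σ`
  have b4 : σ ≤ ‖ct‖ := by
    obtain ⟨p, hp, hzp⟩ := Pool.Agent.Lib.P28t.exists_perp hn hz
    have hp' : 0 < ‖p‖ := norm_pos_iff.2 hp
    exact le_of_mul_le_mul_right ((hlow p hzp).trans (ct.le_opNorm p)) hp'
  have b5 : ‖ct‖ ≤ 3 * (η * σ) + ‖Dx‖ + |l| * ‖dw (a0 n) x‖ := by
    have e : ct = -(dw α x - ct) + Dx + l • dw (a0 n) x := by
      rw [hDx]; abel
    calc ‖ct‖ = ‖-(dw α x - ct) + Dx + l • dw (a0 n) x‖ := by rw [← e]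
      _ ≤ ‖-(dw α x - ct)‖ + ‖Dx‖ + ‖l • dw (a0 n) x‖ := norm_add₃_le
      _ = ‖dw α x - ct‖ + ‖Dx‖ + |l| * ‖dw (a0 n) x‖ := by
          rw [norm_neg, norm_smul, Real.norm_eq_abs]
      _ ≤ 3 * (η * σ) + ‖Dx‖ + |l| * ‖dw (a0 n) x‖ := by linarith
  have b6 : ‖z‖ ^ 2 * σ ≤ 4 * (C + 1) * |l| := by
    have h1 : η * σ ≤ 1 / 6 * σ := mul_le_mul_of_nonneg_right hη1 hσ.le
    have h2 : σ ≤ 2 * (‖Dx‖ + |l| * ‖dw (a0 n) x‖) := by linarith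
    have h3 : ‖z‖ ^ 2 * σ ≤ ‖z‖ ^ 2 * (2 * (‖Dx‖ + |l| * ‖dw (a0 n) x‖)) :=
      mul_le_mul_of_nonneg_left h2 (by positivity)
    have h4 : |l| * (‖z‖ ^ 2 * ‖dw (a0 n) x‖) ≤ |l| * (2 * C) := mul_le_mul_of_nonneg_left b2 hl0
    have h5 : d * |l| ≤ 1 * |l| := mul_le_mul_of_nonneg_right hd1 hl0
    calc ‖z‖ ^ 2 * σ ≤ ‖z‖ ^ 2 * (2 * (‖Dx‖ + |l| * ‖dw (a0 n) x‖)) := h3
      _ = 2 * (‖z‖ ^ 2 * ‖Dx‖) + 2 * (|l| * (‖z‖ ^ 2 * ‖dw (a0 n) x‖)) := by ring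
      _ ≤ 2 * (2 * (1 * |l|)) + 2 * (|l| * (2 * C)) := by linarith
      _ = 4 * (C + 1) * |l| := by ring
  have b7 : ‖D - l • dw (a0 n) z‖ ≤ 4 * (η * σ) + ‖Dx‖ +
      |l| * ‖dw (a0 n) x - dw (a0 n) z‖ := by
    have e : D - l • dw (a0 n) z = (D - ct) + (-(dw α x - ct)) + Dx +
        l • (dw (a0 n) x - dw (a0 n) z) := by
      rw [hDx, smul_sub]; abel
    calc ‖D - l • dw (a0 n) z‖ = ‖(D - ct) + (-(dw α x - ct)) + Dx +
        l • (dw (a0 n) x - dw (a0 n) z)‖ := by rw [← e]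
      _ ≤ ‖D - ct‖ + ‖-(dw α x - ct)‖ + ‖Dx‖ + ‖l • (dw (a0 n) x - dw (a0 n) z)‖ :=
          (norm_add_le _ _).trans (add_le_add norm_add₃_le le_rfl)
      _ = ‖D - ct‖ + ‖dw α x - ct‖ + ‖Dx‖ + |l| * ‖dw (a0 n) x - dw (a0 n) z‖ := by
          rw [norm_neg, norm_smul, Real.norm_eq_abs]
      _ ≤ 4 * (η * σ) + ‖Dx‖ + |l| * ‖dw (a0 n) x - dw (a0 n) z‖ := by linarith
  have c1 : ‖z‖ ^ 2 * ‖D - l • dw (a0 n) z‖ ≤
      4 * η * (‖z‖ ^ 2 * σ) + ‖z‖ ^ 2 * ‖Dx‖ +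
        |l| * (‖z‖ ^ 2 * ‖dw (a0 n) x - dw (a0 n) z‖) := by
    calc ‖z‖ ^ 2 * ‖D - l • dw (a0 n) z‖
        ≤ ‖z‖ ^ 2 * (4 * (η * σ) + ‖Dx‖ + |l| * ‖dw (a0 n) x - dw (a0 n) z‖) :=
          mul_le_mul_of_nonneg_left b7 (by positivity)
      _ = _ := by ring
  have c2 : 4 * η * (‖z‖ ^ 2 * σ) ≤ 4 * η * (4 * (C + 1) * |l|) :=
    mul_le_mul_of_nonneg_left b6 (by positivity)
  have c3 : |l| * (‖z‖ ^ 2 * ‖dw (a0 n) x - dw (a0 n) z‖) ≤ |l| * (C * ρ) :=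
    mul_le_mul_of_nonneg_left b3 hl0
  have c4 : 48 * (C + 1) * η * |l| ≤ θ * |l| := mul_le_mul_of_nonneg_right hη2 hl0
  have c5 : 4 * C * ρ * |l| ≤ θ * |l| := mul_le_mul_of_nonneg_right hρC hl0
  have c6 : d * |l| ≤ θ / 8 * |l| := mul_le_mul_of_nonneg_right hd2 hl0
  have c7 : 0 ≤ θ * |l| := by positivity
  linarith [c1, c2, c3, c4, c5, c6, c7, b1,
    (by ring : 4 * η * (4 * (C + 1) * |l|) = 1 / 3 * (48 * (C + 1) * η * |l|)),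
    (by ring : |l| * (C * ρ) = 1 / 4 * (4 * C * ρ * |l|)),
    (by ring : θ / 8 * |l| = 1 / 8 * (θ * |l|))]

end Pool.Agent.Lib.P28v
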