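import Pool.Agent.Lib.P28v.Defs
import Pool.Agent.Lib.P28u.CurvU
import Pool.Agent.Lib.P28u.FrA

set_option autoImplicit false
set_option maxSynthPendingDepth 3

/-!
# Invariance and derivatives of the two scalar functions

PROOF. `Wm_st`: `h 0 = c • e0 n`, `|c| = 1` (`nsq_col`). `(rm g h) 0 = mx g (c • e0) = c • g 0`. `dw α (c z) (c v) (c w) = dw α z v w` (`Con.dw_hom`, `z = g 0 ≠ 0` by `col_ne`), so with `O l k = re (hip (Eb l) (c⁻¹ • mx h (Eb k)))`, `c⁻¹ • mx h (Eb k) = ∑ l, O l k • Eb l` (`coord`; the coordinate `0` of `mx h (Eb k)` vanishes: `hip (h 0) (mx h (Eb k)) = 0`, `hip_mx`):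
`Wm α (rm g h) k l = dw α (g 0) (mx g (∑ O a k Eb a)) (mx g (∑ O b l Eb b)) = (Oᵀ W O) k l`, `W = Wm α g`. `O` is orthogonal, `Oᵀ O = 1` (`∑ l, O l k O l m = re (hip (c⁻¹ • mx h (Eb k)) (c⁻¹ • mx h (Eb m))) = re (hip (Eb k) (Eb m)) = δ`, `re_hip_Lv`), and `Oᵀ J O = J` (the same with the imaginary part, `|c| = 1`).
So `fr2 (Oᵀ W O) = fr2 W` and `inn (Oᵀ W O) J = inn W (O J Oᵀ) = inn W J` (`O Oᵀ = 1`, hence `O J Oᵀ = J`). (`inn M N = trace (Mᵀ N)`.)
`coef_smooth`: `sm_Wm` (`SM ∞ (Wm α) g`, `SM.fr2`, `SM.inn`, `SM.const`), `fr2 (Wm α g) > 0` (`fr2_pos`, `unit_Wm`). `coef_der`: `W = Wm α g`, `A = Am α i g = W⁻¹ D_i W`, so `D_i W = W A`; `Dv i (fun g => fr2 (Wm α g)) = 2 inn W (W A)` (`fderiv_fr2`), `|inn W (W A)| ≤ |W|² |A|`, `|M| = √(fr2 M)` (`inn_le`, `sqrt_fr2_mul`): `|Dv i lf| ≤ 2 |A|`.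
`Dv i sf = inn (W A) J / |W| - inn W J * inn W (W A) / |W|³`: `|Dv i sf| ≤ 2 |J| |A|`. `sf_le`: Cauchy-Schwarz.
-/

open MeasureTheory Set Metric
open scoped ContDiff Topology ENNReal

namespace Pool.Agent.Lib.P28v

open Pool.Agent.P28b04d Pool.Agent.Lib.P28e Pool.Agent.Lib.P28c Pool.Agent.Lib.P28t Pool.Agent.Lib.P28u
open Pool.Agent.Lib.P28f (V EV)

variable {n : ℕ}

namespace CoefFAux

open UnAAux EbFAux

theorem inn_trace (M N : MR n) : inn M N = (M.transpose * N).trace := by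
  unfold inn Matrix.trace
  rw [Finset.sum_comm]
  refine Finset.sum_congr rfl fun l _ => ?_
  rw [Matrix.diag_apply, Matrix.mul_apply]
  rfl

theorem inn_conj {O : MR n} (hO : O.transpose * O = 1) (M N : MR n) :
    inn (O.transpose * M * O) (O.transpose * N * O) = inn M N := by
  have hO' : O * O.transpose = 1 := mul_eq_one_comm.1 hO
  rw [inn_trace, inn_trace, Matrix.transpose_mul, Matrix.transpose_mul, Matrix.transpose_transpose]
  have h1 : O.transpose * (M.transpose * O) * (O.transpose * N * O) =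
      O.transpose * (M.transpose * N * O) := by
    calc O.transpose * (M.transpose * O) * (O.transpose * N * O) =
        O.transpose * M.transpose * (O * O.transpose) * N * O := by simp only [mul_assoc]
      _ = O.transpose * (M.transpose * N * O) := by
        rw [hO', mul_one]
        simp only [mul_assoc]
  rw [h1, Matrix.trace_mul_comm, mul_assoc, hO', mul_one]

/-- the rotated frame -/
theorem st_frame {h : XX n} (hh : h ∈ St n) : ∃ (c : ℂ) (O : MR n), c ≠ 0 ∧ h 0 = c • e0 n ∧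
    (∀ k, mx h (Eb k) = c • ∑ l, O l k • Eb l) ∧ O.transpose * O = 1 ∧
      O.transpose * Jm n * O = Jm n := by
  obtain ⟨hU, c, hc⟩ := hh
  have hcc : star c * c = 1 := by
    have h1 := hU 0 0
    rw [if_pos rfl, hc, hipSmulL, hipSmul, hip_e0, e0_zero, mul_one] at h1
    exact h1
  have hc0 : c ≠ 0 := by
    intro h0
    rw [h0, mul_zero] at hcc
    exact zero_ne_one hcc
  have hcs : star c ≠ 0 := by
    intro h0
    rw [h0, zero_mul] at hcc
    exact zero_ne_one hcc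
  have hv0 : ∀ k : Fin (n * 2), (c⁻¹ • mx h (Eb k)) 0 = 0 := by
    intro k
    have h1 := hip_mx hU (e0 n) (Eb k)
    rw [mx_e0, hip_e0_Eb, hc, hipSmulL, hip_e0] at h1
    have h2 : mx h (Eb k) 0 = 0 := (mul_eq_zero.1 h1).resolve_left hcs
    rw [Pi.smul_apply, h2, smul_zero]
  obtain ⟨O, hO⟩ : ∃ O : MR n, O = fun l k => (hip (Eb l) (c⁻¹ • mx h (Eb k))).re := ⟨_, rfl⟩
  have hu : ∀ k : Fin (n * 2), c⁻¹ • mx h (Eb k) = ∑ l, O l k • Eb l := by
    intro k
    rw [hO]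
    exact coord (hv0 k)
  have hhip : ∀ k m : Fin (n * 2), hip (∑ l, O l k • Eb l) (∑ l, O l m • (Eb l : W n)) =
      hip (Eb k) (Eb m) := by
    intro k m
    rw [← hu k, ← hu m, hipSmulL, hipSmul, hip_mx hU, ← mul_assoc]
    have h1 : star c⁻¹ * c⁻¹ = 1 := by
      rw [star_inv₀, ← mul_inv, hcc, inv_one]
    rw [h1, one_mul]
  have hsum : ∀ k m : Fin (n * 2), hip (∑ l, O l k • Eb l) (∑ l, O l m • (Eb l : W n)) =
      ∑ a, ∑ b, ((O a k * O b m : ℝ) : ℂ) * hip (Eb a) (Eb b) := by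
    intro k m
    rw [hipSumL]
    refine Finset.sum_congr rfl fun a _ => ?_
    rw [hipSum]
    refine Finset.sum_congr rfl fun b _ => ?_
    have e1 : (O a k • Eb a : W n) = ((O a k : ℝ) : ℂ) • (Eb a : W n) := (Complex.coe_smul _ _).symm
    have e2 : (O b m • Eb b : W n) = ((O b m : ℝ) : ℂ) • (Eb b : W n) := (Complex.coe_smul _ _).symm
    rw [e1, e2, hipSmulL, hipSmul]
    have e3 : star ((O a k : ℝ) : ℂ) = ((O a k : ℝ) : ℂ) := Complex.conj_ofReal _
    rw [e3]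
    push_cast
    ring
  have hre : ∀ a b : Fin (n * 2), (hip (Eb a) (Eb b : W n)).re = if a = b then 1 else 0 := by
    intro a b
    have h1 := re_hip_Lv (n := n) (Pi.single a 1) (Pi.single b 1)
    have h2 : (hip (Eb a) (Eb b : W n)).re =
        ∑ i, (Pi.single a (1 : ℝ) : V (n * 2)) i * (Pi.single b (1 : ℝ) : V (n * 2)) i := h1
    rw [h2, Finset.sum_eq_single a]
    · rw [Pi.single_eq_same, one_mul]
      by_cases hab : a = b
      · subst hab
        rw [Pi.single_eq_same, if_pos rfl]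
      · rw [Pi.single_eq_of_ne hab, if_neg hab]
    · intro j _ hj
      rw [Pi.single_eq_of_ne hj, zero_mul]
    · intro hx
      exact absurd (Finset.mem_univ a) hx
  refine ⟨c, O, hc0, hc, fun k => ?_, ?_, ?_⟩
  · rw [← hu k, smul_inv_smul₀ hc0]
  · ext k m
    have h1 := congrArg Complex.re ((hsum k m).symm.trans (hhip k m))
    rw [Complex.re_sum, hre] at h1
    rw [Matrix.one_apply, ← h1, Matrix.mul_apply]
    refine Finset.sum_congr rfl fun a _ => ?_
    rw [Complex.re_sum, Finset.sum_eq_single a]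
    · rw [Complex.re_ofReal_mul, hre, if_pos rfl, mul_one, Matrix.transpose_apply]
    · intro b _ hb
      rw [Complex.re_ofReal_mul, hre, if_neg hb.symm, mul_zero]
    · intro hx
      exact absurd (Finset.mem_univ a) hx
  · ext k m
    have h1 := congrArg Complex.im ((hsum k m).symm.trans (hhip k m))
    rw [Complex.im_sum] at h1
    have h2 : (Jm n) k m = 2 * (hip (Eb k) (Eb m : W n)).im := rfl
    rw [h2, ← h1, Matrix.mul_apply]
    simp only [Matrix.mul_apply, Matrix.transpose_apply, Complex.im_sum, Complex.im_ofReal_mul,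
      Finset.sum_mul, Finset.mul_sum]
    rw [Finset.sum_comm]
    refine Finset.sum_congr rfl fun a _ => Finset.sum_congr rfl fun b _ => ?_
    have h3 : (Jm n) a b = 2 * (hip (Eb a) (Eb b : W n)).im := rfl
    rw [h3]
    ring

theorem Wm_conj {α : FW n} (hα : Con α) {g h : XX n} (hg : g ∈ Un n) {c : ℂ} {O : MR n}
    (hc : c ≠ 0) (h0 : h 0 = c • e0 n) (hh : ∀ k, mx h (Eb k) = c • ∑ l, O l k • Eb l) :
    Wm α (rm g h) = O.transpose * Wm α g * O := by
  have hg0 := col_ne hg 0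
  have e0' : rm g h 0 = c • g 0 := by
    show mx g (h 0) = _
    rw [h0, mx_smul, mx_e0]
  have ek : ∀ k : Fin (n * 2), mx (rm g h) (Eb k) = c • ∑ l, O l k • mx g (Eb l) := by
    intro k
    rw [mx_rm, hh, mx_smul, WmFAux.mx_sum]
    congr 1
    refine Finset.sum_congr rfl fun l _ => ?_
    rw [mx_rsmul]
  ext k l
  have h1 : Wm α (rm g h) k l = dw α (g 0) (∑ a, O a k • mx g (Eb a)) (∑ b, O b l • mx g (Eb b)) := by
    show dw α (rm g h 0) (mx (rm g h) (Eb k)) (mx (rm g h) (Eb l)) = _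
    rw [e0', ek, ek, hα.dw_hom hc hg0]
  rw [h1, map_sum, map_sum, Matrix.mul_apply]
  refine Finset.sum_congr rfl fun b _ => ?_
  rw [map_smul, smul_eq_mul, ContinuousLinearMap.sum_apply, Matrix.mul_apply, Finset.mul_sum,
    Finset.sum_mul]
  refine Finset.sum_congr rfl fun a _ => ?_
  rw [map_smul, ContinuousLinearMap.smul_apply, smul_eq_mul, Matrix.transpose_apply]
  show O b l * (O a k * Wm α g a b) = O a k * Wm α g a b * O b l
  ring

theorem DM_eq {α : FW n} (hα : Symp α) {g : XX n} (hg : g ∈ Un n) (i : Fin (n * 2)) :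
    DM i (Wm α) g = Wm α g * Am α i g := by
  unfold Am
  rw [← mul_assoc, Matrix.mul_nonsing_inv _ (CurvUAux.det_isUnit hα hg), one_mul]

end CoefFAux

open CoefFAux

theorem Wm_st {α : FW n} (hα : Con α) {g h : XX n} (hg : g ∈ Un n) (hh : h ∈ St n) :
    fr2 (Wm α (rm g h)) = fr2 (Wm α g) ∧ inn (Wm α (rm g h)) (Jm n) = inn (Wm α g) (Jm n) := by
  obtain ⟨c, O, hc, h0, hk, hO, hJ⟩ := st_frame hh
  rw [Wm_conj hα hg hc h0 hk]
  constructor
  · rw [← inn_self, inn_conj hO, inn_self]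
  · conv_lhs => rw [← hJ]
    exact inn_conj hO _ _

theorem coef_smooth (hn : 1 ≤ n) {α : FW n} (hα : Symp α) {g : XX n} (hg : g ∈ Un n) :
    ContDiffAt ℝ ∞ (lf α) g ∧ ContDiffAt ℝ ∞ (sf α) g := by
  have h1 := CurvUAux.smW hα hg
  have h2 := fr2_pos hn (unit_Wm hα hg)
  refine ⟨h1.fr2.log h2.ne', ?_⟩
  exact (h1.inn (SM.const (Jm n))).div (h1.fr2.sqrt h2.ne') (Real.sqrt_pos.2 h2).ne'

theorem coef_der (hn : 1 ≤ n) {α : FW n} (hα : Symp α) {g : XX n} (hg : g ∈ Un n) (i : Fin (n * 2)) :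
    |Dv i (lf α) g| ≤ 2 * Real.sqrt (fr2 (Am α i g)) ∧
      |Dv i (sf α) g| ≤ 2 * Real.sqrt (fr2 (Jm n)) * Real.sqrt (fr2 (Am α i g)) := by
  have hs : SM 1 (Wm α) g := (CurvUAux.smW hα hg).mono CurvUAux.one_le_infty
  have p := fr2_pos hn (unit_Wm hα hg)
  have d1 : DifferentiableAt ℝ (fun g => fr2 (Wm α g)) g := hs.fr2.differentiableAt (by norm_num)
  have d2 : DifferentiableAt ℝ (fun g => inn (Wm α g) (Jm n)) g :=
    (hs.inn (SM.const (Jm n))).differentiableAt (by norm_num)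
  have eD : DE (Wm α) g (rm g (Xm i)) = Wm α g * Am α i g := DM_eq hα hg i
  have f1 : fderiv ℝ (fun g => fr2 (Wm α g)) g (rm g (Xm i)) =
      2 * inn (Wm α g) (Wm α g * Am α i g) := by
    rw [fderiv_fr2 hs, eD]
  have f2 : fderiv ℝ (fun g => inn (Wm α g) (Jm n)) g (rm g (Xm i)) =
      inn (Wm α g * Am α i g) (Jm n) := by
    have h1 := fderiv_inn hs (SM.const (N := 1) (x := g) (Jm n)) (rm g (Xm i))
    rw [h1, DE_const, eD]
    have h2 : inn (Wm α g) 0 = 0 := by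
      unfold inn
      simp
    rw [h2, add_zero]
  set a := Real.sqrt (fr2 (Wm α g)) with ha
  set A := Real.sqrt (fr2 (Am α i g)) with hA
  set J := Real.sqrt (fr2 (Jm n)) with hJ
  have a0 : 0 < a := Real.sqrt_pos.2 p
  have A0 : 0 ≤ A := Real.sqrt_nonneg _
  have J0 : 0 ≤ J := Real.sqrt_nonneg _
  have a2 : fr2 (Wm α g) = a ^ 2 := (Real.sq_sqrt p.le).symm
  have hWA : Real.sqrt (fr2 (Wm α g * Am α i g)) ≤ a * A := sqrt_fr2_mul _ _
  have i1 : |inn (Wm α g) (Wm α g * Am α i g)| ≤ a * (a * A) :=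
    (inn_le _ _).trans (mul_le_mul_of_nonneg_left hWA a0.le)
  have i2 : |inn (Wm α g * Am α i g) (Jm n)| ≤ a * A * J :=
    (inn_le _ _).trans (mul_le_mul_of_nonneg_right hWA J0)
  have i3 : |inn (Wm α g) (Jm n)| ≤ a * J := inn_le _ _
  constructor
  · have e : Dv i (lf α) g = (fr2 (Wm α g))⁻¹ * (2 * inn (Wm α g) (Wm α g * Am α i g)) := by
      show fderiv ℝ (fun g => Real.log (fr2 (Wm α g))) g (rm g (Xm i)) = _
      rw [(d1.hasFDerivAt.log p.ne').fderiv, smul_apply, smul_eq_mul, f1]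
    rw [e, abs_mul, abs_mul, abs_of_pos (inv_pos.2 p), abs_of_pos (by norm_num : (0 : ℝ) < 2), a2,
      inv_mul_le_iff₀ (by positivity)]
    nlinarith
  · have e : Dv i (sf α) g = (a⁻¹ * inn (Wm α g * Am α i g) (Jm n)) -
        (a ^ 3)⁻¹ * (inn (Wm α g) (Jm n) * inn (Wm α g) (Wm α g * Am α i g)) := by
      show fderiv ℝ (fun g => inn (Wm α g) (Jm n) / Real.sqrt (fr2 (Wm α g))) g (rm g (Xm i)) = _
      have h0 := (hasDerivAt_inv (Real.sqrt_pos.2 p).ne').comp_hasFDerivAt g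
        (d1.hasFDerivAt.sqrt p.ne')
      have h1 := d2.hasFDerivAt.fun_mul h0
      have h2 : (fun g => inn (Wm α g) (Jm n) / Real.sqrt (fr2 (Wm α g))) =
          fun g => inn (Wm α g) (Jm n) * (Inv.inv ∘ fun g => Real.sqrt (fr2 (Wm α g))) g := rfl
      rw [h2, h1.fderiv]
      simp only [add_apply, smul_apply, smul_eq_mul, f1, f2, Function.comp]
      rw [← ha]
      field_simp
      ring
    rw [e]
    have j1 : |a⁻¹ * inn (Wm α g * Am α i g) (Jm n)| ≤ A * J := by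
      rw [abs_mul, abs_of_pos (inv_pos.2 a0), inv_mul_le_iff₀ a0]
      linarith
    have j2 : |(a ^ 3)⁻¹ * (inn (Wm α g) (Jm n) * inn (Wm α g) (Wm α g * Am α i g))| ≤ A * J := by
      rw [abs_mul, abs_of_pos (inv_pos.2 (by positivity)), inv_mul_le_iff₀ (by positivity), abs_mul]
      calc |inn (Wm α g) (Jm n)| * |inn (Wm α g) (Wm α g * Am α i g)| ≤
          a * J * (a * (a * A)) := mul_le_mul i3 i1 (abs_nonneg _) (by positivity)
        _ = a ^ 3 * (A * J) := by ring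
    have j3 := abs_sub (a⁻¹ * inn (Wm α g * Am α i g) (Jm n))
      ((a ^ 3)⁻¹ * (inn (Wm α g) (Jm n) * inn (Wm α g) (Wm α g * Am α i g)))
    linarith

end Pool.Agent.Lib.P28v
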