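import Pool.Agent.Lib.P28v.Defs
import Pool.Agent.Lib.P28u.IrrU
import Pool.Agent.Lib.P28u.CurvU

set_option autoImplicit false
set_option maxSynthPendingDepth 3

/-!
# A matrix which almost commutes with the curvature matrices is almost a multiple of `J`

PROOF. `op M` is the real operator of `ℂ^n` with matrix `M` in the basis `Eb`. `op (Rm i j) q = Rf (Eb i) (Eb j) q`, `op (Jm n) q = (-2 i) q`. Let `M` be skew and commute with all `Rm i j`.
`∑ i k, J k i • Rm i k = 4 (n + 1) • J`, so `M` commutes with `J` and `op M` is complex linear; for `u = Eb i`: `Rf u (i u) u = 4 i u`, `Rf u (i u) p = 2 i (⟨u, p⟩ u + p)`, so `op M u = λ u`; and `Rf u v u = v + κ u` gives `op M v = λ v` for all `v = Eb j`. Skewness: `re λ = 0`.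
The estimate: compactness of the unit sphere of the space of matrices.
-/

open MeasureTheory Set Metric
open scoped ContDiff Topology ENNReal

namespace Pool.Agent.Lib.P28v

open Pool.Agent.P28b04d Pool.Agent.Lib.P28e Pool.Agent.Lib.P28c Pool.Agent.Lib.P28t Pool.Agent.Lib.P28u
open Pool.Agent.Lib.P28f (V EV)

variable {n : ℕ}

namespace ComAAux

open IrrUAux (hadd hsub hsmul hrsmul haddl hrsmull hstar lin_sum rf1 rf2 rf3 re1 re2 comp_lin)

theorem Eb_zero (i : Fin (n * 2)) : (Eb i : W n) 0 = 0 := by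
  rw [← hip_e0 (Eb i), hip_e0_Eb]

theorem re_Eb (i j : Fin (n * 2)) : (hip (Eb i : W n) (Eb j)).re = if i = j then 1 else 0 := by
  have h := re_hip_Lv (n := n) (Pi.single i 1) (Pi.single j 1)
  have h2 : (hip (Eb i : W n) (Eb j)).re = ∑ k, (Pi.single i (1 : ℝ) : V (n * 2)) k *
      (Pi.single j (1 : ℝ) : V (n * 2)) k := h
  rw [h2]
  by_cases hij : i = j
  · subst hij
    rw [if_pos rfl, Finset.sum_eq_single i]
    · simp
    · intro k _ hk
      simp [Pi.single_eq_of_ne hk]
    · intro h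
      exact absurd (Finset.mem_univ i) h
  · rw [if_neg hij]
    refine Finset.sum_eq_zero fun k _ => ?_
    by_cases hk : k = i
    · subst hk
      rw [Pi.single_eq_of_ne hij, mul_zero]
    · rw [Pi.single_eq_of_ne hk, zero_mul]

/-- The operator of a matrix. -/
noncomputable def op (M : MR n) (q : W n) : W n := ∑ a, (∑ b, M a b * (hip (Eb b) q).re) • Eb a

theorem sum_zero (x : Fin (n * 2) → ℝ) : (∑ a, x a • (Eb a : W n)) 0 = 0 := by
  rw [Finset.sum_apply]
  refine Finset.sum_eq_zero fun a _ => ?_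
  rw [Pi.smul_apply, Eb_zero, smul_zero]

theorem re_sum (x : Fin (n * 2) → ℝ) (b : Fin (n * 2)) :
    (hip (Eb b : W n) (∑ a, x a • (Eb a : W n))).re = x b := by
  rw [lin_sum _ (re2 (Eb b)) x Eb]
  simp only [re_Eb, smul_eq_mul]
  rw [Finset.sum_eq_single b]
  · simp
  · intro k _ hk
    rw [if_neg (Ne.symm hk), mul_zero]
  · intro h
    exact absurd (Finset.mem_univ b) h

theorem re_op (M : MR n) (q : W n) (a : Fin (n * 2)) :
    (hip (Eb a) (op M q)).re = ∑ b, M a b * (hip (Eb b) q).re := re_sum _ a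

theorem op_zero' (M : MR n) (q : W n) : op M q 0 = 0 := sum_zero _

theorem op_Eb (M : MR n) (b : Fin (n * 2)) : op M (Eb b) = ∑ a, M a b • Eb a := by
  unfold op
  refine Finset.sum_congr rfl fun a _ => ?_
  congr 1
  simp only [re_Eb]
  rw [Finset.sum_eq_single b]
  · simp
  · intro k _ hk
    rw [if_neg hk, mul_zero]
  · intro h
    exact absurd (Finset.mem_univ b) h

theorem re_op_Eb (M : MR n) (a b : Fin (n * 2)) : (hip (Eb a) (op M (Eb b))).re = M a b := by
  rw [op_Eb]
  exact re_sum _ a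

theorem op_mul (M N : MR n) (q : W n) : op (M * N) q = op M (op N q) := by
  unfold op
  refine Finset.sum_congr rfl fun a _ => ?_
  congr 1
  have h : ∀ b, (hip (Eb b) (∑ a, (∑ b, N a b * (hip (Eb b) q).re) • (Eb a : W n))).re =
      ∑ c, N b c * (hip (Eb c) q).re := fun b => re_sum _ b
  simp only [h, Matrix.mul_apply, Finset.sum_mul, Finset.mul_sum]
  rw [Finset.sum_comm]
  refine Finset.sum_congr rfl fun c _ => Finset.sum_congr rfl fun b _ => by ring

theorem ext_op {M N : MR n} (h : ∀ b, op M (Eb b) = op N (Eb b)) : M = N := by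
  ext a b
  rw [← re_op_Eb M, ← re_op_Eb N, h]

theorem op_lin (M : MR n) : IsLinearMap ℝ (op M : W n → W n) := by
  constructor
  · intro p q
    unfold op
    rw [← Finset.sum_add_distrib]
    refine Finset.sum_congr rfl fun a _ => ?_
    rw [← add_smul, ← Finset.sum_add_distrib]
    congr 1
    refine Finset.sum_congr rfl fun b _ => ?_
    rw [hadd, Complex.add_re]
    ring
  · intro r p
    unfold op
    rw [Finset.smul_sum]
    refine Finset.sum_congr rfl fun a _ => ?_
    rw [smul_smul, Finset.mul_sum]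
    congr 1
    refine Finset.sum_congr rfl fun b _ => ?_
    rw [hrsmul, Complex.re_ofReal_mul]
    ring

theorem op_Rm (i j : Fin (n * 2)) {q : W n} (hq : q 0 = 0) : op (Rm i j) q = Rf (Eb i) (Eb j) q := by
  have h := coord hq
  have h1 : op (Rm i j) q = ∑ l, (hip (Eb l) q).re • op (Rm i j) (Eb l) := by
    conv_lhs => rw [h]
    exact lin_sum _ (op_lin _) _ _
  have h2 : Rf (Eb i) (Eb j) q = ∑ l, (hip (Eb l) q).re • Rf (Eb i) (Eb j) (Eb l) := by
    conv_lhs => rw [h]
    exact lin_sum _ (rf3 _ _) _ _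
  rw [h1, h2]
  refine Finset.sum_congr rfl fun l _ => ?_
  rw [op_Eb, Rf_coord]

theorem re_I (z w : W n) : (hip z (Complex.I • w)).re = -(hip z w).im := by
  rw [hsmul]
  simp

theorem im_I (z w : W n) : (hip z (Complex.I • w)).im = (hip z w).re := by
  rw [hsmul]
  simp

theorem I_zero {q : W n} (hq : q 0 = 0) : (Complex.I • q) 0 = 0 := by
  rw [Pi.smul_apply, hq, smul_zero]

theorem op_J {q : W n} (hq : q 0 = 0) : op (Jm n) q = (-2 * Complex.I) • q := by
  have h1 : ∀ l, op (Jm n) (Eb l) = (-2 * Complex.I) • (Eb l : W n) := by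
    intro l
    rw [op_Eb]
    have h2 := coord (I_zero (Eb_zero (n := n) l))
    have h3 : (-2 * Complex.I) • (Eb l : W n) = (-2 : ℝ) • (Complex.I • (Eb l : W n)) := by
      rw [mul_smul]
      ext k
      simp
    rw [h3, h2, Finset.smul_sum]
    refine Finset.sum_congr rfl fun k _ => ?_
    rw [smul_smul, re_I]
    congr 1
    unfold Jm
    ring
  have h := coord hq
  have h2 : op (Jm n) q = ∑ l, (hip (Eb l) q).re • op (Jm n) (Eb l) := by
    conv_lhs => rw [h]
    exact lin_sum _ (op_lin _) _ _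
  rw [h2]
  conv_rhs => rw [h]
  rw [Finset.smul_sum]
  refine Finset.sum_congr rfl fun l _ => ?_
  rw [h1, smul_comm]

theorem Rf_smul (u v p : W n) (c : ℂ) : Rf u v (c • p) = c • Rf u v p := by
  unfold Rf
  rw [hsmul, hsmul]
  module

theorem Rf_zero' {u v p : W n} (hu : u 0 = 0) (hv : v 0 = 0) (hp : p 0 = 0) : Rf u v p 0 = 0 := by
  unfold Rf
  simp only [Pi.add_apply, Pi.sub_apply, Pi.smul_apply, hu, hv, hp, smul_zero, sub_zero, add_zero]

/-- sum over the real basis -/
theorem sum_proj {p : W n} (hp : p 0 = 0) : ∑ i, hip (Eb i) p • (Eb i : W n) = (2 : ℂ) • p := by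
  have h1 := coord hp
  have h2 := coord (I_zero hp)
  have h3 : p = ∑ i, (Complex.I * ((hip (Eb i) p).im : ℂ)) • (Eb i : W n) := by
    have h4 : p = (-Complex.I) • (Complex.I • p) := by
      rw [smul_smul]
      simp
    conv_lhs => rw [h4, h2]
    rw [Finset.smul_sum]
    refine Finset.sum_congr rfl fun i _ => ?_
    rw [re_I]
    ext k
    simp
    ring
  have h5 : (2 : ℂ) • p = p + p := by
    rw [two_smul]
  rw [h5]
  conv_rhs =>
    congr
    · rw [h1]
    · rw [h3]
  rw [← Finset.sum_add_distrib]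
  refine Finset.sum_congr rfl fun i _ => ?_
  have h6 : (hip (Eb i) p).re • (Eb i : W n) = (((hip (Eb i) p).re : ℝ) : ℂ) • (Eb i : W n) := by
    ext k
    simp
  rw [h6, ← add_smul]
  congr 1
  apply Complex.ext <;> simp

theorem hI (u p : W n) : hip (Complex.I • u) p = -Complex.I * hip u p := by
  rw [hstar, hsmul, star_mul', ← hstar]
  simp [Complex.star_def]

theorem Rf_uI {u : W n} (hu : hip u u = 1) (p : W n) :
    Rf u (Complex.I • u) p = (2 * Complex.I) • (hip u p • u + p) := by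
  unfold Rf
  rw [hI, hI, hsmul, hu]
  module

theorem rI_sum (i : Fin (n * 2)) : (Complex.I • (Eb i : W n)) = ∑ k, (-(1 / 2 : ℝ) * Jm n k i) • Eb k := by
  have h := coord (I_zero (Eb_zero (n := n) i))
  rw [h]
  refine Finset.sum_congr rfl fun k _ => ?_
  rw [re_I]
  congr 1
  unfold Jm
  ring

theorem sum_JR : ∑ i, ∑ k, Jm n k i • (Rm i k : MR n) = (4 * ((n : ℝ) + 1)) • Jm n := by
  ext a b
  simp only [Matrix.sum_apply, Matrix.smul_apply, smul_eq_mul]
  have h1 : ∀ i, ∑ k, Jm n k i * Rm i k a b =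
      -2 * (hip (Eb a : W n) (Rf (Eb i) (Complex.I • Eb i) (Eb b))).re := by
    intro i
    have h2 := lin_sum _ (comp_lin (rf2 (Eb i) (Eb b)) (re2 (Eb a : W n)))
      (fun k => -(1 / 2 : ℝ) * Jm n k i) Eb
    rw [← rI_sum i] at h2
    have h3 : (hip (Eb a : W n) (Rf (Eb i) (Complex.I • Eb i) (Eb b))).re =
      ∑ k, (-(1 / 2 : ℝ) * Jm n k i) • (hip (Eb a) (Rf (Eb i) (Eb k) (Eb b))).re := h2
    rw [h3, Finset.mul_sum]
    refine Finset.sum_congr rfl fun k _ => ?_
    rw [smul_eq_mul]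
    unfold Rm
    ring
  simp only [h1]
  have h4 : ∀ i, (hip (Eb a : W n) (Rf (Eb i) (Complex.I • Eb i) (Eb b))).re =
      (hip (Eb a : W n) ((2 * Complex.I) • (hip (Eb i) (Eb b) • (Eb i : W n)))).re +
        (hip (Eb a : W n) ((2 * Complex.I) • (Eb b : W n))).re := by
    intro i
    rw [Rf_uI (hip_Eb_self i), smul_add, hadd, Complex.add_re]
  simp only [h4]
  rw [← Finset.mul_sum, Finset.sum_add_distrib]
  have h5 : ∑ i, (hip (Eb a : W n) ((2 * Complex.I) • (hip (Eb i) (Eb b) • (Eb i : W n)))).re =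
      (hip (Eb a : W n) ((2 * Complex.I) • ((2 : ℂ) • (Eb b : W n)))).re := by
    rw [← sum_proj (Eb_zero (n := n) b), Finset.smul_sum]
    have h6 := lin_sum _ (re2 (Eb a : W n)) (fun _ : Fin (n * 2) => (1 : ℝ))
      (fun i => (2 * Complex.I) • (hip (Eb i) (Eb b) • (Eb i : W n)))
    simp only [one_smul] at h6
    exact h6.symm
  rw [h5, Finset.sum_const, Finset.card_univ, Fintype.card_fin, nsmul_eq_mul]
  have h7 : (hip (Eb a : W n) ((2 * Complex.I) • (Eb b : W n))).re = -Jm n a b := by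
    rw [hsmul]
    unfold Jm
    simp
  have h8 : (hip (Eb a : W n) ((2 * Complex.I) • ((2 : ℂ) • (Eb b : W n)))).re = -(2 * Jm n a b) := by
    rw [hsmul, hsmul]
    unfold Jm
    simp
  rw [h7, h8]
  push_cast
  ring

end ComAAux

open ComAAux

theorem Rm_skew (i j : Fin (n * 2)) : (Rm i j : MR n).transpose = -Rm i j := by
  ext k l
  rw [Matrix.transpose_apply, Matrix.neg_apply]
  unfold Rm Rf
  simp only [IrrUAux.hadd, IrrUAux.hsub, IrrUAux.hsmul]
  rw [IrrUAux.hstar (Eb k) (Eb i), IrrUAux.hstar (Eb k) (Eb j), IrrUAux.hstar (Eb l) (Eb i),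
    IrrUAux.hstar (Eb l) (Eb j), IrrUAux.hstar (Eb k) (Eb l), IrrUAux.hstar (Eb i) (Eb j)]
  generalize hip (Eb k : W n) (Eb i) = a
  generalize hip (Eb k : W n) (Eb j) = b
  generalize hip (Eb l : W n) (Eb i) = c
  generalize hip (Eb l : W n) (Eb j) = d
  generalize hip (Eb k : W n) (Eb l) = e
  generalize hip (Eb i : W n) (Eb j) = f
  simp only [Complex.add_re, Complex.sub_re, Complex.mul_re, Complex.star_def, Complex.conj_re,
    Complex.conj_im, Complex.sub_im]
  ring

theorem J_com (i j : Fin (n * 2)) : Jm n * Rm i j = Rm i j * Jm n := by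
  apply ext_op
  intro b
  have hb := Eb_zero (n := n) b
  have hR := Rf_zero' (Eb_zero (n := n) i) (Eb_zero j) hb
  rw [op_mul, op_mul, op_Rm i j hb, op_J hR, op_J hb, op_Rm i j (by rw [Pi.smul_apply, hb, smul_zero]),
    Rf_smul]

theorem fr2_J (hn : 1 ≤ n) : 0 < fr2 (Jm n) := by
  rcases (fr2_nonneg (Jm n)).eq_or_lt with h | h
  · exfalso
    let k : Fin (n * 2) := ⟨0, by omega⟩
    have h1 : ∀ a b, Jm n a b = 0 := by
      intro a b
      have := sq_le_fr2 (Jm n) a b
      rw [← h] at this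
      nlinarith
    have h2 := rI_sum (n := n) k
    simp only [h1, mul_zero, zero_smul, Finset.sum_const_zero] at h2
    have h3 : (Eb k : W n) = 0 := by
      rcases smul_eq_zero.1 h2 with h4 | h4
      · exact absurd h4 Complex.I_ne_zero
      · exact h4
    have h4 := hip_Eb_self (n := n) k
    rw [h3] at h4
    simp [hip] at h4
  · exact h

namespace ComAAux

open IrrUAux (hadd hsub hsmul hrsmul haddl hrsmull hstar lin_sum rf1 rf2 rf3 re1 re2 comp_lin)

theorem com_J {M : MR n} (hc : ∀ i j, M * Rm i j = Rm i j * M) : M * Jm n = Jm n * M := by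
  have h1 : M * ((4 * ((n : ℝ) + 1)) • Jm n) = ((4 * ((n : ℝ) + 1)) • Jm n) * M := by
    rw [← sum_JR, Finset.mul_sum, Finset.sum_mul]
    refine Finset.sum_congr rfl fun i _ => ?_
    rw [Finset.mul_sum, Finset.sum_mul]
    refine Finset.sum_congr rfl fun k _ => ?_
    rw [Matrix.mul_smul, Matrix.smul_mul, hc]
  rw [Matrix.mul_smul, Matrix.smul_mul] at h1
  have h2 : (4 * ((n : ℝ) + 1)) ≠ 0 := by positivity
  exact smul_right_injective _ h2 h1

theorem op_I {M : MR n} (hc : ∀ i j, M * Rm i j = Rm i j * M) {q : W n} (hq : q 0 = 0) :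
    op M (Complex.I • q) = Complex.I • op M q := by
  have h1 : op M (op (Jm n) q) = op (Jm n) (op M q) := by
    rw [← op_mul, com_J hc, op_mul]
  rw [op_J hq, op_J (op_zero' M q)] at h1
  have e1 : ∀ p : W n, (-2 * Complex.I) • p = (-2 : ℝ) • (Complex.I • p) := by
    intro p
    ext k
    simp only [Pi.smul_apply, smul_eq_mul, Complex.real_smul]
    push_cast
    ring
  rw [e1, e1, (op_lin M).map_smul] at h1
  have h2 : (-2 : ℝ) ≠ 0 := by norm_num
  exact smul_right_injective _ h2 h1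

theorem op_c {M : MR n} (hc : ∀ i j, M * Rm i j = Rm i j * M) {q : W n} (hq : q 0 = 0) (c : ℂ) :
    op M (c • q) = c • op M q := by
  have e1 : ∀ p : W n, c • p = c.re • p + c.im • (Complex.I • p) := by
    intro p
    ext k
    simp only [Pi.smul_apply, Pi.add_apply, smul_eq_mul, Complex.real_smul]
    nth_rewrite 1 [← Complex.re_add_im c]
    ring
  rw [e1 q, e1 (op M q), (op_lin M).map_add, (op_lin M).map_smul, (op_lin M).map_smul, op_I hc hq]

theorem op_Rf {M : MR n} (hc : ∀ i j, M * Rm i j = Rm i j * M) {q : W n} (hq : q 0 = 0)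
    (i j : Fin (n * 2)) : op M (Rf (Eb i) (Eb j) q) = Rf (Eb i) (Eb j) (op M q) := by
  rw [← op_Rm i j hq, ← op_Rm i j (op_zero' M q), ← op_mul, ← op_mul, hc]

theorem op_RI {M : MR n} (hc : ∀ i j, M * Rm i j = Rm i j * M) {q : W n} (hq : q 0 = 0)
    (i : Fin (n * 2)) : op M (Rf (Eb i) (Complex.I • Eb i) q) = Rf (Eb i) (Complex.I • Eb i) (op M q) := by
  rw [rI_sum i, lin_sum _ (rf2 (Eb i) q) _ Eb, lin_sum _ (rf2 (Eb i) (op M q)) _ Eb,
    lin_sum _ (op_lin M)]
  refine Finset.sum_congr rfl fun k _ => ?_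
  rw [op_Rf hc hq]

theorem op_eig {M : MR n} (hc : ∀ i j, M * Rm i j = Rm i j * M) (i : Fin (n * 2)) :
    op M (Eb i) = hip (Eb i) (op M (Eb i)) • Eb i := by
  have hu := Eb_zero (n := n) i
  have h1 := op_RI hc hu i
  rw [Rf_uI (hip_Eb_self i), Rf_uI (hip_Eb_self i), hip_Eb_self, one_smul] at h1
  have e1 : (2 * Complex.I) • ((Eb i : W n) + Eb i) = (2 * Complex.I * 2) • (Eb i : W n) := by
    rw [← two_smul ℂ (Eb i : W n), smul_smul]
  rw [e1, op_c hc hu, mul_smul, two_smul] at h1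
  have h2 : (2 * Complex.I) ≠ 0 := by simp
  have h3 : op M (Eb i) + op M (Eb i) = hip (Eb i) (op M (Eb i)) • (Eb i : W n) + op M (Eb i) :=
    smul_right_injective (W n) h2 h1
  exact add_right_cancel h3

theorem op_all {M : MR n} (hc : ∀ i j, M * Rm i j = Rm i j * M) (i j : Fin (n * 2)) :
    op M (Eb j) = hip (Eb i) (op M (Eb i)) • Eb j := by
  have hu := Eb_zero (n := n) i
  have hv := Eb_zero (n := n) j
  obtain ⟨l, hl⟩ : ∃ l, l = hip (Eb i : W n) (op M (Eb i)) := ⟨_, rfl⟩
  obtain ⟨κ, hκ⟩ : ∃ κ, κ = hip (Eb i : W n) (Eb j) - 2 * hip (Eb j : W n) (Eb i) := ⟨_, rfl⟩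
  have e1 : Rf (Eb i) (Eb j) (Eb i) = (Eb j : W n) + κ • Eb i := by
    unfold Rf
    rw [hip_Eb_self, hκ]
    module
  have h1 := op_Rf hc hu i j
  have h2 := op_eig hc i
  rw [← hl] at h2
  rw [h2, Rf_smul, e1, (op_lin M).map_add, op_c hc hu, h2] at h1
  rw [← hl]
  have h3 : l • ((Eb j : W n) + κ • (Eb i : W n)) = l • (Eb j : W n) + κ • l • (Eb i : W n) := by
    rw [smul_add, smul_comm]
  rw [h3] at h1
  exact add_right_cancel h1

end ComAAux

theorem com_ker (hn : 1 ≤ n) {M : MR n} (hs : M.transpose = -M) (hc : ∀ i j, M * Rm i j = Rm i j * M) :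
    ∃ c : ℝ, M = c • Jm n := by
  let k : Fin (n * 2) := ⟨0, by omega⟩
  obtain ⟨l, hl⟩ : ∃ l, l = hip (Eb k : W n) (op M (Eb k)) := ⟨_, rfl⟩
  have h1 : ∀ a b, M a b = l.re * (hip (Eb a : W n) (Eb b)).re - l.im * (hip (Eb a : W n) (Eb b)).im := by
    intro a b
    rw [← re_op_Eb M a b, op_all hc k b, ← hl, IrrUAux.hsmul, Complex.mul_re]
  have h2 : M k k = 0 := by
    have := congrFun (congrFun hs k) k
    rw [Matrix.transpose_apply, Matrix.neg_apply] at this
    linarith
  have h3 : l.re = 0 := by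
    have := h1 k k
    rw [hip_Eb_self, h2] at this
    simpa using this.symm
  refine ⟨-l.im / 2, ?_⟩
  ext a b
  rw [h1, h3, Matrix.smul_apply, smul_eq_mul]
  unfold Jm
  ring

namespace ComAAux

/-- the quadratic form -/
noncomputable def qf (M : MR n) : ℝ :=
  (∑ i, ∑ j, fr2 (M * Rm i j - Rm i j * M)) + fr2 (M.transpose + M) + inn M (Jm n) ^ 2

theorem inn_add_left (M N N' : MR n) : inn (N + N') M = inn N M + inn N' M := by
  unfold inn
  rw [← Finset.sum_add_distrib]
  refine Finset.sum_congr rfl fun k _ => ?_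
  rw [← Finset.sum_add_distrib]
  refine Finset.sum_congr rfl fun l _ => ?_
  rw [Matrix.add_apply]
  ring

theorem inn_smul_left (r : ℝ) (M N : MR n) : inn (r • N) M = r * inn N M := by
  unfold inn
  rw [Finset.mul_sum]
  refine Finset.sum_congr rfl fun k _ => ?_
  rw [Finset.mul_sum]
  refine Finset.sum_congr rfl fun l _ => ?_
  rw [Matrix.smul_apply, smul_eq_mul]
  ring

theorem qf_smul (r : ℝ) (M : MR n) : qf (r • M) = r ^ 2 * qf M := by
  unfold qf
  have h1 : ∀ i j, fr2 (r • M * Rm i j - Rm i j * (r • M)) = r ^ 2 * fr2 (M * Rm i j - Rm i j * M) := by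
    intro i j
    rw [← fr2_smul]
    congr 1
    rw [Matrix.smul_mul, Matrix.mul_smul, smul_sub]
  simp only [h1]
  have h2 : (r • M).transpose + r • M = r • (M.transpose + M) := by
    rw [Matrix.transpose_smul, smul_add]
  rw [h2, fr2_smul, inn_smul_left]
  simp only [← Finset.mul_sum]
  ring

theorem fr2_eq_zero {M : MR n} (h : fr2 M = 0) : M = 0 := by
  ext a b
  have := sq_le_fr2 M a b
  rw [h] at this
  rw [Matrix.zero_apply]
  nlinarith

theorem qf_pos (hn : 1 ≤ n) {M : MR n} (hM : M ≠ 0) : 0 < qf M := by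
  have h1 : 0 ≤ ∑ i, ∑ j, fr2 (M * Rm i j - Rm i j * M) :=
    Finset.sum_nonneg fun i _ => Finset.sum_nonneg fun j _ => fr2_nonneg _
  have h2 := fr2_nonneg (M.transpose + M)
  have h3 := sq_nonneg (inn M (Jm n))
  have h0 : 0 ≤ qf M := by
    unfold qf
    linarith
  rcases h0.eq_or_lt with h | h
  · exfalso
    unfold qf at h
    have e1 : ∑ i, ∑ j, fr2 (M * Rm i j - Rm i j * M) = 0 := by linarith
    have e2 : fr2 (M.transpose + M) = 0 := by linarith
    have e3 : inn M (Jm n) ^ 2 = 0 := by linarith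
    have hs : M.transpose = -M := eq_neg_of_add_eq_zero_left (fr2_eq_zero e2)
    have hc : ∀ i j, M * Rm i j = Rm i j * M := by
      intro i j
      have h4 := (Finset.sum_eq_zero_iff_of_nonneg
        (fun i _ => Finset.sum_nonneg fun j _ => fr2_nonneg _)).1 e1 i (Finset.mem_univ i)
      have h5 := (Finset.sum_eq_zero_iff_of_nonneg (fun j _ => fr2_nonneg _)).1 h4 j
        (Finset.mem_univ j)
      exact sub_eq_zero.1 (fr2_eq_zero h5)
    obtain ⟨c, rfl⟩ := com_ker hn hs hc
    rw [inn_smul_left, inn_self] at e3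
    have h6 := fr2_J hn
    have h7 : c * fr2 (Jm n) = 0 := by
      exact pow_eq_zero_iff (two_ne_zero) |>.1 e3
    rcases mul_eq_zero.1 h7 with h8 | h8
    · exact hM (by rw [h8, zero_smul])
    · linarith
  · exact h

theorem cont_fr2 : Continuous (fr2 : (Fin (n * 2) → Fin (n * 2) → ℝ) → ℝ) := by
  unfold fr2
  fun_prop

/-- the space of matrices as a normed space -/
abbrev FF (n : ℕ) : Type := Fin (n * 2) → Fin (n * 2) → ℝ

/-- the identity -/
def toM (M : FF n) : MR n := M

theorem cont_qf : Continuous (qf : (Fin (n * 2) → Fin (n * 2) → ℝ) → ℝ) := by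
  have h1 : ∀ i j, Continuous fun M : FF n => fr2 (toM M * Rm i j - Rm i j * toM M) := by
    intro i j
    refine cont_fr2.comp ?_
    refine continuous_pi fun a => continuous_pi fun b => ?_
    have e : ∀ M : FF n, (toM M * Rm i j - Rm i j * toM M) a b =
        ∑ k, M a k * Rm i j k b - ∑ k, Rm i j a k * M k b := by
      intro M
      rw [Matrix.sub_apply, Matrix.mul_apply, Matrix.mul_apply]
      rfl
    simp only [e]
    fun_prop
  have h2 : Continuous fun M : FF n => fr2 ((toM M).transpose + toM M) := by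
    refine cont_fr2.comp ?_
    refine continuous_pi fun a => continuous_pi fun b => ?_
    have e : ∀ M : FF n, ((toM M).transpose + toM M) a b = M b a + M a b := fun M => rfl
    simp only [e]
    fun_prop
  have h3 : Continuous fun M : FF n => inn (toM M) (Jm n) := by
    have e : ∀ M : FF n, inn (toM M) (Jm n) = ∑ k, ∑ l, M k l * Jm n k l := fun M => rfl
    simp only [e]
    fun_prop
  exact ((continuous_finsetSum _ fun i _ => continuous_finsetSum _ fun j _ => h1 i j).add h2).add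
    (h3.pow 2)

theorem qf_lower (hn : 1 ≤ n) : ∃ m : ℝ, 0 < m ∧ ∀ M : MR n, m * fr2 M ≤ qf M := by
  have hK : IsCompact {M : Fin (n * 2) → Fin (n * 2) → ℝ | fr2 M = 1} := by
    refine Metric.isCompact_of_isClosed_isBounded (isClosed_eq cont_fr2 continuous_const) ?_
    refine (Metric.isBounded_closedBall (x := (0 : Fin (n * 2) → Fin (n * 2) → ℝ)) (r := 1)).subset ?_
    intro M hM
    have hM' : fr2 M = 1 := hM
    rw [mem_closedBall_zero_iff, pi_norm_le_iff_of_nonneg zero_le_one]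
    intro a
    rw [pi_norm_le_iff_of_nonneg zero_le_one]
    intro b
    have h1 := abs_le_fr2 M a b
    rw [hM', Real.sqrt_one] at h1
    exact h1
  have hJ := fr2_J hn
  have hne : {M : Fin (n * 2) → Fin (n * 2) → ℝ | fr2 M = 1}.Nonempty := by
    refine ⟨(Real.sqrt (fr2 (Jm n)))⁻¹ • Jm n, ?_⟩
    show fr2 ((Real.sqrt (fr2 (Jm n)))⁻¹ • Jm n) = 1
    rw [fr2_smul, inv_pow, Real.sq_sqrt hJ.le, inv_mul_cancel₀ hJ.ne']
  obtain ⟨M₀, hM₀, hmin⟩ := hK.exists_isMinOn hne cont_qf.continuousOn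
  have hM₀0 : M₀ ≠ 0 := by
    intro h
    have h1 : fr2 M₀ = 1 := hM₀
    rw [h] at h1
    simp [fr2] at h1
  refine ⟨qf M₀, qf_pos hn hM₀0, fun M => ?_⟩
  rcases (fr2_nonneg M).eq_or_lt with h | h
  · rw [← h, mul_zero, fr2_eq_zero h.symm]
    have : qf (0 : MR n) = 0 := by
      have := qf_smul (0 : ℝ) (0 : MR n)
      simpa using this
    rw [this]
  · have h1 : fr2 ((Real.sqrt (fr2 M))⁻¹ • M) = 1 := by
      rw [fr2_smul, inv_pow, Real.sq_sqrt h.le, inv_mul_cancel₀ h.ne']
    have h2 : qf M₀ ≤ qf ((Real.sqrt (fr2 M))⁻¹ • M) := hmin h1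
    rw [qf_smul, inv_pow, Real.sq_sqrt h.le] at h2
    calc qf M₀ * fr2 M ≤ ((fr2 M)⁻¹ * qf M) * fr2 M := mul_le_mul_of_nonneg_right h2 h.le
      _ = qf M := by field_simp

end ComAAux

theorem com_est (n : ℕ) (hn : 1 ≤ n) : ∃ C : ℝ, 0 < C ∧ ∀ M : MR n, M.transpose = -M →
    fr2 (M - (inn M (Jm n) / fr2 (Jm n)) • Jm n) ≤ C * ∑ i, ∑ j, fr2 (M * Rm i j - Rm i j * M) := by
  obtain ⟨m, hm, hq⟩ := qf_lower (n := n) hn
  refine ⟨m⁻¹, by positivity, fun M hs => ?_⟩
  have hJ := fr2_J hn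
  obtain ⟨c, hc⟩ : ∃ c, c = inn M (Jm n) / fr2 (Jm n) := ⟨_, rfl⟩
  rw [← hc]
  have hJs : (Jm n).transpose = -Jm n := by
    ext a b
    rw [Matrix.transpose_apply, Matrix.neg_apply]
    unfold Jm
    rw [IrrUAux.hstar (Eb a) (Eb b)]
    simp [Complex.star_def]
  have h1 := hq (M - c • Jm n)
  have h2 : qf (M - c • Jm n) = ∑ i, ∑ j, fr2 (M * Rm i j - Rm i j * M) := by
    unfold qf
    have e1 : ∀ i j, (M - c • Jm n) * Rm i j - Rm i j * (M - c • Jm n) = M * Rm i j - Rm i j * M := by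
      intro i j
      rw [Matrix.sub_mul, Matrix.mul_sub, Matrix.smul_mul, Matrix.mul_smul, J_com]
      abel
    have e2 : (M - c • Jm n).transpose + (M - c • Jm n) = 0 := by
      rw [Matrix.transpose_sub, Matrix.transpose_smul, hs, hJs, smul_neg]
      abel
    have e3 : inn (M - c • Jm n) (Jm n) = 0 := by
      have : M - c • Jm n = M + (-c) • Jm n := by rw [neg_smul, sub_eq_add_neg]
      rw [this, inn_add_left, inn_smul_left, inn_self, hc]
      field_simp
      ring
    simp only [e1, e2, e3]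
    have e4 : fr2 (0 : MR n) = 0 := by simp [fr2]
    rw [e4]
    ring
  rw [h2] at h1
  rw [inv_mul_eq_div, le_div_iff₀ hm, mul_comm]
  exact h1

theorem near_J (n : ℕ) (hn : 1 ≤ n) : ∃ C : ℝ, 0 < C ∧ ∀ α : FW n, Symp α → ∀ g ∈ Un n,
    fr2 (Wm α g - (inn (Wm α g) (Jm n) / fr2 (Jm n)) • Jm n) ≤
      C * (fr2 (Wm α g) * ∑ i, ∑ j, fr2 (Nm α i j g)) := by
  obtain ⟨C, hC, h⟩ := com_est n hn
  refine ⟨C, hC, fun α hα g hg => ?_⟩
  have hs : (Wm α g).transpose = -Wm α g := by
    ext a b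
    rw [Matrix.transpose_apply, Matrix.neg_apply]
    exact dw_skew α _ _ _
  refine (h (Wm α g) hs).trans (mul_le_mul_of_nonneg_left ?_ hC.le)
  rw [Finset.mul_sum]
  refine Finset.sum_le_sum fun i _ => ?_
  rw [Finset.mul_sum]
  refine Finset.sum_le_sum fun j _ => ?_
  have hdet : IsUnit (Wm α g).det := (Matrix.isUnit_iff_isUnit_det _).1 (unit_Wm hα hg)
  have e1 : Wm α g * Rm i j - Rm i j * Wm α g = Wm α g * Nm α i j g := by
    unfold Nm Qm
    rw [Matrix.mul_add, ← Matrix.mul_assoc, ← Matrix.mul_assoc, Matrix.mul_nonsing_inv _ hdet,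
      Matrix.one_mul, Rm_skew, Matrix.neg_mul]
    abel
  rw [e1]
  exact fr2_mul _ _

end Pool.Agent.Lib.P28v
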