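import Pool.Agent.Lib.P28v.FsF
import Pool.Agent.Lib.P28t.JoinP

set_option autoImplicit false
set_option maxSynthPendingDepth 3

/-!
# The segment to the Fubini-Study form

PROOF. `C` from `fs_a0`, `θ = 1 / (2 C)`. For `t ∈ [0, 1]`: `Con.affine hβ.1 (con_a0 n) t`, and by `dw_affine` `dw (..) z = dw (a0 n) z + (1 - t) • (dw β z - dw (a0 n) z)`, so for `hip z p = 0`: `‖dw (..) z p‖ ≥ ‖dw (a0 n) z p‖ - ‖dw β z - dw (a0 n) z‖ ‖p‖ ≥ (1 / C - θ) ‖p‖ / ‖z‖² = ‖p‖ / (2 C ‖z‖²)`. `ndAt_of_lower`. `join_seg` (`P28t/JoinP.lean`).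
-/

open MeasureTheory Set Metric
open scoped ContDiff Topology ENNReal

namespace Pool.Agent.Lib.P28v

open Pool.Agent.P28b04d Pool.Agent.Lib.P28e Pool.Agent.Lib.P28c Pool.Agent.Lib.P28t Pool.Agent.Lib.P28u
open Pool.Agent.Lib.P28f (V EV)

variable {n : ℕ}

theorem line_f (n : ℕ) : ∃ θ : ℝ, 0 < θ ∧ ∀ β : FW n, Symp β →
    (∀ z : W n, z ≠ 0 → ‖z‖ ^ 2 * ‖dw β z - dw (a0 n) z‖ ≤ θ) → JoinF β (a0 n) := by
  obtain ⟨C, hC1, hC⟩ := fs_a0 n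
  have hC0 : 0 < C := by linarith
  refine ⟨1 / (2 * C), by positivity, fun β hβ hb => join_seg fun t ht => ?_⟩
  refine ⟨hβ.1.affine (con_a0 n) t, fun z hz => ?_⟩
  have hz0 : 0 < ‖z‖ ^ 2 := by
    have := norm_pos_iff.2 hz
    positivity
  refine ndAt_of_lower (hβ.1.affine (con_a0 n) t) hz (σ := (2 * C * ‖z‖ ^ 2)⁻¹) (by positivity)
    fun p hp => ?_
  rw [dw_affine hβ.1 (con_a0 n) t hz]
  have h1 := (hC z hz).2.1 p hp
  have h2 := hb z hz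
  have e : ((1 - t) • dw β z + t • dw (a0 n) z) p =
      dw (a0 n) z p + (1 - t) • ((dw β z - dw (a0 n) z) p) := by
    simp only [ContinuousLinearMap.add_apply, ContinuousLinearMap.smul_apply,
      ContinuousLinearMap.sub_apply, smul_sub, sub_smul, one_smul]
    abel
  set X : ℝ := ‖((1 - t) • dw β z + t • dw (a0 n) z) p‖ with hX
  have h3 : ‖dw (a0 n) z p‖ ≤ X + ‖dw β z - dw (a0 n) z‖ * ‖p‖ := by
    have h4 : dw (a0 n) z p = ((1 - t) • dw β z + t • dw (a0 n) z) p -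
        (1 - t) • ((dw β z - dw (a0 n) z) p) := by rw [e]; abel
    rw [h4]
    refine (norm_sub_le _ _).trans (add_le_add le_rfl ?_)
    rw [norm_smul, Real.norm_eq_abs, abs_of_nonneg (by linarith [ht.2])]
    have h5 := (dw β z - dw (a0 n) z).le_opNorm p
    have h6 : (1 - t) * ‖(dw β z - dw (a0 n) z) p‖ ≤ 1 * ‖(dw β z - dw (a0 n) z) p‖ :=
      mul_le_mul_of_nonneg_right (by linarith [ht.1]) (norm_nonneg _)
    linarith
  rw [inv_mul_le_iff₀ (by positivity)]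
  have hp0 := norm_nonneg p
  have h7 : ‖z‖ ^ 2 * (‖dw β z - dw (a0 n) z‖ * ‖p‖) ≤ 1 / (2 * C) * ‖p‖ := by
    rw [← mul_assoc]
    exact mul_le_mul_of_nonneg_right h2 hp0
  have h8 : ‖z‖ ^ 2 * ‖dw (a0 n) z p‖ ≤ ‖z‖ ^ 2 * X + 1 / (2 * C) * ‖p‖ := by
    have := mul_le_mul_of_nonneg_left h3 hz0.le
    rw [mul_add] at this
    linarith
  have h9 : C * (‖z‖ ^ 2 * ‖dw (a0 n) z p‖) ≤ C * (‖z‖ ^ 2 * X) + ‖p‖ / 2 := by
    have h10 := mul_le_mul_of_nonneg_left h8 hC0.le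
    have h11 : C * (‖z‖ ^ 2 * X + 1 / (2 * C) * ‖p‖) = C * (‖z‖ ^ 2 * X) + ‖p‖ / 2 := by
      field_simp
    linarith
  have h12 : 2 * C * ‖z‖ ^ 2 * X = 2 * (C * (‖z‖ ^ 2 * X)) := by ring
  rw [h12]
  linarith

end Pool.Agent.Lib.P28v
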