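import Pool.Agent.Lib.P28v.FsF
import Pool.Agent.Lib.P28u.IntD
import Pool.Agent.Lib.P28u.WmF
import Pool.Agent.Lib.P28u.HaarU
import Pool.Agent.Lib.P28u.FrUn
import Pool.Agent.Lib.P28u.PtU

set_option autoImplicit false
set_option maxSynthPendingDepth 3

/-!
# The mean of the matrix of a form of the class

PROOF. Let `b j g = α (g 0) (mx g (Eb j))`, smooth near `Un n` (`Con.smooth`, `col_ne`). `Dv i (b j) g = fderiv α (g 0) (mx g (Eb i)) (mx g (Eb j)) + α (g 0) (mx (rm g (Xm i)) (Eb j))`: the derivative of `g ↦ g 0` in the direction `rm g (Xm i)` is `mx g (Xm i 0) = mx g (Eb i)` (`Xm_zero`), `mx (rm g (Xm i)) (Eb j) = mx g (mx (Xm i) (Eb j)) = -(hip (Eb i) (Eb j)) • g 0` (`mx_rm`, `mx_Xm`, `Eb j 0 = 0`, `mx_smul`, `mx_e0`),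
`α z (b • z) = b.im` (`FormAux.val`). So `Dv i (b j) g - Dv j (b i) g = Wm α g i j - (hip (Eb i) (Eb j)).im + (hip (Eb j) (Eb i)).im = Wm α g i j - Jm n i j`. Integrate with `int_Dv` (twice), `ν` a probability measure: `mean_Wm`. (`Wm α` is continuous on `Un n`: `sm_Wm`; `integrable_un`, `ae_un`.)
`norm_l`: `ν` from `exists_haar`; `k, l2` indices with `Eb k = u`, `Eb l2 = i u` (`finProdFinEquiv (0, 0)`, `(0, 1)`), so `|Jm n k l2| = 2`. For `g ∈ Un n`, `z = g 0`: `|Wm β g k l2 - l Jm n k l2| = |(dw β z - l • dw (a0 n) z) (mx g (Eb k)) (mx g (Eb l2))| ≤ K² ‖..‖ ≤ K² (n+1) ‖z‖² ‖..‖ ≤ K² (n+1) θ |l|` (`Wm_a0`, `‖mx g (Eb k)‖ ≤ K` from `frm_un` (see `PtUAux.col_le`) or from `nsq_mx`, `hip_Eb_self`: `‖mx g (Eb k)‖² ≤ nsq = 1`; `(n+1) ‖z‖² ≥ nsq z = 1`). The integral of `Wm β g k l2 - l Jm n k l2` is `(1 - l) Jm n k l2`.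
-/

open MeasureTheory Set Metric
open scoped ContDiff Topology ENNReal

namespace Pool.Agent.Lib.P28v

open Pool.Agent.P28b04d Pool.Agent.Lib.P28e Pool.Agent.Lib.P28c Pool.Agent.Lib.P28t Pool.Agent.Lib.P28u
open Pool.Agent.Lib.P28f (V EV)

variable {n : ℕ}

namespace NormMAux

open WmFAux IntDAux

/-- the coefficient functions of the connection form in a unitary frame -/
noncomputable def bj (α : FW n) (j : Fin (n * 2)) (g : XX n) : ℝ := α (g 0) (mx g (Eb j))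

theorem bj_smooth {α : FW n} (hα : Con α) (j : Fin (n * 2)) {g : XX n} (hg : g 0 ≠ 0) :
    ContDiffAt ℝ 1 (bj α j) g := by
  have hd : ContDiffAt ℝ ∞ α (p0 n g) := hα.smooth (g 0) hg
  have h1 : ContDiffAt ℝ ∞ (fun g : XX n => α (p0 n g)) g :=
    hd.comp g (p0 n).contDiff.contDiffAt
  have h2 := h1.clm_apply (mp (Eb j)).contDiff.contDiffAt
  simp only [mp_apply, p0_apply] at h2
  exact h2.of_le (by exact_mod_cast le_top)

theorem Dv_bj {α : FW n} (hα : Con α) (i j : Fin (n * 2)) {g : XX n} (hg : g 0 ≠ 0) :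
    Dv i (bj α j) g = fderiv ℝ α (g 0) (mx g (Eb i)) (mx g (Eb j)) - (hip (Eb i) (Eb j)).im := by
  have h1 : HasFDerivAt (fun g : XX n => p0 n g) (p0 n) g := (p0 n).hasFDerivAt
  have hd : HasFDerivAt α (fderiv ℝ α (g 0)) (p0 n g) := (FormAux.dAt hα hg).hasFDerivAt
  have h2 : HasFDerivAt (fun g : XX n => α (p0 n g)) ((fderiv ℝ α (g 0)).comp (p0 n)) g :=
    hd.comp g h1
  have h3 : HasFDerivAt (fun g : XX n => mp (Eb j) g) (mp (Eb j)) g := (mp (Eb j)).hasFDerivAt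
  have h5 := h2.clm_apply h3
  simp only [mp_apply, p0_apply] at h5
  have h6 : fderiv ℝ (bj α j) g = _ := h5.fderiv
  have hk : mx (rm g (Xm i)) (Eb j) = (-hip (Eb i) (Eb j)) • g 0 := by
    rw [mx_rm, mx_Xm, WmFAux.Eb0, zero_smul, zero_sub, ← neg_smul, mx_smul, mx_e0]
  have h0 : rm g (Xm i) 0 = mx g (Eb i) := by
    show mx g (Xm i 0) = mx g (Eb i)
    rw [Xm_zero]
  unfold Dv
  rw [h6]
  simp only [ContinuousLinearMap.add_apply, ContinuousLinearMap.comp_apply,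
    ContinuousLinearMap.flip_apply, mp_apply, p0_apply]
  rw [hk, h0, FormAux.val hα hg, Complex.neg_im]
  ring

theorem Dv_sub {α : FW n} (hα : Con α) (i j : Fin (n * 2)) {g : XX n} (hg : g 0 ≠ 0) :
    Wm α g i j = Dv i (bj α j) g - Dv j (bj α i) g + Jm n i j := by
  rw [Dv_bj hα i j hg, Dv_bj hα j i hg]
  have h1 : (hip (Eb j) (Eb i)).im = -(hip (Eb i) (Eb j) : ℂ).im := by
    rw [hip_star (Eb j) (Eb i)]
    exact Complex.conj_im _
  have h2 : Wm α g i j = fderiv ℝ α (g 0) (mx g (Eb i)) (mx g (Eb j)) -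
      fderiv ℝ α (g 0) (mx g (Eb j)) (mx g (Eb i)) := by
    unfold Wm
    rw [FormAux.fderiv_flip_apply]
  rw [h2, h1]
  unfold Jm
  ring

theorem Jm_one {m : ℕ} : Jm (m + 1) (finProdFinEquiv (0, 0)) (finProdFinEquiv (0, 1)) = 2 := by
  unfold Jm
  have h : hip (Eb (n := m + 1) (finProdFinEquiv (0, 0))) (Eb (finProdFinEquiv (0, 1))) = Complex.I := by
    unfold Eb
    rw [EbFAux.hip_succ, EbFAux.Lv_zero, EbFAux.Lv_zero, mul_zero, zero_add, Finset.sum_eq_single 0]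
    · rw [EbFAux.Lv_succ, EbFAux.Lv_succ, kap_apply, kap_apply, Pi.single_eq_same, Pi.single_eq_same]
      have h1 : (finProdFinEquiv ((0 : Fin (m + 1)), (1 : Fin 2))) ≠ finProdFinEquiv ((0 : Fin (m + 1)), (0 : Fin 2)) := by
        intro h
        have := finProdFinEquiv.injective h
        simp at this
      rw [Pi.single_eq_of_ne h1, Pi.single_eq_of_ne h1.symm]
      apply Complex.ext <;> simp
    · intro k _ hk
      rw [EbFAux.Lv_succ, EbFAux.Lv_succ, kap_apply, kap_apply]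
      have h1 : ∀ b c : Fin 2, (finProdFinEquiv (k, b)) ≠ finProdFinEquiv ((0 : Fin (m + 1)), c) := by
        intro b c h
        have := finProdFinEquiv.injective h
        exact hk (congrArg Prod.fst this)
      rw [Pi.single_eq_of_ne (h1 0 0), Pi.single_eq_of_ne (h1 1 0), Pi.single_eq_of_ne (h1 0 1),
        Pi.single_eq_of_ne (h1 1 1)]
      apply Complex.ext <;> simp
    · intro h
      exact absurd (Finset.mem_univ _) h
  rw [h, Complex.I_im, mul_one]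

end NormMAux

open NormMAux

theorem mean_Wm {ν : Measure (XX n)} (hν : Haar ν) {α : FW n} (hα : Con α) (k l : Fin (n * 2)) :
    ∫ g, Wm α g k l ∂ν = Jm n k l := by
  have := hν.prob
  have hs : ∀ j : Fin (n * 2), ∀ g ∈ Un n, ContDiffAt ℝ 1 (bj α j) g := fun j g hg =>
    bj_smooth hα j (col_ne hg 0)
  have hi : ∀ i j : Fin (n * 2), Integrable (Dv i (bj α j)) ν := fun i j =>
    integrable_un hν (IntDAux.contOn_Dv i (hs j))
  have h1 : ∫ g, Wm α g k l ∂ν = ∫ g, (Dv k (bj α l) g - Dv l (bj α k) g + Jm n k l) ∂ν := by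
    apply integral_congr_ae
    filter_upwards [ae_un hν (p := fun g => g 0 ≠ 0) fun g hg => col_ne hg 0] with g hg
    exact Dv_sub hα k l hg
  have h2 : Integrable (fun g => Dv k (bj α l) g - Dv l (bj α k) g) ν := (hi k l).sub (hi l k)
  rw [h1, integral_add h2 (integrable_const _), integral_sub (hi k l) (hi l k), int_Dv hν k (hs l),
    int_Dv hν l (hs k), sub_self, zero_add, integral_const]
  simp

theorem norm_l (n : ℕ) (hn : 1 ≤ n) : ∃ C : ℝ, 1 ≤ C ∧ ∀ β : FW n, Con β → ∀ l θ : ℝ, 0 ≤ θ →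
    (∀ z : W n, z ≠ 0 → ‖z‖ ^ 2 * ‖dw β z - l • dw (a0 n) z‖ ≤ θ * |l|) → |1 - l| ≤ C * θ * |l| := by
  obtain ⟨m, rfl⟩ : ∃ m, n = m + 1 := ⟨n - 1, by omega⟩
  obtain ⟨K, hK, hfr⟩ := frm_un (m + 1)
  obtain ⟨ν, hν⟩ := exists_haar (m + 1)
  have := hν.prob
  refine ⟨1 + K ^ 2 * (((m + 1 : ℕ) : ℝ) + 1), by
    have : (0 : ℝ) ≤ K ^ 2 * (((m + 1 : ℕ) : ℝ) + 1) := by positivity
    linarith, fun β hβ l θ hθ hle => ?_⟩
  set k : Fin ((m + 1) * 2) := finProdFinEquiv (0, 0) with hk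
  set k2 : Fin ((m + 1) * 2) := finProdFinEquiv (0, 1) with hk2
  have hJ : Jm (m + 1) k k2 = 2 := Jm_one
  have hpt : ∀ g ∈ Un (m + 1), |Wm β g k k2 - l * Jm (m + 1) k k2| ≤
      K ^ 2 * (((m + 1 : ℕ) : ℝ) + 1) * (θ * |l|) := by
    intro g hg
    have hz := col_ne hg 0
    have h1 : Wm β g k k2 - l * Jm (m + 1) k k2 =
        (dw β (g 0) - l • dw (a0 (m + 1)) (g 0)) (mx g (Eb k)) (mx g (Eb k2)) := by
      rw [← Wm_a0 hg]
      simp only [Wm, ContinuousLinearMap.sub_apply, ContinuousLinearMap.smul_apply, smul_eq_mul]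
    have c1 := PtUAux.col_le (hfr g hg) k
    have c2 := PtUAux.col_le (hfr g hg) k2
    have h2 := (dw β (g 0) - l • dw (a0 (m + 1)) (g 0)).le_opNorm₂ (mx g (Eb k)) (mx g (Eb k2))
    have h3 := hle (g 0) hz
    have h4 : 1 ≤ (((m + 1 : ℕ) : ℝ) + 1) * ‖g 0‖ ^ 2 := by
      have h := nsq_le (g 0)
      rw [nsq_col hg] at h
      exact h
    set N : ℝ := ‖dw β (g 0) - l • dw (a0 (m + 1)) (g 0)‖ with hN
    have hN0 : 0 ≤ N := norm_nonneg _
    have h5 : N ≤ (((m + 1 : ℕ) : ℝ) + 1) * (θ * |l|) := by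
      calc N = 1 * N := (one_mul _).symm
        _ ≤ ((((m + 1 : ℕ) : ℝ) + 1) * ‖g 0‖ ^ 2) * N := mul_le_mul_of_nonneg_right h4 hN0
        _ = (((m + 1 : ℕ) : ℝ) + 1) * (‖g 0‖ ^ 2 * N) := by ring
        _ ≤ _ := mul_le_mul_of_nonneg_left h3 (by positivity)
    rw [h1, ← Real.norm_eq_abs]
    calc _ ≤ N * ‖mx g (Eb k)‖ * ‖mx g (Eb k2)‖ := h2
      _ ≤ N * K * K := by
        have a1 : N * ‖mx g (Eb k)‖ ≤ N * K := mul_le_mul_of_nonneg_left c1 hN0
        exact mul_le_mul a1 c2 (norm_nonneg _) (mul_nonneg hN0 hK.le)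
      _ = K ^ 2 * N := by ring
      _ ≤ K ^ 2 * ((((m + 1 : ℕ) : ℝ) + 1) * (θ * |l|)) := mul_le_mul_of_nonneg_left h5 (by positivity)
      _ = _ := by ring
  have hcW : ContinuousOn (fun g : XX (m + 1) => Wm β g k k2) (Un (m + 1)) := fun g hg =>
    ((sm_Wm hβ (col_ne hg 0)) k k2).continuousAt.continuousWithinAt
  have hiW := integrable_un hν hcW
  have h6 : ∫ g, (Wm β g k k2 - l * Jm (m + 1) k k2) ∂ν = (1 - l) * 2 := by
    rw [integral_sub hiW (integrable_const _), mean_Wm hν hβ, hJ, integral_const]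
    simp
    ring
  have h7 : ‖∫ g, (Wm β g k k2 - l * Jm (m + 1) k k2) ∂ν‖ ≤
      K ^ 2 * (((m + 1 : ℕ) : ℝ) + 1) * (θ * |l|) := by
    have h8 := norm_integral_le_of_norm_le_const (μ := ν) (f := fun g => Wm β g k k2 - l * Jm (m + 1) k k2)
      (C := K ^ 2 * (((m + 1 : ℕ) : ℝ) + 1) * (θ * |l|)) (ae_un hν hpt)
    simpa using h8
  rw [h6, Real.norm_eq_abs, abs_mul, abs_two] at h7
  have h9 : 0 ≤ θ * |l| := mul_nonneg hθ (abs_nonneg l)
  have h10 := abs_nonneg (1 - l)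
  have h11 : (1 + K ^ 2 * (((m + 1 : ℕ) : ℝ) + 1)) * θ * |l| =
      θ * |l| + K ^ 2 * (((m + 1 : ℕ) : ℝ) + 1) * (θ * |l|) := by ring
  rw [h11]
  linarith

end Pool.Agent.Lib.P28v
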