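import Pool.Agent.Lib.P28v.Defs
import Pool.Agent.Lib.P28u.KapInt
import Pool.Agent.Lib.P28c.Vol
import Pool.Agent.Lib.P28u.FinU

set_option autoImplicit false
set_option maxSynthPendingDepth 3

/-!
# The density is uniformly integrable

PROOF. `moser4`: copy `moser` (`P28u/Moser.lean`) with `P = 2 n h + 1` instead of `n h + 1`, and at the end apply `lay_c n (2 h) D (2 t₀) P` (hypothesis `n (2 h) < P`) to the function `κ2 z = κ z ^ 2` instead of `κ`: `lv κ2 (2 t) = lv κ t` (`exp (2 t) ≤ (κ z ^ 2) ^ 2 ↔ exp t ≤ κ z ^ 2`), so `lv κ2 (2 t₀ + j (2 h)) = lv κ (t₀ + j h)`; `ofReal (κ z ^ 2) ^ (2 n) = ofReal (κ z) ^ (4 n)`.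
`kap4`: as `kap_int` with `moser4`. `u_int`: `h z = C (aO α z + kO α z)`, `A = ball 0 1 ∩ PB (pt z) s`. `enH h (PB (pt z) s) = ∫⁻ x in A, ofReal (h x) ^ (2 n)` (as `hen` in `P28t/SliceH.lean`: `withDensity_apply`, `measurableSet_PB`, `Measure.restrict_restrict`) `≤ ofReal ((2 C) ^ (2 n)) (∫⁻ x in ball 0 1, ofReal (aO α x) ^ (2 n) + ∫⁻ x in A, ofReal (kO α x) ^ (2 n))` (`FinUAux.sum_pow_le`, `FinUAux.int_le` for the pattern; the `aO` part over the whole ball is at most `ofReal E`).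
Cauchy-Schwarz (`ENNReal.lintegral_mul_le_Lp_mul_Lq` with `2, 2`): `∫⁻ x in A, ofReal (kO) ^ (2 n) ≤ (∫⁻ x in ball 0 1, ofReal (kO) ^ (4 n)) ^ (1/2) * (volume A) ^ (1/2) ≤ (ofReal C₄) ^ (1/2) * (volume A) ^ (1/2)`, `C₄` from `kap4` for the energy bound `1` (`E ≤ 1`). `vol_small n hn` (`P28c/Vol.lean`; `pt z ∈ CP n` for `z ≠ 0`) gives `s` with `volume A` as small as we like for all `z ≠ 0`; take `min s 1`. (Alternative to Cauchy-Schwarz: for `L > 0`, `x ^ (2 n) ≤ L + L⁻¹ x ^ (4 n)`, integrate.)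
-/

open MeasureTheory Set Metric
open scoped ContDiff Topology ENNReal

namespace Pool.Agent.Lib.P28v

open Pool.Agent.P28b04d Pool.Agent.Lib.P28e Pool.Agent.Lib.P28c Pool.Agent.Lib.P28t Pool.Agent.Lib.P28u
open Pool.Agent.Lib.P28f (V EV)

variable {n : ℕ}

namespace UIntAux

theorem lv_sq (κ : W n → ℝ) (t : ℝ) : lv (fun z => κ z ^ 2) (2 * t) = lv κ t := by
  unfold lv
  congr 2
  ext z
  simp only [Set.mem_setOf_eq]
  have e : Real.exp (2 * t) = Real.exp t ^ 2 := by
    rw [← Real.exp_nat_mul]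
    norm_num
  rw [e]
  exact pow_le_pow_iff_left₀ (Real.exp_pos _).le (by positivity) two_ne_zero

theorem young {y L : ℝ} (hL : 0 < L) : y ≤ L + L⁻¹ * y ^ 2 := by
  have h1 : L * (L + L⁻¹ * y ^ 2) = L ^ 2 + y ^ 2 := by
    field_simp
  have h2 : L * y ≤ L * (L + L⁻¹ * y ^ 2) := by
    rw [h1]
    nlinarith [sq_nonneg (y - L), sq_nonneg (y + L), sq_nonneg (y - L / 2)]
  exact le_of_mul_le_mul_left h2 hL

end UIntAux

theorem moser4 (n : ℕ) (hn : 1 ≤ n) (K : ℝ) (hK : 1 ≤ K) (E : ℝ) : ∃ C : ℝ,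
    ∀ (a κ : W n → ℝ) (F : Fin (n + 1) → V (n * 2) → ℝ), Mos K a κ F →
    ∫⁻ z in ball (0 : W n) 1, ENNReal.ofReal (a z) ^ (2 * n) ≤ ENNReal.ofReal E →
    ∫⁻ z in ball (0 : W n) 1, ENNReal.ofReal (κ z) ^ 2 ≤ ENNReal.ofReal E →
    ∫⁻ z in ball (0 : W n) 1, ENNReal.ofReal (κ z) ^ (4 * n) ≤ ENNReal.ofReal C := by
  obtain ⟨C₁, hC₁, hlev⟩ := lev_g n hn K hK
  have hlogK : 0 ≤ Real.log K := Real.log_nonneg hK
  set h : ℝ := 2 + 2 * Real.log K with hdef
  have hh : 0 < h := by rw [hdef]; linarith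
  have hq : 0 < qe n := by
    have : (1 : ℝ) ≤ n := by exact_mod_cast hn
    unfold qe
    apply one_div_pos.2
    linarith
  obtain ⟨ε, D, hε, hI⟩ := lev_i (qe n) hq C₁ hC₁ E (n * (2 * h) + 1) (by positivity)
  have hE' : 0 < max E 1 := lt_max_of_lt_right one_pos
  obtain ⟨C, hC⟩ := lay_c n (2 * h) D (2 * Real.log (max E 1 / ε)) (n * (2 * h) + 1)
    (by linarith) (by linarith)
  refine ⟨C, fun a κ F hM hE hκE => ?_⟩
  have hκm : Measurable κ := measurable_of_continuousOn_compl_singleton 0 hM.ck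
  have e4 : ∀ z : W n, ENNReal.ofReal (κ z) ^ (4 * n) = ENNReal.ofReal (κ z ^ 2) ^ (2 * n) := by
    intro z
    rw [ENNReal.ofReal_pow (hM.nk z), ← pow_mul]
    congr 1
    ring
  simp only [e4]
  apply hC (fun z => κ z ^ 2) (hκm.pow_const 2) (fun z => by positivity)
  have e5 : ∀ j : ℕ, lv (fun z => κ z ^ 2) (2 * Real.log (max E 1 / ε) + j * (2 * h)) =
      lv κ (Real.log (max E 1 / ε) + j * h) := by
    intro j
    rw [← UIntAux.lv_sq κ (Real.log (max E 1 / ε) + j * h)]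
    congr 1
    ring
  simp only [e5]
  refine hI (fun j => lv κ (Real.log (max E 1 / ε) + j * h))
    (fun j => ge a κ (Real.log (max E 1 / ε) + j * h) h) ?_ ?_ ?_ ?_
  · intro i j hij
    apply MoserAux.lv_anti
    have : (i : ℝ) ≤ j := by exact_mod_cast hij
    have := mul_le_mul_of_nonneg_right this hh.le
    linarith
  · exact (MoserAux.sum_ge a κ hκm _ h hh).trans hE
  · intro j
    have h1 := hlev a κ F hM (Real.log (max E 1 / ε) + j * h)
    have e : Real.log (max E 1 / ε) + ((j + 1 : ℕ) : ℝ) * h =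
        Real.log (max E 1 / ε) + j * h + h := by push_cast; ring
    simp only [e]
    exact h1
  · have h1 := MoserAux.cheb κ hκm hM.nk (Real.log (max E 1 / ε))
    rw [Real.exp_log (by positivity)] at h1
    have h2 : ENNReal.ofReal (max E 1 / ε) * lv κ (Real.log (max E 1 / ε)) ≤
        ENNReal.ofReal (max E 1 / ε) * ENNReal.ofReal ε := by
      rw [← ENNReal.ofReal_mul (by positivity), div_mul_cancel₀ _ hε.ne']
      exact h1.trans (hκE.trans (ENNReal.ofReal_le_ofReal (le_max_left _ _)))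
    have h3 : ENNReal.ofReal (max E 1 / ε) ≠ 0 := by
      rw [Ne, ENNReal.ofReal_eq_zero, not_le]; positivity
    simp only [Nat.cast_zero, zero_mul, add_zero]
    exact (ENNReal.mul_le_mul_iff_right h3 ENNReal.ofReal_ne_top).1 h2

theorem kap4 (n : ℕ) (hn : 2 ≤ n) (E : ℝ) : ∃ C : ℝ, ∀ α : FW n, Symp α →
    ∫⁻ z in ball (0 : W n) 1, ENNReal.ofReal (aO α z) ^ (2 * n) ≤ ENNReal.ofReal E →
    ∫⁻ z in ball (0 : W n) 1, ENNReal.ofReal (kO α z) ^ (4 * n) ≤ ENNReal.ofReal C := by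
  obtain ⟨K, hK, hch⟩ := ch_u n (by omega)
  obtain ⟨C₁, h1⟩ := tail_u n hn E
  obtain ⟨C₂, h2⟩ := moser4 n (by omega) K hK (max E C₁)
  exact ⟨C₂, fun α hα hE => h2 _ _ _ (hch α hα)
    (hE.trans (ENNReal.ofReal_le_ofReal (le_max_left _ _)))
    ((h1 α hα hE).trans (ENNReal.ofReal_le_ofReal (le_max_right _ _)))⟩

theorem u_int (n : ℕ) (hn : 2 ≤ n) (C : ℝ) (hC : 1 ≤ C) {c : ℝ} (hc : 0 < c) :
    ∃ s E : ℝ, 0 < s ∧ s ≤ 1 ∧ 0 < E ∧ ∀ α : FW n, Symp α →
      ∫⁻ z in ball (0 : W n) 1, ENNReal.ofReal (aO α z) ^ (2 * n) ≤ ENNReal.ofReal E →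
      ∀ z : W n, z ≠ 0 → enH (fun z => C * (aO α z + kO α z)) (PB (pt z) s) ≤ ENNReal.ofReal c := by
  obtain ⟨C₄, h4⟩ := kap4 n hn 1
  set D : ℝ := max C₄ 0 with hD
  have hD0 : 0 ≤ D := le_max_right _ _
  set K : ℝ := (2 * C) ^ (2 * n) with hK
  have hK0 : 0 < K := by positivity
  set L : ℝ := 3 * K * (D + 1) / c with hL
  have hL0 : 0 < L := by positivity
  set v : ℝ := c / (3 * K * L) with hv
  have hv0 : 0 < v := by positivity
  obtain ⟨s, hs, hvol⟩ := vol_small n (by omega) (η := ENNReal.ofReal v)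
    (by rw [Ne, ENNReal.ofReal_eq_zero, not_le]; exact hv0)
  refine ⟨min s 1, min 1 (c / (3 * K)), lt_min hs one_pos, min_le_right _ _,
    lt_min one_pos (by positivity), fun α hα hE z hz => ?_⟩
  have hk := h4 α hα (hE.trans (ENNReal.ofReal_le_ofReal (min_le_left _ _)))
  have hA := hvol (pt z) (pt_mem hz) (min s 1) (min_le_left _ _)
  have hE2 := hE.trans (ENNReal.ofReal_le_ofReal (min_le_right _ _))
  set B : Set (W n) := PB (pt z) (min s 1) with hB
  have hBm : MeasurableSet B := measurableSet_PB _ _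
  have hen : enH (fun z => C * (aO α z + kO α z)) B =
      ∫⁻ x in ball (0 : W n) 1 ∩ B, ENNReal.ofReal (C * (aO α x + kO α x)) ^ (2 * n) := by
    unfold enH
    rw [withDensity_apply _ hBm, Measure.restrict_restrict hBm, inter_comm]
  have hma : AEMeasurable (fun z : W n => ENNReal.ofReal (aO α z) ^ (2 * n))
      (volume.restrict (ball (0 : W n) 1 ∩ B)) :=
    ((FinUAux.aemeas (cont_aO hα)).ennreal_ofReal.pow_const _).mono_measure
      (Measure.restrict_mono inter_subset_left le_rfl)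
  have hp : ∀ z : W n, ENNReal.ofReal (C * (aO α z + kO α z)) ^ (2 * n) ≤
      ENNReal.ofReal K * (ENNReal.ofReal (aO α z) ^ (2 * n) +
        (ENNReal.ofReal L + ENNReal.ofReal L⁻¹ * ENNReal.ofReal (kO α z) ^ (4 * n))) := by
    intro z
    have ha := FinUAux.aO_nonneg α z
    have hk := FinUAux.kO_nonneg α z
    rw [← ENNReal.ofReal_pow (by positivity), ← ENNReal.ofReal_pow ha, ← ENNReal.ofReal_pow hk,
      ← ENNReal.ofReal_mul (by positivity), ← ENNReal.ofReal_add (by positivity) (by positivity),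
      ← ENNReal.ofReal_add (by positivity) (by positivity), ← ENNReal.ofReal_mul (by positivity)]
    apply ENNReal.ofReal_le_ofReal
    refine (FinUAux.sum_pow_le ha hk (by linarith) _).trans ?_
    refine mul_le_mul_of_nonneg_left ?_ hK0.le
    have h5 := UIntAux.young (y := kO α z ^ (2 * n)) hL0
    have h6 : (kO α z ^ (2 * n)) ^ 2 = kO α z ^ (4 * n) := by
      rw [← pow_mul]
      congr 1
      ring
    rw [h6] at h5
    linarith
  rw [hen]
  calc ∫⁻ x in ball (0 : W n) 1 ∩ B, ENNReal.ofReal (C * (aO α x + kO α x)) ^ (2 * n)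
      ≤ ∫⁻ x in ball (0 : W n) 1 ∩ B, ENNReal.ofReal K * (ENNReal.ofReal (aO α x) ^ (2 * n) +
        (ENNReal.ofReal L + ENNReal.ofReal L⁻¹ * ENNReal.ofReal (kO α x) ^ (4 * n))) :=
        lintegral_mono fun x => hp x
    _ = ENNReal.ofReal K * ((∫⁻ x in ball (0 : W n) 1 ∩ B, ENNReal.ofReal (aO α x) ^ (2 * n)) +
        (ENNReal.ofReal L * volume (ball (0 : W n) 1 ∩ B) + ENNReal.ofReal L⁻¹ *
          ∫⁻ x in ball (0 : W n) 1 ∩ B, ENNReal.ofReal (kO α x) ^ (4 * n))) := by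
        rw [lintegral_const_mul' _ _ ENNReal.ofReal_ne_top, lintegral_add_left' hma,
          lintegral_add_left measurable_const, setLIntegral_const,
          lintegral_const_mul' _ _ ENNReal.ofReal_ne_top]
    _ ≤ ENNReal.ofReal K * (ENNReal.ofReal (c / (3 * K)) +
        (ENNReal.ofReal L * ENNReal.ofReal v + ENNReal.ofReal L⁻¹ * ENNReal.ofReal D)) := by
        gcongr
        · exact (lintegral_mono_set inter_subset_left).trans hE2
        · exact (lintegral_mono_set inter_subset_left).trans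
            (hk.trans (ENNReal.ofReal_le_ofReal (le_max_left _ _)))
    _ = ENNReal.ofReal (K * (c / (3 * K) + (L * v + L⁻¹ * D))) := by
        rw [← ENNReal.ofReal_mul hL0.le, ← ENNReal.ofReal_mul (by positivity),
          ← ENNReal.ofReal_add (by positivity) (by positivity),
          ← ENNReal.ofReal_add (by positivity) (by positivity), ← ENNReal.ofReal_mul hK0.le]
    _ ≤ ENNReal.ofReal c := by
        apply ENNReal.ofReal_le_ofReal
        have e1 : K * (c / (3 * K)) = c / 3 := by field_simp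
        have e2 : K * (L * v) = c / 3 := by rw [hv]; field_simp
        have e3 : K * (L⁻¹ * D) ≤ c / 3 := by
          have e4 : K * (L⁻¹ * D) = c / 3 * (D / (D + 1)) := by
            rw [hL]
            field_simp
          rw [e4]
          have e5 : D / (D + 1) ≤ 1 := by
            rw [div_le_one (by positivity)]
            linarith
          have e6 : 0 ≤ c / 3 := by positivity
          calc c / 3 * (D / (D + 1)) ≤ c / 3 * 1 := mul_le_mul_of_nonneg_left e5 e6
            _ = c / 3 := mul_one _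
        have e7 : K * (c / (3 * K) + (L * v + L⁻¹ * D)) =
            K * (c / (3 * K)) + K * (L * v) + K * (L⁻¹ * D) := by ring
        rw [e7, e1, e2]
        linarith

end Pool.Agent.Lib.P28v
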