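import Pool.Agent.Lib.P28v.CmpF
import Pool.Agent.Lib.P28v.NormM
import Pool.Agent.Lib.P28v.AvgR
import Pool.Agent.Lib.P28v.UInt
import Pool.Agent.Lib.P28v.LineF
import Pool.Agent.Lib.P28u.EnO
import Pool.Agent.Lib.P28u.DensU

set_option autoImplicit false
set_option maxSynthPendingDepth 3

/-!
# The energy gap

PROOF. `θ₀` from `line_f`, `CF` from `fs_a0`, `CN` from `norm_l`; `θ > 0` with `CN θ ≤ 1/2`, `2 θ (1 + CN CF) ≤ θ₀`. `η, d, ρ₀` from `cmp_f` for `θ`; `k`, `c` from `avg_R` for `η`; `CD` from `dens_U`; `s, E₁` from `u_int` for `CD`, `c`; `ρ = min ρ₀ (k s)`; `δ` from `cmp_f` for `ρ`; `E₂` from `meas_b` for `d, δ`; `CE` from `en_O`; `E₀ = min E₁ E₂ / CE`.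
Let `α` be given: `∫ aO ^ (2n) ≤ ofReal (CE E₀)`, so both `≤ ofReal E₁` and `≤ ofReal E₂`. `avg_R` gives `β`, `cmp_f` with `D = dw β z`: `‖z‖² ‖dw β z - l • dw (a0 n) z‖ ≤ θ |l|`. `norm_l`: `|1 - l| ≤ CN θ |l| ≤ |l| / 2`, so `|l| ≤ 2` and `|1 - l| ≤ 2 CN θ`; hence `‖z‖² ‖dw β z - dw (a0 n) z‖ ≤ 2 θ + 2 CN θ CF ≤ θ₀`. `line_f` and `JoinF.trans`.
-/

open MeasureTheory Set Metric
open scoped ContDiff Topology ENNReal

namespace Pool.Agent.Lib.P28v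

open Pool.Agent.P28b04d Pool.Agent.Lib.P28e Pool.Agent.Lib.P28c Pool.Agent.Lib.P28t Pool.Agent.Lib.P28u
open Pool.Agent.Lib.P28f (V EV)

variable {n : ℕ}

theorem gap_U (n : ℕ) (hn : 2 ≤ n) : ∃ E₀ : ℝ, 0 < E₀ ∧ ∀ (α : FW n) (a : W n → ℝ), Symp α → EnLe α a →
    ∫⁻ z in {z : W n | rad z < 1}, ENNReal.ofReal (a z) ^ (2 * n) ≤ ENNReal.ofReal E₀ → JoinF α (a0 n) := by
  have hn1 : 1 ≤ n := by omega
  obtain ⟨θ₀, hθ₀, hline⟩ := line_f n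
  obtain ⟨CF, hCF, hfs⟩ := fs_a0 n
  obtain ⟨CN, hCN, hnorm⟩ := norm_l n hn1
  have hCF0 : 0 < CF := by linarith
  have hCN0 : 0 < CN := by linarith
  obtain ⟨θ, hθ, hθ1, hθ2⟩ : ∃ θ : ℝ, 0 < θ ∧ CN * θ ≤ 1 / 2 ∧ 2 * θ * (1 + CN * CF) ≤ θ₀ := by
    refine ⟨min (1 / 2 / CN) (θ₀ / (2 * (1 + CN * CF))), ?_, ?_, ?_⟩
    · have : 0 < 1 + CN * CF := by positivity
      exact lt_min (by positivity) (by positivity)
    · calc CN * min (1 / 2 / CN) (θ₀ / (2 * (1 + CN * CF))) ≤ CN * (1 / 2 / CN) :=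
            mul_le_mul_of_nonneg_left (min_le_left _ _) hCN0.le
        _ = 1 / 2 := by field_simp
    · have hp : 0 < 1 + CN * CF := by positivity
      calc 2 * min (1 / 2 / CN) (θ₀ / (2 * (1 + CN * CF))) * (1 + CN * CF)
          ≤ 2 * (θ₀ / (2 * (1 + CN * CF))) * (1 + CN * CF) := by
            gcongr
            exact min_le_right _ _
        _ = θ₀ := by field_simp
  obtain ⟨η, d, ρ₀, hη, hd, hρ₀, hρ₀8, hcmp⟩ := cmp_f n hn1 hθ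
  obtain ⟨k, hk, hk8, havg⟩ := avg_R n hn1
  obtain ⟨c, hc, havg⟩ := havg η hη
  obtain ⟨CD, hCD, hdens⟩ := dens_U n
  obtain ⟨s, E₁, hs, hs1, hE₁, huint⟩ := u_int n hn CD hCD hc
  obtain ⟨ρ, hρd⟩ : ∃ ρ : ℝ, ρ = min ρ₀ (k * s) := ⟨_, rfl⟩
  have hρ : 0 < ρ := by
    rw [hρd]
    exact lt_min hρ₀ (by positivity)
  have hρ1 : ρ ≤ ρ₀ := by rw [hρd]; exact min_le_left _ _
  have hρ2 : ρ ≤ k * s := by rw [hρd]; exact min_le_right _ _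
  obtain ⟨δ, hδ, hcmp⟩ := hcmp ρ hρ hρ1
  obtain ⟨E₂, hE₂, hmeas⟩ := meas_b n hn hd hδ
  obtain ⟨CE, hCE, hen⟩ := en_O n
  refine ⟨min E₁ E₂ / CE, div_pos (lt_min hE₁ hE₂) hCE, fun α a hα ha hE => ?_⟩
  have h0 : 0 ≤ min E₁ E₂ / CE := (div_pos (lt_min hE₁ hE₂) hCE).le
  have h1 := hen _ α a h0 hα ha hE
  rw [mul_div_cancel₀ _ hCE.ne'] at h1
  have h11 := h1.trans (ENNReal.ofReal_le_ofReal (min_le_left _ _))
  have h12 := h1.trans (ENNReal.ofReal_le_ofReal (min_le_right _ _))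
  obtain ⟨l, hl, hbad⟩ := hmeas α hα h12
  obtain ⟨β, hβ, hj, hβ2⟩ := havg α _ hα (hdens α hα) s hs hs1 (huint α hα h11) ρ hρ hρ2
  have hclose : ∀ z : W n, z ≠ 0 → ‖z‖ ^ 2 * ‖dw β z - l • dw (a0 n) z‖ ≤ θ * |l| := by
    intro z hz
    obtain ⟨ct, σ, hM, hcl⟩ := hβ2 z hz
    exact hcmp α hα.1 l hl hbad z hz ct (dw β z) σ hM hcl
  have h2 := hnorm β hβ.1 l θ hθ.le hclose
  have hl0 : 0 ≤ |l| := abs_nonneg l
  have h3 : |l| ≤ 2 := by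
    have h4 : |l| ≤ 1 + |1 - l| := by
      have h5 : |l| = |1 - (1 - l)| := by congr 1; ring
      rw [h5]
      exact (abs_sub _ _).trans (by rw [abs_one])
    nlinarith
  have h4 : |1 - l| ≤ 2 * (CN * θ) := by nlinarith [mul_nonneg hCN0.le hθ.le]
  refine hj.trans (hline β hβ fun z hz => ?_)
  have hz0 : 0 < ‖z‖ := norm_pos_iff.2 hz
  have e1 : dw β z - dw (a0 n) z = (dw β z - l • dw (a0 n) z) - (1 - l) • dw (a0 n) z := by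
    rw [sub_smul, one_smul]
    abel
  have h5 := hclose z hz
  have h6 := (hfs z hz).1
  calc ‖z‖ ^ 2 * ‖dw β z - dw (a0 n) z‖
      ≤ ‖z‖ ^ 2 * (‖dw β z - l • dw (a0 n) z‖ + |1 - l| * ‖dw (a0 n) z‖) := by
        gcongr
        rw [e1]
        refine (norm_sub_le _ _).trans ?_
        rw [norm_smul, Real.norm_eq_abs]
    _ = ‖z‖ ^ 2 * ‖dw β z - l • dw (a0 n) z‖ + |1 - l| * (‖z‖ ^ 2 * ‖dw (a0 n) z‖) := by ring
    _ ≤ θ * |l| + |1 - l| * CF := by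
        gcongr
    _ ≤ θ * 2 + 2 * (CN * θ) * CF := by
        gcongr
    _ = 2 * θ * (1 + CN * CF) := by ring
    _ ≤ θ₀ := hθ2

end Pool.Agent.Lib.P28v
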