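import Pool.Agent.Lib.P28v.Defs
import Pool.Agent.Lib.P28u.UnA
import Pool.Agent.Lib.P28u.IntD

set_option autoImplicit false
set_option maxSynthPendingDepth 3

/-!
# The measure on the unitary matrices is left invariant

PROOF. `ct g = fun j k => star (g k j)` (continuous; for `g ∈ Un n` it is the inverse: `rm g (ct g) = idm n = rm (ct g) g`, `ct g ∈ Un n`; by `exists_inv` and uniqueness or by hand), `ct (rm g h) = rm (ct h) (ct g)` (all matrices). Let `ν2 = ν.map ct`. It is left invariant: for `k ∈ Un n`, `rm k (ct g) = ct (rm g (ct k))` (`ct (ct k) = k`), so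
`ν2.map (rm k ·) = (ν.map (fun g => rm g (ct k))).map ct = ν.map ct = ν2` (`Haar.inv`). Both are probability measures supported on the compact set `Un n`. For continuous bounded `f ≥ 0` (or measurable `f : XX n → ℝ≥0∞`, better): `∫⁻ f ∂ν = ∫⁻ k, ∫⁻ g, f (rm g k) ∂ν ∂ν2` (`Haar.inv`, `lintegral_map`, `k ∈ Un n` almost everywhere)
`= ∫⁻ g, ∫⁻ k, f (rm g k) ∂ν2 ∂ν` (`lintegral_lintegral_swap`, `continuous_rm`) `= ∫⁻ f ∂ν2` (left invariance of `ν2`, `g ∈ Un n` almost everywhere). So `ν = ν2` (take indicators) and `ν` is left invariant. `integral_lm`: `integral_map` as in `IntDAux.integral_rm`.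
-/

open MeasureTheory Set Metric
open scoped ContDiff Topology ENNReal

namespace Pool.Agent.Lib.P28v

open Pool.Agent.P28b04d Pool.Agent.Lib.P28e Pool.Agent.Lib.P28c Pool.Agent.Lib.P28t Pool.Agent.Lib.P28u
open Pool.Agent.Lib.P28f (V EV)

variable {n : ℕ}

namespace HaarLAux

/-- The conjugate transpose. -/
noncomputable def ct (g : XX n) : XX n := fun j k => star (g k j)

theorem ct_ct (g : XX n) : ct (ct g) = g := by
  funext j k
  simp [ct]

theorem ct_rm (g h : XX n) : ct (rm g h) = rm (ct h) (ct g) := by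
  funext j k
  simp only [ct, rm, UnAAux.mx_apply, star_sum, star_mul']
  exact Finset.sum_congr rfl fun i _ => mul_comm _ _

theorem continuous_ct : Continuous (ct : XX n → XX n) := by
  unfold ct
  fun_prop

theorem ct_rm_self {g : XX n} (hg : g ∈ Un n) : rm (ct g) g = idm n := by
  funext j k
  have h := hg k j
  have h1 : rm (ct g) g j k = hip (g k) (g j) := by
    simp only [ct, rm, UnAAux.mx_apply, hip]
    exact Finset.sum_congr rfl fun i _ => mul_comm _ _
  rw [h1, h]
  unfold idm
  by_cases hjk : k = j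
  · subst hjk
    simp
  · rw [if_neg hjk, Pi.single_eq_of_ne hjk]

theorem ct_mem {g : XX n} (hg : g ∈ Un n) : ct g ∈ Un n := by
  obtain ⟨k, hk, h1, h2⟩ := exists_inv hg
  have h : ct g = k := by
    rw [← rm_idm (ct g), ← h1, ← rm_assoc, ct_rm_self hg, idm_rm]
  rw [h]
  exact hk

theorem meas_rm_left (k : XX n) : Measurable fun g : XX n => rm k g :=
  (continuous_rm.comp (continuous_const.prodMk continuous_id)).measurable

theorem meas_rm_right (k : XX n) : Measurable fun g : XX n => rm g k :=
  (continuous_rm.comp (continuous_id.prodMk continuous_const)).measurable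

theorem map_ct_left {ν : Measure (XX n)} (hν : Haar ν) {k : XX n} (hk : k ∈ Un n) :
    (ν.map ct).map (fun g => rm k g) = ν.map ct := by
  rw [Measure.map_map (meas_rm_left k) continuous_ct.measurable]
  have h1 : (fun g : XX n => rm k g) ∘ ct = ct ∘ fun g => rm g (ct k) := by
    funext g
    simp only [Function.comp]
    rw [ct_rm, ct_ct]
  rw [h1, ← Measure.map_map continuous_ct.measurable (meas_rm_right (ct k)), hν.inv _ (ct_mem hk)]

theorem eq_of_left {ν ν2 : Measure (XX n)} (hν : Haar ν) (hp : IsProbabilityMeasure ν2)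
    (hs : ∀ᵐ k ∂ν2, k ∈ Un n) (hl : ∀ k ∈ Un n, ν2.map (fun g => rm k g) = ν2) : ν = ν2 := by
  have := hν.prob
  have hsν : ∀ᵐ k ∂ν, k ∈ Un n := ae_un hν fun g hg => hg
  ext A hA
  have hm : Measurable (A.indicator (1 : XX n → ℝ≥0∞)) := measurable_one.indicator hA
  have hf : Measurable (fun p : XX n × XX n => A.indicator (1 : XX n → ℝ≥0∞) (rm p.2 p.1)) :=
    hm.comp (continuous_rm.comp (continuous_snd.prodMk continuous_fst)).measurable
  calc ν A = ∫⁻ _k, ν A ∂ν2 := by simp
    _ = ∫⁻ k, ∫⁻ g, A.indicator (1 : XX n → ℝ≥0∞) (rm g k) ∂ν ∂ν2 := by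
        apply lintegral_congr_ae
        filter_upwards [hs] with k hk
        have h1 := lintegral_map (μ := ν) hm (meas_rm_right k)
        rw [hν.inv k hk, lintegral_indicator_one hA] at h1
        exact h1
    _ = ∫⁻ g, ∫⁻ k, A.indicator (1 : XX n → ℝ≥0∞) (rm g k) ∂ν2 ∂ν :=
        lintegral_lintegral_swap hf.aemeasurable
    _ = ∫⁻ _g, ν2 A ∂ν := by
        apply lintegral_congr_ae
        filter_upwards [hsν] with g hg
        have h1 := lintegral_map (μ := ν2) hm (meas_rm_left g)
        rw [hl g hg, lintegral_indicator_one hA] at h1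
        exact h1.symm
    _ = ν2 A := by simp

theorem map_ct {ν : Measure (XX n)} (hν : Haar ν) : ν.map ct = ν := by
  have := hν.prob
  have hsν : ∀ᵐ k ∂ν, k ∈ Un n := ae_un hν fun g hg => hg
  refine (eq_of_left hν (Measure.isProbabilityMeasure_map continuous_ct.measurable.aemeasurable) ?_
    fun k hk => map_ct_left hν hk).symm
  have hms : MeasurableSet {k : XX n | k ∈ Un n} := isCompact_Un.measurableSet
  rw [ae_map_iff continuous_ct.measurable.aemeasurable hms]
  filter_upwards [hsν] with k hk
  exact ct_mem hk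

end HaarLAux

open HaarLAux

theorem left_inv {ν : Measure (XX n)} (hν : Haar ν) {k : XX n} (hk : k ∈ Un n) :
    ν.map (fun g => rm k g) = ν := by
  have h := map_ct_left hν hk
  rw [map_ct hν] at h
  exact h

theorem integral_lm {ν : Measure (XX n)} (hν : Haar ν) {F : XX n → ℝ} (hFi : Integrable F ν)
    {k : XX n} (hk : k ∈ Un n) : ∫ g, F (rm k g) ∂ν = ∫ g, F g ∂ν := by
  have h := integral_map (μ := ν) (φ := fun g => rm k g) (meas_rm_left k).aemeasurable
    (f := F) (by rw [left_inv hν hk]; exact hFi.aestronglyMeasurable)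
  rw [← h, left_inv hν hk]

end Pool.Agent.Lib.P28v
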