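import Pool.Agent.Lib.P28v.Defs
import Pool.Agent.Lib.P28u.IntD

set_option autoImplicit false
set_option maxSynthPendingDepth 3

/-!
# Decomposition of unitary matrices

PROOF. `kk i t` is the rotation of `P28u/IntD.lean` (`IntDAux.kk`, `IntDAux.kk_mem`, `IntDAux.mx_kk`), `mx (kk i t) (e0 n) = cos t • e0 n + sin t • Eb i` (`mx_kk`, `hip (Eb i) (e0 n) = 0`). `St`: a submonoid: `h 0 = c • e0 n` with `|c| = 1` (`nsq_col`), `mx h (e0 n) = h 0` (`mx_e0`), `rm h h' 0 = mx h (h' 0)`.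
`kak`: let `u = k 0`, `nsq u = 1`, `c = u 0 = hip (e0 n) u`, `w = u - c • e0 n`, `w 0 = 0`, `|c|² + nsq w = 1`. Choose `t ∈ [0, π/2]` with `cos t = |c|`, `sin t = √(nsq w)`. Let `c'` be a number of modulus one with `c = |c| c'` (`c' = 1` if `c = 0`) and `w'` a unit vector with `w' 0 = 0`, `w = √(nsq w) • w'` (`w' = Eb i` if `w = 0`).
CLAIM: there is `h ∈ Un n` with `h 0 = c' • e0 n` and `mx h (Eb i) = w'`. Then `mx (rm h (kk i t)) (e0 n) = mx h (cos t • e0 n + sin t • Eb i) = u = mx k (e0 n)`; with the inverse `q` of `rm h (kk i t)` (`exists_inv`) `h' = rm q k ∈ Un n` (`rm_mem`) satisfies `h' 0 = mx q u = e0 n` and `rm (rm h (kk i t)) h' = k` (`rm_assoc`, `idm_rm`).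
CLAIM: as in `exists_col` (`P28u/UnA.lean`): the family `v 0 = c' e0`, `v j = μ w'` (`j = ` the complex index of `Eb i` plus one, `Eb i = star μ • Pi.single j 1`, `μ = 1` or `-i`: `Eb i` is `Pi.single j 1` or `Pi.single j Complex.I`) is orthonormal on `{0, j}` and `Orthonormal.exists_orthonormalBasis_extension_of_card_eq` extends it to an orthonormal basis `b` with `b 0 = v 0`, `b j = v j`; `h = ` the columns `b`.
(Or: take `h1` from `exists_col` for the vector `w'`, and `h2` from `exists_col` for `Eb i`; the matrices have to be corrected in the first column; the first way is shorter.)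
-/

open MeasureTheory Set Metric
open scoped ContDiff Topology ENNReal

namespace Pool.Agent.Lib.P28v

open Pool.Agent.P28b04d Pool.Agent.Lib.P28e Pool.Agent.Lib.P28c Pool.Agent.Lib.P28t Pool.Agent.Lib.P28u
open Pool.Agent.Lib.P28f (V EV)

variable {n : ℕ}

theorem St_un {h : XX n} (hh : h ∈ St n) : h ∈ Un n := hh.1

namespace KakAux

open UnAAux

theorem exists_pair (hn : 1 ≤ n) {u v : W n} (hu : nsq u = 1) (hv : nsq v = 1) (huv : hip u v = 0) :
    ∃ g ∈ Un n, g 0 = u ∧ g ⟨1, by omega⟩ = v := by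
  classical
  set o : Fin (n + 1) := ⟨1, by omega⟩ with ho
  have ho0 : o ≠ 0 := by
    intro h
    have := congrArg Fin.val h
    simp [ho] at this
  have hinner : ∀ x y : EuclideanSpace ℂ (Fin (n + 1)),
      inner ℂ x y = hip (n := n) (WithLp.ofLp x) (WithLp.ofLp y) := by
    intro x y
    rw [PiLp.inner_apply]
    unfold hip
    refine Finset.sum_congr rfl fun k _ => ?_
    rw [RCLike.inner_apply']
    rfl
  have hnorm : ∀ z : W n, nsq z = 1 → ‖(WithLp.toLp 2 z : EuclideanSpace ℂ (Fin (n + 1)))‖ = 1 := by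
    intro z hz
    have h2 : ‖(WithLp.toLp 2 z : EuclideanSpace ℂ (Fin (n + 1)))‖ ^ 2 = 1 := by
      rw [← hz, EuclideanSpace.norm_sq_eq]
      unfold nsq
      refine Finset.sum_congr rfl fun k _ => ?_
      rw [Complex.normSq_eq_norm_sq]
    have h3 := norm_nonneg (WithLp.toLp 2 z : EuclideanSpace ℂ (Fin (n + 1)))
    nlinarith
  have hvu : hip v u = 0 := by rw [hipStar, huv, star_zero]
  set f : Fin (n + 1) → EuclideanSpace ℂ (Fin (n + 1)) :=
    fun j => if j = 0 then WithLp.toLp 2 u else WithLp.toLp 2 v with hf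
  have hf0 : f 0 = WithLp.toLp 2 u := by simp [hf]
  have hf1 : f o = WithLp.toLp 2 v := by simp [hf, ho0]
  have hon : Orthonormal ℂ (({0, o} : Set (Fin (n + 1))).restrict f) := by
    constructor
    · rintro ⟨i, hi⟩
      show ‖f i‖ = 1
      rcases hi with rfl | hi
      · rw [hf0]; exact hnorm u hu
      · rw [Set.mem_singleton_iff] at hi
        rw [hi, hf1]; exact hnorm v hv
    · rintro ⟨i, hi⟩ ⟨j, hj⟩ hij
      have hij' : i ≠ j := fun h => hij (Subtype.ext h)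
      show inner ℂ (f i) (f j) = 0
      rcases hi with rfl | hi <;> rcases hj with rfl | hj
      · exact absurd rfl hij'
      · rw [Set.mem_singleton_iff] at hj
        rw [hj, hf0, hf1, hinner]; exact huv
      · rw [Set.mem_singleton_iff] at hi
        rw [hi, hf0, hf1, hinner]; exact hvu
      · rw [Set.mem_singleton_iff] at hi hj
        exact absurd (hi.trans hj.symm) hij'
  obtain ⟨b, hb⟩ := hon.exists_orthonormalBasis_extension_of_card_eq (by simp)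
  refine ⟨fun j => WithLp.ofLp (b j), fun j k => ?_, ?_, ?_⟩
  · show hip (WithLp.ofLp (b j)) (WithLp.ofLp (b k)) = _
    rw [← hinner, orthonormal_iff_ite.1 b.orthonormal]
  · show WithLp.ofLp (b 0) = u
    rw [hb 0 (by simp), hf0]
  · show WithLp.ofLp (b o) = v
    rw [hb o (by simp), hf1]

theorem nsq_csmul (c : ℂ) (z : W n) : nsq (c • z) = ‖c‖ ^ 2 * nsq z := by
  unfold nsq
  rw [Finset.mul_sum]
  refine Finset.sum_congr rfl fun k _ => ?_
  rw [Pi.smul_apply, smul_eq_mul, Complex.normSq_mul, Complex.normSq_eq_norm_sq c]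

theorem nsq_e0v : nsq (e0 n) = 1 := by
  have h := hipSelf (e0 n)
  rw [IntDAux.hip_e0_e0] at h
  exact_mod_cast h.symm

theorem nsq_Eb (i : Fin (n * 2)) : nsq (Eb i : W n) = 1 := by
  have h := hipSelf (Eb i : W n)
  rw [hip_Eb_self] at h
  exact_mod_cast h.symm

theorem nsq_add {u v : W n} (huv : hip u v = 0) : nsq (u + v) = nsq u + nsq v := by
  have hvu : hip v u = 0 := by rw [hipStar, huv, star_zero]
  have h : ((nsq (u + v) : ℝ) : ℂ) = ((nsq u + nsq v : ℝ) : ℂ) := by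
    rw [← hipSelf, hipAdd, IntDAux.hip_add_l, IntDAux.hip_add_l, huv, hvu, Complex.ofReal_add, hipSelf,
      hipSelf]
    ring
  exact_mod_cast h

theorem hip_e0_of {w : W n} (hw : w 0 = 0) (c : ℂ) : hip (c • e0 n) w = 0 := by
  rw [hipSmulL, hip_e0, hw, mul_zero]

end KakAux

open KakAux

theorem exists_frame (hn : 1 ≤ n) (i : Fin (n * 2)) {c : ℂ} (hc : ‖c‖ = 1) {w : W n} (hw : w 0 = 0)
    (hw1 : nsq w = 1) : ∃ h ∈ Un n, h 0 = c • e0 n ∧ mx h (Eb i) = w := by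
  obtain ⟨g, hg, hg0, hg1⟩ := exists_pair hn nsq_e0v (nsq_Eb i) (hip_e0_Eb i)
  obtain ⟨k, hk, hk0, hk1⟩ := exists_pair hn (u := c • e0 n) (v := w)
    (by rw [nsq_csmul, hc, nsq_e0v]; norm_num) hw1 (hip_e0_of hw c)
  obtain ⟨q, hq, hgq, hqg⟩ := exists_inv hg
  refine ⟨rm k q, rm_mem hk hq, ?_, ?_⟩
  · rw [← mx_e0 (rm k q), mx_rm]
    have h1 : mx q (e0 n) = e0 n := by
      have h2 : e0 n = mx g (e0 n) := by rw [mx_e0, hg0]
      conv_lhs => rw [h2]
      rw [← mx_rm, hqg, mx_idm]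
    rw [h1, mx_e0, hk0]
  · rw [mx_rm]
    have h1 : mx q (Eb i) = Pi.single (⟨1, by omega⟩ : Fin (n + 1)) 1 := by
      have h2 : (Eb i : W n) = mx g (Pi.single (⟨1, by omega⟩ : Fin (n + 1)) 1) := by
        rw [UnAAux.mx_single, hg1]
      rw [h2, ← mx_rm, hqg, mx_idm]
    rw [h1, UnAAux.mx_single, hk1]

theorem kak (hn : 1 ≤ n) (i : Fin (n * 2)) {k : XX n} (hk : k ∈ Un n) :
    ∃ h ∈ St n, ∃ t ∈ Icc (0 : ℝ) (Real.pi / 2), ∃ h2 ∈ St n, k = rm (rm h (IntDAux.kk i t)) h2 := by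
  set u : W n := k 0 with hu
  have hu1 : nsq u = 1 := nsq_col hk 0
  set c : ℂ := u 0 with hc
  set w : W n := u - c • e0 n with hw
  have hw0 : w 0 = 0 := by
    simp [hw, hc, IntDAux.e0_zero]
  have hsum : ‖c‖ ^ 2 + nsq w = 1 := by
    have h1 : u = c • e0 n + w := by rw [hw]; abel
    have h2 := nsq_add (hip_e0_of hw0 c)
    rw [← h1, hu1, nsq_csmul, nsq_e0v, mul_one] at h2
    exact h2.symm
  have hwn : 0 ≤ nsq w := UnAAux.nsqNonneg w
  have hcn : 0 ≤ ‖c‖ := norm_nonneg c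
  have hc1 : ‖c‖ ≤ 1 := by nlinarith
  obtain ⟨c', hc', hcc'⟩ : ∃ c' : ℂ, ‖c'‖ = 1 ∧ c = (‖c‖ : ℂ) * c' := by
    by_cases h : c = 0
    · exact ⟨1, by simp, by simp [h]⟩
    · have hne : (‖c‖ : ℂ) ≠ 0 := by exact_mod_cast (norm_ne_zero_iff.2 h)
      refine ⟨c / ‖c‖, ?_, by field_simp⟩
      rw [norm_div, Complex.norm_real, norm_norm, div_self (norm_ne_zero_iff.2 h)]
  obtain ⟨w', hw'0, hw'1, hww'⟩ : ∃ w' : W n, w' 0 = 0 ∧ nsq w' = 1 ∧
      w = ((Real.sqrt (nsq w) : ℝ) : ℂ) • w' := by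
    by_cases h : nsq w = 0
    · refine ⟨Eb i, IntDAux.Eb_zero i, nsq_Eb i, ?_⟩
      rw [h, Real.sqrt_zero, Complex.ofReal_zero, zero_smul]
      exact UnAAux.eqZero h
    · have hpos : 0 < nsq w := lt_of_le_of_ne hwn (Ne.symm h)
      have hs : 0 < Real.sqrt (nsq w) := Real.sqrt_pos.2 hpos
      have hsne : ((Real.sqrt (nsq w) : ℝ) : ℂ) ≠ 0 := by exact_mod_cast hs.ne'
      refine ⟨((Real.sqrt (nsq w) : ℝ) : ℂ)⁻¹ • w, ?_, ?_, ?_⟩
      · rw [Pi.smul_apply, hw0, smul_zero]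
      · rw [nsq_csmul, norm_inv, Complex.norm_real, Real.norm_of_nonneg hs.le, inv_pow,
          Real.sq_sqrt hwn]
        field_simp
      · rw [smul_smul, mul_inv_cancel₀ hsne, one_smul]
  obtain ⟨h, hh, hh0, hhE⟩ := exists_frame hn i hc' hw'0 hw'1
  have ht : Real.cos (Real.arccos ‖c‖) = ‖c‖ := Real.cos_arccos (by linarith) hc1
  have hts : Real.sin (Real.arccos ‖c‖) = Real.sqrt (nsq w) := by
    rw [Real.sin_arccos]
    congr 1
    linarith
  have hti : Real.arccos ‖c‖ ∈ Icc (0 : ℝ) (Real.pi / 2) :=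
    ⟨Real.arccos_nonneg _, Real.arccos_le_pi_div_two.2 hcn⟩
  set t : ℝ := Real.arccos ‖c‖ with htd
  set g : XX n := rm h (IntDAux.kk i t) with hg
  have hgU : g ∈ Un n := rm_mem hh (IntDAux.kk_mem i t)
  have hge : mx g (e0 n) = u := by
    rw [hg, mx_rm, IntDAux.mx_kk, IntDAux.e0_zero, IntDAux.hip_Eb_e0, ht, hts]
    have h1 : e0 n + (((Real.sqrt (nsq w) : ℝ) : ℂ) * 1 - (1 - ((‖c‖ : ℝ) : ℂ)) * 0) • Eb i -
        (((Real.sqrt (nsq w) : ℝ) : ℂ) * 0 + (1 - ((‖c‖ : ℝ) : ℂ)) * 1) • e0 n =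
        ((‖c‖ : ℝ) : ℂ) • e0 n + ((Real.sqrt (nsq w) : ℝ) : ℂ) • Eb i := by
      funext j
      simp only [Pi.add_apply, Pi.sub_apply, Pi.smul_apply, smul_eq_mul]
      ring
    rw [h1, mx_add, mx_smul, mx_smul, mx_e0, hh0, hhE, smul_smul, ← hcc', ← hww', hw]
    abel
  obtain ⟨q, hq, hgq, hqg⟩ := exists_inv hgU
  refine ⟨h, ⟨hh, c', hh0⟩, t, hti, rm q k, ⟨rm_mem hq hk, 1, ?_⟩, ?_⟩
  · show mx q (k 0) = _
    rw [← hu, ← hge, ← mx_rm, hqg, mx_idm, one_smul]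
  · rw [← hg, ← rm_assoc, hgq, idm_rm]

end Pool.Agent.Lib.P28v
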