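import Pool.Agent.Lib.P28v.Defs
import Pool.Agent.Lib.P28u.PtU
import Pool.Agent.Lib.P28u.TailU

set_option autoImplicit false
set_option maxSynthPendingDepth 3

/-!
# Small moments of the connection matrices

PROOF. `a = aO α (g 0) ≥ 0`, `fr2 (Am α k g) ≤ C₁ a²` on `Un n` (`pt_u`). `∫ a ^ (2 n) ∂ν ≤ C₀.toReal * E` exactly as `hA` in the proof of `tail_u` (`P28u/TailU.lean`: `pol_u`, `TailUAux.mom_a`, `TailUAux.meas_a`, `aO_smul`), for `E ≥ 0`. For `0 < θ ≤ 1`, `m ∈ {1, 2, 4}` (`m ≤ 2 n` since `n ≥ 2`) and `a ≥ 0`: `a ^ m ≤ θ + (θ⁻¹) ^ (2 n) * a ^ (2 n)`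
(if `a ≤ θ` then `a ^ m ≤ a ≤ θ`; otherwise `1 ≤ a / θ`, `a ^ m ≤ (a / θ) ^ m ≤ (a / θ) ^ (2 n)`). So with `D = 2 n C₁` (`T ≤ D a²`, `T² ≤ D² a⁴`, `√(fr2 A_i) ≤ √C₁ a`) all three integrals are at most `K (θ + (θ⁻¹) ^ (2 n) C₀.toReal E)`, `K = D + D² + √C₁`; choose `θ` with `K θ ≤ τ / 2`, `θ ≤ 1`, then `E`. Integrability: `integrable_un`, `cont_Am`, `TailUAux.cont_a0`; `ae_un`.
-/

open MeasureTheory Set Metric
open scoped ContDiff Topology ENNReal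

namespace Pool.Agent.Lib.P28v

open Pool.Agent.P28b04d Pool.Agent.Lib.P28e Pool.Agent.Lib.P28c Pool.Agent.Lib.P28t Pool.Agent.Lib.P28u
open Pool.Agent.Lib.P28f (V EV)

variable {n : ℕ}

namespace MomUAux

theorem pow_split {n m : ℕ} (hm1 : 1 ≤ m) (hm : m ≤ 2 * n) {θ a : ℝ} (hθ : 0 < θ) (hθ1 : θ ≤ 1)
    (ha : 0 ≤ a) : a ^ m ≤ θ + (θ⁻¹) ^ (2 * n) * a ^ (2 * n) := by
  by_cases h : a ≤ θ
  · have h1 : a ^ m ≤ a := pow_le_of_le_one ha (h.trans hθ1) (by omega)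
    have h2 : 0 ≤ (θ⁻¹) ^ (2 * n) * a ^ (2 * n) := by positivity
    linarith
  · push Not at h
    have h0 : 1 ≤ θ⁻¹ := (one_le_inv₀ hθ).2 hθ1
    have h1 : 1 ≤ θ⁻¹ * a := by
      rw [inv_mul_eq_div, le_div_iff₀ hθ]
      linarith
    have h2 : a ^ m ≤ (θ⁻¹ * a) ^ m := by
      apply pow_le_pow_left₀ ha
      nlinarith
    have h3 : (θ⁻¹ * a) ^ m ≤ (θ⁻¹ * a) ^ (2 * n) := pow_le_pow_right₀ h1 hm
    have h4 : (θ⁻¹ * a) ^ (2 * n) = (θ⁻¹) ^ (2 * n) * a ^ (2 * n) := mul_pow _ _ _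
    linarith

theorem step_T (hn : 2 ≤ n) {C₁ : ℝ} (hC : 0 < C₁) {α : FW n} {g : XX n}
    (h : ∀ k, fr2 (Am α k g) ≤ C₁ * aO α (g 0) ^ 2) {θ : ℝ} (hθ : 0 < θ) (hθ1 : θ ≤ 1) :
    (∑ k, fr2 (Am α k g)) + (∑ k, fr2 (Am α k g)) ^ 2 ≤
      (((n : ℝ) * 2 * C₁) + ((n : ℝ) * 2 * C₁) ^ 2) *
        (θ + (θ⁻¹) ^ (2 * n) * aO α (g 0) ^ (2 * n)) := by
  set a := aO α (g 0) with hadef
  have ha : 0 ≤ a := TailUAux.aO_nonneg α (g 0)
  have h1 : ∑ k, fr2 (Am α k g) ≤ (n : ℝ) * 2 * C₁ * a ^ 2 := by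
    calc ∑ k, fr2 (Am α k g) ≤ ∑ _k : Fin (n * 2), C₁ * a ^ 2 := Finset.sum_le_sum fun k _ => h k
      _ = (n : ℝ) * 2 * C₁ * a ^ 2 := by
        rw [Finset.sum_const, Finset.card_univ, Fintype.card_fin, nsmul_eq_mul]
        push_cast
        ring
  have h0 : 0 ≤ ∑ k, fr2 (Am α k g) := Finset.sum_nonneg fun k _ => fr2_nonneg _
  set D := (n : ℝ) * 2 * C₁ with hD
  have hD0 : 0 ≤ D := by positivity
  have h2 : (∑ k, fr2 (Am α k g)) ^ 2 ≤ (D * a ^ 2) ^ 2 := pow_le_pow_left₀ h0 h1 2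
  have h3 : a ^ 2 ≤ θ + (θ⁻¹) ^ (2 * n) * a ^ (2 * n) :=
    pow_split (by norm_num) (by omega) hθ hθ1 ha
  have h4 : a ^ 4 ≤ θ + (θ⁻¹) ^ (2 * n) * a ^ (2 * n) :=
    pow_split (by norm_num) (by omega) hθ hθ1 ha
  have h5 : D * a ^ 2 ≤ D * (θ + (θ⁻¹) ^ (2 * n) * a ^ (2 * n)) :=
    mul_le_mul_of_nonneg_left h3 hD0
  have h6 : D ^ 2 * a ^ 4 ≤ D ^ 2 * (θ + (θ⁻¹) ^ (2 * n) * a ^ (2 * n)) :=
    mul_le_mul_of_nonneg_left h4 (by positivity)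
  have h7 : (D * a ^ 2) ^ 2 = D ^ 2 * a ^ 4 := by ring
  rw [add_mul]
  linarith

theorem step_s (hn : 2 ≤ n) {C₁ : ℝ} (hC : 0 < C₁) {α : FW n} {g : XX n} {i : Fin (n * 2)}
    (h : fr2 (Am α i g) ≤ C₁ * aO α (g 0) ^ 2) {θ : ℝ} (hθ : 0 < θ) (hθ1 : θ ≤ 1) :
    Real.sqrt (fr2 (Am α i g)) ≤
      Real.sqrt C₁ * (θ + (θ⁻¹) ^ (2 * n) * aO α (g 0) ^ (2 * n)) := by
  set a := aO α (g 0) with hadef
  have ha : 0 ≤ a := TailUAux.aO_nonneg α (g 0)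
  have h1 : Real.sqrt (fr2 (Am α i g)) ≤ Real.sqrt C₁ * a := by
    refine (Real.sqrt_le_sqrt h).trans ?_
    rw [Real.sqrt_mul hC.le, Real.sqrt_sq ha]
  have h3 : a ^ 1 ≤ θ + (θ⁻¹) ^ (2 * n) * a ^ (2 * n) :=
    pow_split le_rfl (by omega) hθ hθ1 ha
  rw [pow_one] at h3
  exact h1.trans (mul_le_mul_of_nonneg_left h3 (Real.sqrt_nonneg _))

end MomUAux

open MomUAux

theorem mom_u (n : ℕ) (hn : 2 ≤ n) {ν : Measure (XX n)} (hν : Haar ν) {τ : ℝ} (hτ : 0 < τ) :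
    ∃ E : ℝ, 0 < E ∧ ∀ α : FW n, Symp α →
      ∫⁻ z in ball (0 : W n) 1, ENNReal.ofReal (aO α z) ^ (2 * n) ≤ ENNReal.ofReal E →
      ∫ g, ((∑ k, fr2 (Am α k g)) + (∑ k, fr2 (Am α k g)) ^ 2) ∂ν ≤ τ ∧
        ∀ i, ∫ g, Real.sqrt (fr2 (Am α i g)) ∂ν ≤ τ := by
  have := hν.prob
  obtain ⟨C₀, hC₀, hpol⟩ := pol_u n
  obtain ⟨C₁, hC₁, hpt⟩ := pt_u n
  set D : ℝ := (n : ℝ) * 2 * C₁ with hD
  have hD0 : 0 ≤ D := by positivity
  obtain ⟨K, hKdef⟩ : ∃ K : ℝ, K = D + D ^ 2 + Real.sqrt C₁ + 1 := ⟨_, rfl⟩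
  have hs0 := Real.sqrt_nonneg C₁
  have hDD : 0 ≤ D ^ 2 := by positivity
  have hK : 0 < K := by rw [hKdef]; positivity
  have hK1 : D + D ^ 2 ≤ K := by linarith
  have hK2 : Real.sqrt C₁ ≤ K := by linarith
  obtain ⟨θ, hθ, hθ1, hθK⟩ : ∃ θ : ℝ, 0 < θ ∧ θ ≤ 1 ∧ K * θ ≤ τ / 2 := by
    refine ⟨min 1 (τ / 2 / K), lt_min one_pos (by positivity), min_le_left _ _, ?_⟩
    calc K * min 1 (τ / 2 / K) ≤ K * (τ / 2 / K) :=
          mul_le_mul_of_nonneg_left (min_le_right _ _) hK.le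
      _ = τ / 2 := by field_simp
  have hL0 : 0 ≤ (θ⁻¹) ^ (2 * n) * C₀.toReal := mul_nonneg (by positivity) ENNReal.toReal_nonneg
  obtain ⟨L, hLdef⟩ : ∃ L : ℝ, L = (θ⁻¹) ^ (2 * n) * C₀.toReal + 1 := ⟨_, rfl⟩
  have hL : 0 < L := by linarith
  have hEE : 0 < τ / 2 / (K * L) := by positivity
  refine ⟨τ / 2 / (K * L), hEE, ?_⟩
  intro α hα hE
  have hKE : K * (L * (τ / 2 / (K * L))) = τ / 2 := by field_simp
  generalize hEdef : τ / 2 / (K * L) = E at hE hEE hKE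
  -- the moment of `aO`
  have hA : ∫ g, aO α (g 0) ^ (2 * n) ∂ν ≤ C₀.toReal * E := by
    have h1 := (hpol ν hν (fun z => ENNReal.ofReal (aO α z) ^ (2 * n))
      ((TailUAux.meas_a hα).ennreal_ofReal.pow_const _) (fun c z hc hz => by
        show ENNReal.ofReal (aO α (c • z)) ^ (2 * n) = ENNReal.ofReal (aO α z) ^ (2 * n)
        rw [aO_smul hα hc hz])).2
    have h2 : ENNReal.ofReal (∫ g, aO α (g 0) ^ (2 * n) ∂ν) ≤
        ENNReal.ofReal (C₀.toReal * E) := by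
      rw [← TailUAux.mom_a hν hα, ENNReal.ofReal_mul ENNReal.toReal_nonneg,
        ENNReal.ofReal_toReal hC₀]
      refine h1.trans ?_
      gcongr
    exact (ENNReal.ofReal_le_ofReal_iff (mul_nonneg ENNReal.toReal_nonneg hEE.le)).1 h2
  -- integrability
  have iA : Integrable (fun g => aO α (g 0) ^ (2 * n)) ν :=
    integrable_un hν ((TailUAux.cont_a0 hα).pow _)
  have iB : Integrable (fun g => θ + (θ⁻¹) ^ (2 * n) * aO α (g 0) ^ (2 * n)) ν :=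
    (integrable_const _).add (iA.const_mul _)
  have hB : ∫ g, (θ + (θ⁻¹) ^ (2 * n) * aO α (g 0) ^ (2 * n)) ∂ν ≤ θ + L * E := by
    rw [integral_add (integrable_const _) (iA.const_mul _), integral_const, integral_const_mul]
    simp only [probReal_univ, one_smul]
    have h1 : (θ⁻¹) ^ (2 * n) * ∫ g, aO α (g 0) ^ (2 * n) ∂ν ≤
        (θ⁻¹) ^ (2 * n) * (C₀.toReal * E) := mul_le_mul_of_nonneg_left hA (by positivity)
    have h2 : L * E = (θ⁻¹) ^ (2 * n) * (C₀.toReal * E) + E := by rw [hLdef]; ring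
    linarith
  have hKB : K * (θ + L * E) ≤ τ := by
    rw [mul_add]
    linarith
  have hpos : 0 ≤ θ + L * E := by positivity
  have cS : ContinuousOn (fun g : XX n => ∑ k, fr2 (Am α k g)) (Un n) :=
    continuousOn_finsetSum _ fun k _ => cont_Am hα k
  refine ⟨?_, fun i => ?_⟩
  · have i1 : Integrable (fun g => (∑ k, fr2 (Am α k g)) + (∑ k, fr2 (Am α k g)) ^ 2) ν :=
      integrable_un hν (cS.add (cS.pow 2))
    have h1 : ∫ g, ((∑ k, fr2 (Am α k g)) + (∑ k, fr2 (Am α k g)) ^ 2) ∂ν ≤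
        ∫ g, (D + D ^ 2) * (θ + (θ⁻¹) ^ (2 * n) * aO α (g 0) ^ (2 * n)) ∂ν := by
      refine integral_mono_ae i1 (iB.const_mul _) ?_
      exact ae_un hν fun g hg => step_T hn hC₁ (hpt α hα g hg).2 hθ hθ1
    rw [integral_const_mul] at h1
    have h2 : (D + D ^ 2) * ∫ g, (θ + (θ⁻¹) ^ (2 * n) * aO α (g 0) ^ (2 * n)) ∂ν ≤
        (D + D ^ 2) * (θ + L * E) := mul_le_mul_of_nonneg_left hB (by positivity)
    have h3 : (D + D ^ 2) * (θ + L * E) ≤ K * (θ + L * E) :=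
      mul_le_mul_of_nonneg_right hK1 hpos
    linarith
  · have i1 : Integrable (fun g => Real.sqrt (fr2 (Am α i g))) ν :=
      integrable_un hν (Real.continuous_sqrt.comp_continuousOn (cont_Am hα i))
    have h1 : ∫ g, Real.sqrt (fr2 (Am α i g)) ∂ν ≤
        ∫ g, Real.sqrt C₁ * (θ + (θ⁻¹) ^ (2 * n) * aO α (g 0) ^ (2 * n)) ∂ν := by
      refine integral_mono_ae i1 (iB.const_mul _) ?_
      exact ae_un hν fun g hg => step_s hn hC₁ ((hpt α hα g hg).2 i) hθ hθ1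
    rw [integral_const_mul] at h1
    have h2 : Real.sqrt C₁ * ∫ g, (θ + (θ⁻¹) ^ (2 * n) * aO α (g 0) ^ (2 * n)) ∂ν ≤
        Real.sqrt C₁ * (θ + L * E) := mul_le_mul_of_nonneg_left hB hs0
    have h3 : Real.sqrt C₁ * (θ + L * E) ≤ K * (θ + L * E) :=
      mul_le_mul_of_nonneg_right hK2 hpos
    linarith

end Pool.Agent.Lib.P28v
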