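import Pool.Agent.Lib.P28v.Defs
import Pool.Agent.Lib.P28u.MainU

set_option autoImplicit false
set_option maxSynthPendingDepth 3

/-!
# The integral of `|Q + R|²` is small

PROOF. Compare `main_u` (`P28u/MainU.lean`). Fix `i`, `j`; `N = Nm α i j = Q + R`, `T = ∑ k, fr2 (Am α k g)`, `|M| = √(fr2 M)`. On `Un n` (`curv`): `N = D_i A_j - D_j A_i + (A_i A_j - A_j A_i)`, so `fr2 N = inn N (D_i A_j) - inn N (D_j A_i) + inn N (A_i A_j - A_j A_i)`. `DM k N = DM k Q = Q A_k - A_k Q` (`DM_Qm`, `DE` of a constant is zero; `SM.add`, `SM.const`),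
`Q = N - R`, so `|DM k N| ≤ 2 (|N| + |R|) |A_k|`. `Dv i (inn N A_j) = inn (DM i N) A_j + inn N (D_i A_j)` (`fderiv_inn`), the same with `i` and `j` exchanged. Hence pointwise
`fr2 N - Dv i (inn N A_j) + Dv j (inn N A_i) ≤ 4 (|N| + |R|) |A_i| |A_j| + 2 |N| |A_i| |A_j| ≤ (6 |N| + 4 |R|) T ≤ (1/2) fr2 N + 18 T² + 4 |R| T` (`|A_i| |A_j| ≤ T`). Integrate: the integrals of `Dv i (..)`, `Dv j (..)` vanish (`int_Dv`): `∫ fr2 N ≤ 36 ∫ T² + 8 |R| ∫ T`. Sum over `i`, `j`.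
-/

open MeasureTheory Set Metric
open scoped ContDiff Topology ENNReal

namespace Pool.Agent.Lib.P28v

open Pool.Agent.P28b04d Pool.Agent.Lib.P28e Pool.Agent.Lib.P28c Pool.Agent.Lib.P28t Pool.Agent.Lib.P28u
open Pool.Agent.Lib.P28f (V EV)

variable {n : ℕ}

theorem sm_Nm {α : FW n} (hα : Symp α) {g : XX n} (hg : g ∈ Un n) (i j : Fin (n * 2)) : SM ∞ (Nm α i j) g :=
  (sm_Qm hα hg i j).add (SM.const _)

theorem cont_Nm {α : FW n} (hα : Symp α) (i j : Fin (n * 2)) : ContinuousOn (fun g => fr2 (Nm α i j g)) (Un n) :=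
  fun g hg => ((sm_Nm hα hg i j).fr2.continuousAt).continuousWithinAt

namespace NIntAux

theorem DM_Nm {α : FW n} (hα : Symp α) {g : XX n} (hg : g ∈ Un n) (i j k : Fin (n * 2)) :
    DM k (Nm α i j) g = Qm α i j g * Am α k g - Am α k g * Qm α i j g := by
  rw [← DM_Qm hα hg]
  ext a b
  have h := (sm_Qm hα hg i j) a b
  have e : (fun y => Nm α i j y a b) = fun y => Qm α i j y a b + Rm i j a b := rfl
  change fderiv ℝ (fun y => Nm α i j y a b) g _ = fderiv ℝ (fun y => Qm α i j y a b) g _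
  rw [e, fderiv_add_const]

/-- pointwise estimate -/
theorem pt {α : FW n} (hα : Symp α) {g : XX n} (hg : g ∈ Un n) (i j : Fin (n * 2)) :
    fr2 (Nm α i j g) - Dv i (fun g => inn (Nm α i j g) (Am α j g)) g
      + Dv j (fun g => inn (Nm α i j g) (Am α i g)) g
      ≤ 1 / 2 * fr2 (Nm α i j g)
        + (18 + 4 * Real.sqrt (fr2 (Rm (n := n) i j)))
          * ((∑ k, fr2 (Am α k g)) + (∑ k, fr2 (Am α k g)) ^ 2) := by
  have hN := (sm_Nm hα hg i j).mono MainUAux.one_le_inf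
  have hAi := (sm_Am hα hg i).mono MainUAux.one_le_inf
  have hAj := (sm_Am hα hg j).mono MainUAux.one_le_inf
  have e1 : Dv i (fun g => inn (Nm α i j g) (Am α j g)) g
      = inn (DM i (Nm α i j) g) (Am α j g) + inn (Nm α i j g) (DM i (Am α j) g) := by
    unfold Dv
    rw [fderiv_inn hN hAj]
    rfl
  have e2 : Dv j (fun g => inn (Nm α i j g) (Am α i g)) g
      = inn (DM j (Nm α i j) g) (Am α i g) + inn (Nm α i j g) (DM j (Am α i) g) := by
    unfold Dv
    rw [fderiv_inn hN hAi]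
    rfl
  have hc := curv hα hg i j
  have e3 : fr2 (Nm α i j g) = inn (Nm α i j g) (DM i (Am α j) g)
      - inn (Nm α i j g) (DM j (Am α i) g)
      + inn (Nm α i j g) (Am α i g * Am α j g - Am α j g * Am α i g) := by
    have hNd : Nm α i j g = Qm α i j g + Rm i j := rfl
    rw [← inn_sub, ← inn_add, hc, ← hNd, inn_self]
  have hQN : Real.sqrt (fr2 (Qm α i j g)) ≤
      Real.sqrt (fr2 (Nm α i j g)) + Real.sqrt (fr2 (Rm (n := n) i j)) := by
    have h := sqrt_fr2_sub (Nm α i j g) (Rm i j)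
    have hNd : Nm α i j g - Rm i j = Qm α i j g := by
      unfold Nm
      abel
    rwa [hNd] at h
  have hx0 := Real.sqrt_nonneg (fr2 (Nm α i j g))
  have hy0 := Real.sqrt_nonneg (fr2 (Qm α i j g))
  have ha0 := Real.sqrt_nonneg (fr2 (Am α i g))
  have hb0 := Real.sqrt_nonneg (fr2 (Am α j g))
  have hr0 := Real.sqrt_nonneg (fr2 (Rm (n := n) i j))
  have hxs : Real.sqrt (fr2 (Nm α i j g)) ^ 2 = fr2 (Nm α i j g) := Real.sq_sqrt (fr2_nonneg _)
  have has : Real.sqrt (fr2 (Am α i g)) ^ 2 = fr2 (Am α i g) := Real.sq_sqrt (fr2_nonneg _)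
  have hbs : Real.sqrt (fr2 (Am α j g)) ^ 2 = fr2 (Am α j g) := Real.sq_sqrt (fr2_nonneg _)
  have hcomm : ∀ M N : MR n, Real.sqrt (fr2 (M * N - N * M))
      ≤ 2 * (Real.sqrt (fr2 M) * Real.sqrt (fr2 N)) := by
    intro M N
    have h1 := sqrt_fr2_sub (M * N) (N * M)
    have h2 := sqrt_fr2_mul M N
    have h3 := sqrt_fr2_mul N M
    nlinarith
  have b1 : |inn (DM i (Nm α i j) g) (Am α j g)|
      ≤ 2 * (Real.sqrt (fr2 (Qm α i j g)) * Real.sqrt (fr2 (Am α i g)))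
        * Real.sqrt (fr2 (Am α j g)) := by
    refine (inn_le _ _).trans ?_
    apply mul_le_mul_of_nonneg_right _ hb0
    rw [DM_Nm hα hg]
    exact hcomm _ _
  have b2 : |inn (DM j (Nm α i j) g) (Am α i g)|
      ≤ 2 * (Real.sqrt (fr2 (Qm α i j g)) * Real.sqrt (fr2 (Am α j g)))
        * Real.sqrt (fr2 (Am α i g)) := by
    refine (inn_le _ _).trans ?_
    apply mul_le_mul_of_nonneg_right _ ha0
    rw [DM_Nm hα hg]
    exact hcomm _ _
  have b3 : |inn (Nm α i j g) (Am α i g * Am α j g - Am α j g * Am α i g)|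
      ≤ Real.sqrt (fr2 (Nm α i j g))
        * (2 * (Real.sqrt (fr2 (Am α i g)) * Real.sqrt (fr2 (Am α j g)))) :=
    (inn_le _ _).trans (mul_le_mul_of_nonneg_left (hcomm _ _) hx0)
  have hsi : fr2 (Am α i g) ≤ ∑ k, fr2 (Am α k g) :=
    Finset.single_le_sum (f := fun k => fr2 (Am α k g)) (fun k _ => fr2_nonneg _)
      (Finset.mem_univ i)
  have hsj : fr2 (Am α j g) ≤ ∑ k, fr2 (Am α k g) :=
    Finset.single_le_sum (f := fun k => fr2 (Am α k g)) (fun k _ => fr2_nonneg _)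
      (Finset.mem_univ j)
  have hS0 : 0 ≤ ∑ k, fr2 (Am α k g) := Finset.sum_nonneg fun k _ => fr2_nonneg _
  rw [e1, e2]
  have a1 := neg_abs_le (inn (DM i (Nm α i j) g) (Am α j g))
  have a2 := le_abs_self (inn (DM j (Nm α i j) g) (Am α i g))
  have a3 := le_abs_self (inn (Nm α i j g) (Am α i g * Am α j g - Am α j g * Am α i g))
  rw [← hxs]
  generalize Real.sqrt (fr2 (Qm α i j g)) = y at *
  generalize Real.sqrt (fr2 (Nm α i j g)) = x at *
  generalize Real.sqrt (fr2 (Am α i g)) = a at *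
  generalize Real.sqrt (fr2 (Am α j g)) = b at *
  generalize Real.sqrt (fr2 (Rm (n := n) i j)) = r at *
  generalize (∑ k, fr2 (Am α k g)) = T at *
  have hab : a * b ≤ T := by nlinarith [sq_nonneg (a - b)]
  have hab0 : 0 ≤ a * b := mul_nonneg ha0 hb0
  have hyab : y * (a * b) ≤ (x + r) * T := by
    calc y * (a * b) ≤ (x + r) * (a * b) := mul_le_mul_of_nonneg_right hQN hab0
      _ ≤ (x + r) * T := mul_le_mul_of_nonneg_left hab (by positivity)
  have hxab : x * (a * b) ≤ x * T := mul_le_mul_of_nonneg_left hab hx0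
  have hE : x ^ 2
      - (inn (DM i (Nm α i j) g) (Am α j g) + inn (Nm α i j g) (DM i (Am α j) g))
      + (inn (DM j (Nm α i j) g) (Am α i g) + inn (Nm α i j g) (DM j (Am α i) g))
      ≤ (6 * x + 4 * r) * T := by
    have h4 : x ^ 2 = fr2 (Nm α i j g) := hxs
    rw [h4, e3]
    have h5 : 2 * (y * a) * b = 2 * (y * (a * b)) := by ring
    have h6 : 2 * (y * b) * a = 2 * (y * (a * b)) := by ring
    have h7 : x * (2 * (a * b)) = 2 * (x * (a * b)) := by ring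
    rw [h5] at b1
    rw [h6] at b2
    rw [h7] at b3
    nlinarith
  have h8 : (6 * x + 4 * r) * T ≤ 1 / 2 * x ^ 2 + (18 + 4 * r) * (T + T ^ 2) := by
    have h9 : 0 ≤ r * T ^ 2 := by positivity
    nlinarith [sq_nonneg (x - 6 * T)]
  exact hE.trans h8

theorem int_one {α : FW n} (hα : Symp α) {ν : Measure (XX n)} (hν : Haar ν) (i j : Fin (n * 2)) :
    ∫ g, fr2 (Nm α i j g) ∂ν ≤ (2 * (18 + 4 * Real.sqrt (fr2 (Rm (n := n) i j))))
      * ∫ g, ((∑ k, fr2 (Am α k g)) + (∑ k, fr2 (Am α k g)) ^ 2) ∂ν := by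
  have c1 : ∀ g ∈ Un n, ContDiffAt ℝ ∞ (fun g => inn (Nm α i j g) (Am α j g)) g :=
    fun g hg => (sm_Nm hα hg i j).inn (sm_Am hα hg j)
  have c2 : ∀ g ∈ Un n, ContDiffAt ℝ ∞ (fun g => inn (Nm α i j g) (Am α i g)) g :=
    fun g hg => (sm_Nm hα hg i j).inn (sm_Am hα hg i)
  have i1 : Integrable (Dv i (fun g => inn (Nm α i j g) (Am α j g))) ν :=
    integrable_un hν fun g hg =>
      ((contDiffAt_Dv i (c1 g hg)).continuousAt).continuousWithinAt
  have i2 : Integrable (Dv j (fun g => inn (Nm α i j g) (Am α i g))) ν :=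
    integrable_un hν fun g hg =>
      ((contDiffAt_Dv j (c2 g hg)).continuousAt).continuousWithinAt
  have i3 : Integrable (fun g => fr2 (Nm α i j g)) ν := integrable_un hν (cont_Nm hα i j)
  have hT : ContinuousOn (fun g => ∑ k, fr2 (Am α k g)) (Un n) :=
    continuousOn_finsetSum _ fun k _ => cont_Am hα k
  have i4 : Integrable (fun g => (∑ k, fr2 (Am α k g)) + (∑ k, fr2 (Am α k g)) ^ 2) ν :=
    integrable_un hν (hT.add (hT.pow 2))
  have z1 := int_Dv hν i (F := fun g => inn (Nm α i j g) (Am α j g))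
    (fun g hg => (c1 g hg).of_le MainUAux.one_le_inf)
  have z2 := int_Dv hν j (F := fun g => inn (Nm α i j g) (Am α i g))
    (fun g hg => (c2 g hg).of_le MainUAux.one_le_inf)
  have i5 : Integrable (fun g => fr2 (Nm α i j g)
      - Dv i (fun g => inn (Nm α i j g) (Am α j g)) g) ν := i3.sub i1
  have h1 : ∫ g, fr2 (Nm α i j g) ∂ν
      = ∫ g, (fr2 (Nm α i j g) - Dv i (fun g => inn (Nm α i j g) (Am α j g)) g
        + Dv j (fun g => inn (Nm α i j g) (Am α i g)) g) ∂ν := by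
    rw [integral_add i5 i2, integral_sub i3 i1, z1, z2]
    ring
  have h2 : ∫ g, (fr2 (Nm α i j g) - Dv i (fun g => inn (Nm α i j g) (Am α j g)) g
        + Dv j (fun g => inn (Nm α i j g) (Am α i g)) g) ∂ν
      ≤ ∫ g, (1 / 2 * fr2 (Nm α i j g)
        + (18 + 4 * Real.sqrt (fr2 (Rm (n := n) i j)))
          * ((∑ k, fr2 (Am α k g)) + (∑ k, fr2 (Am α k g)) ^ 2)) ∂ν := by
    apply integral_mono_ae (i5.add i2) ((i3.const_mul _).add (i4.const_mul _))
    exact ae_un hν fun g hg => pt hα hg i j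
  rw [integral_add (i3.const_mul _) (i4.const_mul _), integral_const_mul, integral_const_mul] at h2
  linarith

end NIntAux

theorem n_int (n : ℕ) : ∃ C : ℝ, 0 < C ∧ ∀ ν : Measure (XX n), Haar ν → ∀ α : FW n, Symp α →
    ∑ i, ∑ j, ∫ g, fr2 (Nm α i j g) ∂ν ≤
      C * ∫ g, ((∑ k, fr2 (Am α k g)) + (∑ k, fr2 (Am α k g)) ^ 2) ∂ν := by
  have hp : 0 ≤ ∑ i, ∑ j, (2 * (18 + 4 * Real.sqrt (fr2 (Rm (n := n) i j)))) :=
    Finset.sum_nonneg fun i _ => Finset.sum_nonneg fun j _ => by positivity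
  refine ⟨1 + ∑ i, ∑ j, (2 * (18 + 4 * Real.sqrt (fr2 (Rm (n := n) i j)))), by linarith, ?_⟩
  intro ν hν α hα
  have hT0 : ∀ g, 0 ≤ ∑ k, fr2 (Am α k g) := fun g => Finset.sum_nonneg fun k _ => fr2_nonneg _
  have h0 : 0 ≤ ∫ g, ((∑ k, fr2 (Am α k g)) + (∑ k, fr2 (Am α k g)) ^ 2) ∂ν :=
    integral_nonneg fun g => add_nonneg (hT0 g) (sq_nonneg _)
  rw [add_mul, one_mul, Finset.sum_mul]
  have h1 : ∑ i, ∑ j, ∫ g, fr2 (Nm α i j g) ∂ν
      ≤ ∑ i, (∑ j, (2 * (18 + 4 * Real.sqrt (fr2 (Rm (n := n) i j)))))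
        * ∫ g, ((∑ k, fr2 (Am α k g)) + (∑ k, fr2 (Am α k g)) ^ 2) ∂ν := by
    apply Finset.sum_le_sum
    intro i _
    rw [Finset.sum_mul]
    apply Finset.sum_le_sum
    intro j _
    exact NIntAux.int_one hα hν i j
  linarith

end Pool.Agent.Lib.P28v
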