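import Pool.Agent.Lib.P28v.Kak
import Pool.Agent.Lib.P28u.IntD

set_option autoImplicit false
set_option maxSynthPendingDepth 3

/-!
# A Poincare inequality on the unitary group

PROOF. Let `k ∈ Un n`, `k = rm (rm h (kk i t)) h2` (`kak`). For `g ∈ Un n`: `F (rm g k) = F (rm (rm g h) (kk i t))` (`rm_assoc`, `hinv` for `h2`, `rm_mem`, `St_un`) and `F g = F (rm g h)` (`hinv`). So `|F (rm g k) - F g| = H (rm g h)` with `H g = |F (rm g (kk i t)) - F g|`, continuous on `Un n`; `∫ H (rm g h) = ∫ H g` (`IntDAux.integral_rm`, `integrable_un`).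
For `g ∈ Un n`: `F (rm g (kk i t)) - F g = ∫ s in 0..t, Dv i F (rm g (kk i s))` (as in the proof of `int_Dv`: `IntDAux.hasDerivAt_kk`, `kk_zero`, `rm_idm`), so `H g ≤ ∫ s in 0..t, |Dv i F (rm g (kk i s))|`. Exchange the integrals (continuous on the compact set `Un n × [0, t]`; same argument as in `int_Dv`) and use invariance (`IntDAux.integral_rm` with `kk i s ∈ Un n`): `∫ H ≤ t ∫ |Dv i F g| ∂ν ≤ (π/2) ∫ |Dv i F g| ∂ν`, `π ≤ 4`.
-/

open MeasureTheory Set Metric
open scoped ContDiff Topology ENNReal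

namespace Pool.Agent.Lib.P28v

open Pool.Agent.P28b04d Pool.Agent.Lib.P28e Pool.Agent.Lib.P28c Pool.Agent.Lib.P28t Pool.Agent.Lib.P28u
open Pool.Agent.Lib.P28f (V EV)

variable {n : ℕ}

namespace PoiUAux

open IntDAux

theorem hder (i : Fin (n * 2)) {F : XX n → ℝ} (hF : ∀ g ∈ Un n, ContDiffAt ℝ 1 F g) {g : XX n}
    (hg : g ∈ Un n) (t : ℝ) :
    HasDerivAt (fun t => F (rm g (kk i t))) (Dv i F (rm g (kk i t))) t := by
  have h1 := hasDerivAt_kk i g t
  have h2 : HasFDerivAt F (fderiv ℝ F (rm g (kk i t))) (rm g (kk i t)) :=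
    ((hF _ (rm_mem hg (kk_mem i t))).differentiableAt one_ne_zero).hasFDerivAt
  exact h2.comp_hasDerivAt t h1

theorem cont_s (i : Fin (n * 2)) {F : XX n → ℝ} (hF : ∀ g ∈ Un n, ContDiffAt ℝ 1 F g) {g : XX n}
    (hg : g ∈ Un n) : Continuous fun t => Dv i F (rm g (kk i t)) := by
  rw [continuous_iff_continuousAt]
  intro t
  have h1 : ContinuousAt (Dv i F) (rm g (kk i t)) := by
    have h1 : ContinuousAt (fderiv ℝ F) (rm g (kk i t)) :=
      (hF _ (rm_mem hg (kk_mem i t))).continuousAt_fderiv one_ne_zero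
    have h2 : Continuous fun g : XX n => rm g (Xm i) :=
      continuous_rm.comp (continuous_id.prodMk continuous_const)
    exact h1.clm_apply h2.continuousAt
  have h2 : Continuous fun t => rm g (kk i t) :=
    continuous_rm.comp (continuous_const.prodMk (continuous_kk i))
  exact ContinuousAt.comp (f := fun t => rm g (kk i t)) h1 h2.continuousAt

/-- the inequality for the rotation -/
theorem poi_kk {ν : Measure (XX n)} (hν : Haar ν) (i : Fin (n * 2)) {F : XX n → ℝ}
    (hF : ∀ g ∈ Un n, ContDiffAt ℝ 1 F g) {t : ℝ} (ht : 0 ≤ t) :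
    ∫ g, |F (rm g (kk i t)) - F g| ∂ν ≤ t * ∫ g, |Dv i F g| ∂ν := by
  have := hν.prob
  have hFc : ContinuousOn F (Un n) := fun g hg => (hF g hg).continuousAt.continuousWithinAt
  have hDc : ContinuousOn (fun g => |Dv i F g|) (Un n) := (contOn_Dv i hF).abs
  have hD := integrable_un hν hDc
  have hcont : ContinuousOn (fun p : XX n × ℝ => |Dv i F (rm p.1 (kk i p.2))|)
      (Un n ×ˢ Icc 0 t) := by
    refine hDc.comp (t := Un n) (f := fun p : XX n × ℝ => rm p.1 (kk i p.2)) ?_ ?_
    · have : Continuous fun p : XX n × ℝ => rm p.1 (kk i p.2) :=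
        continuous_rm.comp (continuous_fst.prodMk ((continuous_kk i).comp continuous_snd))
      exact this.continuousOn
    · rintro ⟨g, s⟩ ⟨hg, -⟩
      exact rm_mem hg (kk_mem i s)
  have hprod : Integrable (fun p : XX n × ℝ => |Dv i F (rm p.1 (kk i p.2))|)
      (ν.prod (volume.restrict (Ioc (0 : ℝ) t))) := by
    have h1 : IntegrableOn (fun p : XX n × ℝ => |Dv i F (rm p.1 (kk i p.2))|) (Un n ×ˢ Icc 0 t)
        (ν.prod volume) := hcont.integrableOn_compact (isCompact_Un.prod isCompact_Icc)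
    have h2 := h1.mono_set (prod_mono subset_rfl Ioc_subset_Icc_self)
    rw [IntegrableOn, ← Measure.prod_restrict, restrict_un hν] at h2
    exact h2
  have hswap := integral_integral_swap (f := fun g s => |Dv i F (rm g (kk i s))|) hprod
  have hR : ∫ s in Ioc (0 : ℝ) t, (∫ g, |Dv i F (rm g (kk i s))| ∂ν) = t * ∫ g, |Dv i F g| ∂ν := by
    have h1 : ∀ s, ∫ g, |Dv i F (rm g (kk i s))| ∂ν = ∫ g, |Dv i F g| ∂ν := fun s =>
      integral_rm hν hD (kk_mem i s)
    simp only [h1]
    simp [ht]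
  rw [← hR, ← hswap]
  have hcr : Continuous fun g : XX n => rm g (kk i t) :=
    continuous_rm.comp (continuous_id.prodMk continuous_const)
  refine integral_mono_ae ?_ hprod.integral_prod_left ?_
  · apply integrable_un hν
    refine ContinuousOn.abs (ContinuousOn.sub ?_ hFc)
    exact hFc.comp hcr.continuousOn fun g hg => rm_mem hg (kk_mem i t)
  · refine ae_un hν fun g hg => ?_
    show |F (rm g (kk i t)) - F g| ≤ ∫ s in Ioc (0 : ℝ) t, |Dv i F (rm g (kk i s))|
    have h1 : ∫ s in (0 : ℝ)..t, Dv i F (rm g (kk i s)) = F (rm g (kk i t)) - F g := by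
      rw [intervalIntegral.integral_eq_sub_of_hasDerivAt (fun s _ => hder i hF hg s)
        ((cont_s i hF hg).intervalIntegrable _ _), kk_zero, rm_idm]
    rw [← h1, ← intervalIntegral.integral_of_le ht]
    exact intervalIntegral.abs_integral_le_integral_abs ht

end PoiUAux

theorem poi {ν : Measure (XX n)} (hν : Haar ν) (hn : 1 ≤ n) (i : Fin (n * 2)) {F : XX n → ℝ}
    (hF : ∀ g ∈ Un n, ContDiffAt ℝ 1 F g) (hinv : ∀ g ∈ Un n, ∀ h ∈ St n, F (rm g h) = F g)
    {k : XX n} (hk : k ∈ Un n) : ∫ g, |F (rm g k) - F g| ∂ν ≤ 2 * ∫ g, |Dv i F g| ∂ν := by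
  obtain ⟨h, hh, t, ht, h2, hh2, rfl⟩ := kak hn i hk
  have := hν.prob
  have hhU := St_un hh
  have hFc : ContinuousOn F (Un n) := fun g hg => (hF g hg).continuousAt.continuousWithinAt
  have hcr : Continuous fun g : XX n => rm g (IntDAux.kk i t) :=
    continuous_rm.comp (continuous_id.prodMk continuous_const)
  have hH : Integrable (fun g => |F (rm g (IntDAux.kk i t)) - F g|) ν := by
    apply integrable_un hν
    refine ContinuousOn.abs (ContinuousOn.sub ?_ hFc)
    exact hFc.comp hcr.continuousOn fun g hg => rm_mem hg (IntDAux.kk_mem i t)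
  have h1 : ∫ g, |F (rm g (rm (rm h (IntDAux.kk i t)) h2)) - F g| ∂ν =
      ∫ g, |F (rm (rm g h) (IntDAux.kk i t)) - F (rm g h)| ∂ν := by
    refine integral_congr_ae (ae_un hν fun g hg => ?_)
    show |F (rm g (rm (rm h (IntDAux.kk i t)) h2)) - F g| =
      |F (rm (rm g h) (IntDAux.kk i t)) - F (rm g h)|
    have e1 : rm g (rm (rm h (IntDAux.kk i t)) h2) = rm (rm (rm g h) (IntDAux.kk i t)) h2 := by
      rw [← rm_assoc, ← rm_assoc]
    rw [e1, hinv _ (rm_mem (rm_mem hg hhU) (IntDAux.kk_mem i t)) h2 hh2, hinv g hg h hh]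
  rw [h1, IntDAux.integral_rm hν hH hhU]
  refine (PoiUAux.poi_kk hν i hF ht.1).trans ?_
  refine mul_le_mul_of_nonneg_right ?_ (integral_nonneg fun _ => abs_nonneg _)
  have := ht.2
  have := Real.pi_le_four
  linarith

end Pool.Agent.Lib.P28v
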