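import Pool.Agent.Lib.P28v.ComA

set_option autoImplicit false
set_option maxSynthPendingDepth 3

/-!
# Pointwise estimate

PROOF. `|M| = √(fr2 M)`, `J = Jm n`, `j = |J| > 0` (`fr2_J`), `W = Wm α g`, `W₀ = Wm α g₀`, `C₁` from `near_J`, `S = ∑ i j, fr2 (Nm α i j g) ≤ ε`, `s = sf α g = inn W J / |W|`, `|W| > 0`. `near_J`: `|W - (|W| s / j²) J|² ≤ C₁ |W|² ε`. Pythagoras (`inn (W - (inn W J / j²) J) J = 0`): `|W|² = |W - ..|² + |W|² s² / j²`, so `s² ≥ j² (1 - C₁ ε)`, the same for `s₀`;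
also `|s| ≤ j` (`inn_le`). With `C₁ ε ≤ 1/2`: `|s₀| ≥ j / √2 ≥ j / 2`, so `l = |W₀| s₀ / j² ≠ 0` and `|W₀| ≤ 2 j |l|`. `|lf α g - lf α g₀| ≤ ε ≤ 1`, `lf = log |W|²`: `|W|² ≤ e^ε |W₀|²`, `|W|² ≥ e^(-ε) |W₀|²`, so `||W| - |W₀|| ≤ 2 ε |W₀|` (`exp x ≤ 1 + 2 x` for `0 ≤ x ≤ 1`, or `Real.abs_exp_sub_one_le`). Then
`|W - l J| ≤ |W - (|W| s / j²) J| + ||W| s - |W₀| s₀| / j ≤ |W| √(C₁ ε) + (|W| |s - s₀| + |s₀| ||W| - |W₀||) / j ≤ |W₀| (3 √(C₁ ε) + 3 ε / j + 2 ε) ≤ 2 j |l| (3 √(C₁ ε) + 3 ε / j + 2 ε) ≤ d |l|` for small `ε`.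
-/

open MeasureTheory Set Metric
open scoped ContDiff Topology ENNReal

namespace Pool.Agent.Lib.P28v

open Pool.Agent.P28b04d Pool.Agent.Lib.P28e Pool.Agent.Lib.P28c Pool.Agent.Lib.P28t Pool.Agent.Lib.P28u
open Pool.Agent.Lib.P28f (V EV)

variable {n : ℕ}

namespace PtJAux

/-- expansion of the square of the norm of `W - (A₀ / j²) J` -/
theorem expand (M J : MR n) (hj : 0 < fr2 J) (A₀ : ℝ) :
    fr2 (M - (A₀ / fr2 J) • J) = (fr2 M - inn M J ^ 2 / fr2 J) + (inn M J - A₀) ^ 2 / fr2 J := by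
  have h1 : M - (A₀ / fr2 J) • J = M + (-(A₀ / fr2 J)) • J := by rw [neg_smul, sub_eq_add_neg]
  have h2 : inn M ((-(A₀ / fr2 J)) • J) = -(A₀ / fr2 J) * inn M J := by
    unfold inn
    rw [Finset.mul_sum]
    refine Finset.sum_congr rfl fun k _ => ?_
    rw [Finset.mul_sum]
    refine Finset.sum_congr rfl fun l _ => ?_
    rw [Matrix.smul_apply, smul_eq_mul]
    ring
  rw [h1, FrAAux.fr2_expand, fr2_smul, h2]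
  field_simp
  ring

theorem ratio {w w₀ ε : ℝ} (hw : 0 < w) (hw₀ : 0 < w₀) (h0 : 0 < ε) (h1 : ε ≤ 1)
    (hl : |Real.log (w ^ 2) - Real.log (w₀ ^ 2)| ≤ ε) :
    w ^ 2 ≤ (1 + 2 * ε) * w₀ ^ 2 ∧ |w - w₀| ≤ 2 * ε * w₀ := by
  have hp : 0 < w ^ 2 := by positivity
  have hp₀ : 0 < w₀ ^ 2 := by positivity
  have hl1 := (abs_le.1 hl).1
  have hl2 := (abs_le.1 hl).2
  have e1 : w ^ 2 = Real.exp (Real.log (w ^ 2) - Real.log (w₀ ^ 2)) * w₀ ^ 2 := by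
    rw [Real.exp_sub, Real.exp_log hp, Real.exp_log hp₀]
    field_simp
  have h2 : Real.exp (Real.log (w ^ 2) - Real.log (w₀ ^ 2)) ≤ 1 + 2 * ε := by
    refine (Real.exp_le_exp.2 hl2).trans ?_
    have h3 := Real.abs_exp_sub_one_le (x := ε) (by rw [abs_of_pos h0]; exact h1)
    rw [abs_of_pos h0] at h3
    have := (abs_le.1 h3).2
    linarith
  have h3 : 1 - ε ≤ Real.exp (Real.log (w ^ 2) - Real.log (w₀ ^ 2)) := by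
    have := Real.add_one_le_exp (Real.log (w ^ 2) - Real.log (w₀ ^ 2))
    linarith
  have h4 : w ^ 2 ≤ (1 + 2 * ε) * w₀ ^ 2 := by
    rw [e1]
    exact mul_le_mul_of_nonneg_right h2 hp₀.le
  have h5 : (1 - ε) * w₀ ^ 2 ≤ w ^ 2 := by
    rw [e1]
    exact mul_le_mul_of_nonneg_right h3 hp₀.le
  refine ⟨h4, ?_⟩
  rw [abs_le]
  constructor
  · nlinarith [mul_pos hw hw₀, mul_pos h0 hp₀]
  · nlinarith [mul_pos hw hw₀, mul_pos h0 hp₀]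

theorem core {C j d ε w w₀ A A₀ : ℝ} (hC : 0 < C) (hj : 0 < j) (hd : 0 < d) (hw : 0 < w)
    (hw₀ : 0 < w₀) (hε0 : 0 < ε) (hε1 : ε ≤ 1) (hεC : C * ε ≤ 1 / 2)
    (hε : 2 * (3 * C * j ^ 2 + 4 * (1 + j) ^ 2) * ε ≤ d ^ 2)
    (h1 : w ^ 2 - A ^ 2 / j ^ 2 ≤ C * (w ^ 2 * ε)) (h0 : w₀ ^ 2 - A₀ ^ 2 / j ^ 2 ≤ C * (w₀ ^ 2 * ε))
    (hl : |Real.log (w ^ 2) - Real.log (w₀ ^ 2)| ≤ ε) (hs : |A / w - A₀ / w₀| ≤ ε)
    (hA : |A₀| ≤ w₀ * j) :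
    (w ^ 2 - A ^ 2 / j ^ 2) + (A - A₀) ^ 2 / j ^ 2 ≤ (d * |A₀ / j ^ 2|) ^ 2 := by
  obtain ⟨r1, r2⟩ := ratio hw hw₀ hε0 hε1 hl
  have hp₀ : 0 < w₀ ^ 2 := by positivity
  have hj2 : 0 < j ^ 2 := by positivity
  -- lower bound of A₀²
  have k1 : w₀ ^ 2 / 2 ≤ A₀ ^ 2 / j ^ 2 := by nlinarith
  -- difference
  have k2 : |A - A₀| ≤ 2 * w₀ * ε + j * (2 * ε * w₀) := by
    have e1 : A - A₀ = w * (A / w - A₀ / w₀) + (A₀ / w₀) * (w - w₀) := by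
      field_simp
      ring
    have h3 : w ≤ 2 * w₀ := by
      have := (abs_le.1 r2).2
      nlinarith
    have h4 : |A₀ / w₀| ≤ j := by
      rw [abs_div, abs_of_pos hw₀, div_le_iff₀ hw₀]
      linarith
    calc |A - A₀| ≤ |w * (A / w - A₀ / w₀)| + |(A₀ / w₀) * (w - w₀)| := by
          rw [e1]; exact abs_add_le _ _
      _ = w * |A / w - A₀ / w₀| + |A₀ / w₀| * |w - w₀| := by
          rw [abs_mul, abs_mul, abs_of_pos hw]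
      _ ≤ 2 * w₀ * ε + j * (2 * ε * w₀) := by
          refine add_le_add (mul_le_mul h3 hs (abs_nonneg _) (by positivity))
            (mul_le_mul h4 r2 (abs_nonneg _) hj.le)
  have k3 : (A - A₀) ^ 2 ≤ 4 * (1 + j) ^ 2 * ε * w₀ ^ 2 := by
    have h5 : (A - A₀) ^ 2 ≤ (2 * w₀ * ε + j * (2 * ε * w₀)) ^ 2 := by
      rw [← sq_abs (A - A₀)]
      exact pow_le_pow_left₀ (abs_nonneg _) k2 2
    refine h5.trans ?_
    have e2 : (2 * w₀ * ε + j * (2 * ε * w₀)) ^ 2 = 4 * (1 + j) ^ 2 * (ε * ε) * w₀ ^ 2 := by ring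
    rw [e2]
    have h6 : ε * ε ≤ ε := by nlinarith
    gcongr
  have k4 : w ^ 2 - A ^ 2 / j ^ 2 ≤ 3 * C * ε * w₀ ^ 2 := by
    refine h1.trans ?_
    have h7 : w ^ 2 ≤ 3 * w₀ ^ 2 := by nlinarith
    calc C * (w ^ 2 * ε) ≤ C * (3 * w₀ ^ 2 * ε) := by gcongr
      _ = 3 * C * ε * w₀ ^ 2 := by ring
  have k5 : (d * |A₀ / j ^ 2|) ^ 2 = d ^ 2 * (A₀ ^ 2 / j ^ 2) / j ^ 2 := by
    rw [mul_pow, sq_abs]
    field_simp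
  rw [k5]
  have k6 : (w ^ 2 - A ^ 2 / j ^ 2) + (A - A₀) ^ 2 / j ^ 2 ≤
      ((3 * C * j ^ 2 + 4 * (1 + j) ^ 2) * ε * w₀ ^ 2) / j ^ 2 := by
    have h8 : (A - A₀) ^ 2 / j ^ 2 ≤ 4 * (1 + j) ^ 2 * ε * w₀ ^ 2 / j ^ 2 :=
      div_le_div_of_nonneg_right k3 hj2.le
    have h9 : 3 * C * ε * w₀ ^ 2 = (3 * C * j ^ 2 * ε * w₀ ^ 2) / j ^ 2 := by field_simp
    calc (w ^ 2 - A ^ 2 / j ^ 2) + (A - A₀) ^ 2 / j ^ 2
        ≤ (3 * C * j ^ 2 * ε * w₀ ^ 2) / j ^ 2 + 4 * (1 + j) ^ 2 * ε * w₀ ^ 2 / j ^ 2 := by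
          rw [← h9]; exact add_le_add k4 h8
      _ = _ := by rw [← add_div]; congr 1; ring
  refine k6.trans (div_le_div_of_nonneg_right ?_ hj2.le)
  calc (3 * C * j ^ 2 + 4 * (1 + j) ^ 2) * ε * w₀ ^ 2
      = (2 * (3 * C * j ^ 2 + 4 * (1 + j) ^ 2) * ε) * (w₀ ^ 2 / 2) := by ring
    _ ≤ d ^ 2 * (A₀ ^ 2 / j ^ 2) := mul_le_mul hε k1 (by positivity) (by positivity)

end PtJAux

open PtJAux in
theorem pt_J (n : ℕ) (hn : 1 ≤ n) {d : ℝ} (hd : 0 < d) : ∃ ε : ℝ, 0 < ε ∧ ∀ α : FW n, Symp α →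
    ∀ g₀ ∈ Un n, ∑ i, ∑ j, fr2 (Nm α i j g₀) ≤ ε →
      inn (Wm α g₀) (Jm n) / fr2 (Jm n) ≠ 0 ∧
      ∀ g ∈ Un n, ∑ i, ∑ j, fr2 (Nm α i j g) ≤ ε → |lf α g - lf α g₀| ≤ ε → |sf α g - sf α g₀| ≤ ε →
        Real.sqrt (fr2 (Wm α g - (inn (Wm α g₀) (Jm n) / fr2 (Jm n)) • Jm n)) ≤
          d * |inn (Wm α g₀) (Jm n) / fr2 (Jm n)| := by
  obtain ⟨C, hC, hnear⟩ := near_J n hn
  have hJ := fr2_J (n := n) hn
  obtain ⟨j, hjd⟩ : ∃ j, j = Real.sqrt (fr2 (Jm n)) := ⟨_, rfl⟩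
  have hj : 0 < j := by rw [hjd]; exact Real.sqrt_pos.2 hJ
  have hj2 : fr2 (Jm n) = j ^ 2 := by rw [hjd, Real.sq_sqrt hJ.le]
  obtain ⟨K, hK⟩ : ∃ K, K = 2 * (3 * C * j ^ 2 + 4 * (1 + j) ^ 2) := ⟨_, rfl⟩
  have hKp : 0 < K := by rw [hK]; positivity
  obtain ⟨ε, hεd⟩ : ∃ ε, ε = min 1 (min (1 / (2 * C)) (d ^ 2 / K)) := ⟨_, rfl⟩
  have hε0 : 0 < ε := by rw [hεd]; positivity
  have hε1 : ε ≤ 1 := by rw [hεd]; exact min_le_left _ _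
  have hεC : C * ε ≤ 1 / 2 := by
    have h1 : ε ≤ 1 / (2 * C) := by rw [hεd]; exact (min_le_right _ _).trans (min_le_left _ _)
    calc C * ε ≤ C * (1 / (2 * C)) := mul_le_mul_of_nonneg_left h1 hC.le
      _ = 1 / 2 := by field_simp
  have hεK : K * ε ≤ d ^ 2 := by
    have h1 : ε ≤ d ^ 2 / K := by rw [hεd]; exact (min_le_right _ _).trans (min_le_right _ _)
    calc K * ε ≤ K * (d ^ 2 / K) := mul_le_mul_of_nonneg_left h1 hKp.le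
      _ = d ^ 2 := by field_simp
  -- facts about one point
  have one : ∀ α : FW n, Symp α → ∀ g ∈ Un n, ∑ i, ∑ j, fr2 (Nm α i j g) ≤ ε →
      ∃ w : ℝ, 0 < w ∧ fr2 (Wm α g) = w ^ 2 ∧ Real.sqrt (fr2 (Wm α g)) = w ∧
        w ^ 2 - inn (Wm α g) (Jm n) ^ 2 / j ^ 2 ≤ C * (w ^ 2 * ε) := by
    intro α hα g hg hS
    have hp : 0 < fr2 (Wm α g) := fr2_pos hn (unit_Wm hα hg)
    refine ⟨Real.sqrt (fr2 (Wm α g)), Real.sqrt_pos.2 hp, (Real.sq_sqrt hp.le).symm, rfl, ?_⟩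
    have h1 := hnear α hα g hg
    rw [expand _ _ hJ, sub_self] at h1
    rw [Real.sq_sqrt hp.le, ← hj2]
    have h2 : C * (fr2 (Wm α g) * ∑ i, ∑ j, fr2 (Nm α i j g)) ≤ C * (fr2 (Wm α g) * ε) := by
      gcongr
    have h3 : (0 : ℝ) ^ 2 / fr2 (Jm n) = 0 := by simp
    rw [h3, add_zero] at h1
    exact h1.trans h2
  refine ⟨ε, hε0, fun α hα g₀ hg₀ hS₀ => ?_⟩
  obtain ⟨w₀, hw₀, hf₀, hr₀, hn₀⟩ := one α hα g₀ hg₀ hS₀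
  have hA₀ : w₀ ^ 2 / 2 ≤ inn (Wm α g₀) (Jm n) ^ 2 / j ^ 2 := by
    have : 0 < w₀ ^ 2 := by positivity
    nlinarith
  refine ⟨?_, fun g hg hS hl hs => ?_⟩
  · intro h
    rcases div_eq_zero_iff.1 h with h1 | h1
    · rw [h1] at hA₀
      have : 0 < w₀ ^ 2 := by positivity
      have h2 : (0 : ℝ) ^ 2 / j ^ 2 = 0 := by simp
      rw [h2] at hA₀
      linarith
    · exact hJ.ne' h1
  · obtain ⟨w, hw, hf, hr, hnn⟩ := one α hα g hg hS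
    rw [Real.sqrt_le_iff]
    refine ⟨by positivity, ?_⟩
    rw [expand _ _ hJ, hf, hj2]
    unfold lf at hl
    rw [hf, hf₀] at hl
    unfold sf at hs
    rw [hr, hr₀] at hs
    refine core hC hj hd hw hw₀ hε0 hε1 hεC (by rw [← hK]; exact hεK) hnn hn₀ hl hs ?_
    have h5 := inn_le (Wm α g₀) (Jm n)
    rw [hr₀, ← hjd] at h5
    exact h5

end Pool.Agent.Lib.P28v
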