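import Pool.Agent.Lib.P28v.HaarL
import Pool.Agent.Lib.P28v.MomU
import Pool.Agent.Lib.P28v.PtJ
import Pool.Agent.Lib.P28v.NInt
import Pool.Agent.Lib.P28v.PoiU
import Pool.Agent.Lib.P28v.CoefF

set_option autoImplicit false
set_option maxSynthPendingDepth 3

/-!
# Small energy: the form is close to a multiple of the Fubini-Study form, in measure

PROOF. `ε` from `pt_J` for `d`; `S g = ∑ i j, fr2 (Nm α i j g)`, `F₁ = lf α`, `F₂ = sf α`, `j = √(fr2 (Jm n))`. Let `C₁` from `n_int`, `τ > 0` small, `E` from `mom_u`. Then `∫ S ≤ C₁ τ` and, by `poi` (index `i₀ = ⟨0, _⟩`; `coef_smooth`, `Wm_st`: `lf`, `sf` are invariant under `St n`), `coef_der`: `∫ |F₁ (g k) - F₁ g| ∂ν ≤ 4 τ`, `∫ |F₂ (g k) - F₂ g| ∂ν ≤ 4 j τ` for all `k ∈ Un n`.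
So `∫ k, ∫ g, (S g + |F₁ (rm g k) - F₁ g| + |F₂ (rm g k) - F₂ g|) ≤ M τ`, `M = C₁ + 4 + 4 j`. The integrand is continuous on `Un n ×ˢ Un n` (`coef_smooth`, `cont_Nm`, `continuous_rm`, `rm_mem`), so integrable for `ν.prod ν` (compactness; `Measure.prod_restrict`, as `hprod` in the proof of `int_Dv`) and the integrals can be exchanged (`integral_integral_swap`): there is `g₀ ∈ Un n` with
`S g₀ + ∫ k, (|F₁ (rm g₀ k) - F₁ g₀| + |F₂ (rm g₀ k) - F₂ g₀|) ≤ M τ` (otherwise the integral is larger; e.g. `MeasureTheory.exists_le_integral` for the integral of the inner function, restricted to `Un n`). By left invariance (`integral_lm`) `∫ g, (|F₁ g - F₁ g₀| + |F₂ g - F₂ g₀|) ≤ M τ`. With `l = inn (Wm α g₀) (Jm n) / fr2 (Jm n)` (`pt_J`, `M τ ≤ ε`) the bad set is contained in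
`{S > ε} ∪ {|F₁ g - F₁ g₀| > ε} ∪ {|F₂ g - F₂ g₀| > ε}` (inside `Un n`), of measure at most `3 M τ / ε ≤ δ` (Chebyshev: `mul_meas_ge_le_integral_of_nonneg` or `mul_meas_ge_le_lintegral₀`). (The sets need not be measurable for upper bounds: use `measure_mono`.)
-/

open MeasureTheory Set Metric
open scoped ContDiff Topology ENNReal

namespace Pool.Agent.Lib.P28v

open Pool.Agent.P28b04d Pool.Agent.Lib.P28e Pool.Agent.Lib.P28c Pool.Agent.Lib.P28t Pool.Agent.Lib.P28u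
open Pool.Agent.Lib.P28f (V EV)

variable {n : ℕ}

namespace MeaUAux

open IntDAux

/-- Chebyshev's inequality -/
theorem cheb {ν : Measure (XX n)} (hν : Haar ν) {f : XX n → ℝ} (hf : ContinuousOn f (Un n))
    (h0 : ∀ g, 0 ≤ f g) {ε c : ℝ} (hε : 0 < ε) (hc : ∫ g, f g ∂ν ≤ c) {s : Set (XX n)}
    (hs : ∀ g ∈ s, ε ≤ f g) : ν s ≤ ENNReal.ofReal (c / ε) := by
  have := hν.prob
  have hi := integrable_un hν hf
  have h1 := mul_meas_ge_le_integral_of_nonneg (μ := ν) (Filter.Eventually.of_forall h0) hi ε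
  have h2 : ν.real {x | ε ≤ f x} ≤ c / ε := by
    rw [le_div_iff₀ hε]
    linarith
  calc ν s ≤ ν {x | ε ≤ f x} := measure_mono hs
    _ = ENNReal.ofReal (ν.real {x | ε ≤ f x}) := (ofReal_measureReal).symm
    _ ≤ ENNReal.ofReal (c / ε) := ENNReal.ofReal_le_ofReal h2

theorem diff_le {ν : Measure (XX n)} (hν : Haar ν) (hn : 1 ≤ n) {α : FW n} (hα : Symp α)
    (i : Fin (n * 2)) {F : XX n → ℝ} {D τ : ℝ} (hD : 0 ≤ D)
    (hF : ∀ g ∈ Un n, ContDiffAt ℝ 1 F g) (hinv : ∀ g ∈ Un n, ∀ h ∈ St n, F (rm g h) = F g)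
    (hd : ∀ g ∈ Un n, |Dv i F g| ≤ D * Real.sqrt (fr2 (Am α i g)))
    (hA : ∫ g, Real.sqrt (fr2 (Am α i g)) ∂ν ≤ τ) {k : XX n} (hk : k ∈ Un n) :
    ∫ g, |F (rm g k) - F g| ∂ν ≤ 2 * D * τ := by
  have h1 := poi hν hn i hF hinv hk
  have iD : Integrable (fun g => |Dv i F g|) ν := integrable_un hν (contOn_Dv i hF).abs
  have iA : Integrable (fun g => Real.sqrt (fr2 (Am α i g))) ν :=
    integrable_un hν ((cont_Am hα i).sqrt)
  have h2 : ∫ g, |Dv i F g| ∂ν ≤ ∫ g, D * Real.sqrt (fr2 (Am α i g)) ∂ν :=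
    integral_mono_ae iD (iA.const_mul D) (ae_un hν hd)
  rw [integral_const_mul] at h2
  have h3 : D * ∫ g, Real.sqrt (fr2 (Am α i g)) ∂ν ≤ D * τ := mul_le_mul_of_nonneg_left hA hD
  linarith

/-- the averaging argument -/
theorem avg {ν : Measure (XX n)} (hν : Haar ν) {S F₁ F₂ : XX n → ℝ} (hS : ContinuousOn S (Un n))
    (h1 : ContinuousOn F₁ (Un n)) (h2 : ContinuousOn F₂ (Un n)) {a b c : ℝ}
    (iS : ∫ g, S g ∂ν ≤ a) (i1 : ∀ k ∈ Un n, ∫ g, |F₁ (rm g k) - F₁ g| ∂ν ≤ b)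
    (i2 : ∀ k ∈ Un n, ∫ g, |F₂ (rm g k) - F₂ g| ∂ν ≤ c) :
    ∃ g₀ ∈ Un n, S g₀ + ∫ g, (|F₁ g - F₁ g₀| + |F₂ g - F₂ g₀|) ∂ν ≤ a + b + c := by
  have hp := hν.prob
  have hc2 : Continuous fun p : XX n × XX n => rm p.1 p.2 := continuous_rm
  have hcS : ContinuousOn (fun p : XX n × XX n => S p.1) (Un n ×ˢ Un n) :=
    hS.comp continuousOn_fst fun p hp => hp.1
  have hcF : ∀ F : XX n → ℝ, ContinuousOn F (Un n) →
      ContinuousOn (fun p : XX n × XX n => |F (rm p.1 p.2) - F p.1|) (Un n ×ˢ Un n) := by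
    intro F hF
    have e1 : ContinuousOn (fun p : XX n × XX n => F (rm p.1 p.2)) (Un n ×ˢ Un n) :=
      hF.comp hc2.continuousOn fun p hp => rm_mem hp.1 hp.2
    have e2 : ContinuousOn (fun p : XX n × XX n => F p.1) (Un n ×ˢ Un n) :=
      hF.comp continuousOn_fst fun p hp => hp.1
    exact (e1.sub e2).abs
  have hprod : Integrable (fun p : XX n × XX n =>
      S p.1 + (|F₁ (rm p.1 p.2) - F₁ p.1| + |F₂ (rm p.1 p.2) - F₂ p.1|)) (ν.prod ν) := by
    have e1 : IntegrableOn (fun p : XX n × XX n =>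
        S p.1 + (|F₁ (rm p.1 p.2) - F₁ p.1| + |F₂ (rm p.1 p.2) - F₂ p.1|)) (Un n ×ˢ Un n)
        (ν.prod ν) :=
      (hcS.add ((hcF F₁ h1).add (hcF F₂ h2))).integrableOn_compact
        (isCompact_Un.prod isCompact_Un)
    rw [IntegrableOn, ← Measure.prod_restrict, restrict_un hν] at e1
    exact e1
  have hcR : ∀ k : XX n, Continuous fun g : XX n => rm g k := fun k =>
    continuous_rm.comp (continuous_id.prodMk continuous_const)
  have hcL : ∀ g : XX n, Continuous fun k : XX n => rm g k := fun g =>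
    continuous_rm.comp (continuous_const.prodMk continuous_id)
  -- integral in `g`
  have hk : ∀ k ∈ Un n, ∫ g, (S g + (|F₁ (rm g k) - F₁ g| + |F₂ (rm g k) - F₂ g|)) ∂ν ≤
      a + b + c := by
    intro k hk
    have q : ∀ F : XX n → ℝ, ContinuousOn F (Un n) →
        Integrable (fun g => |F (rm g k) - F g|) ν := by
      intro F hF
      apply integrable_un hν
      exact ((hF.comp (hcR k).continuousOn fun g hg => rm_mem hg hk).sub hF).abs
    have e1 := integral_add (μ := ν) (f := S)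
      (g := fun g => |F₁ (rm g k) - F₁ g| + |F₂ (rm g k) - F₂ g|)
      (integrable_un hν hS) ((q F₁ h1).add (q F₂ h2))
    have e2 := integral_add (q F₁ h1) (q F₂ h2)
    rw [e1, e2]
    have := i1 k hk
    have := i2 k hk
    linarith
  have hswap := integral_integral_swap
    (f := fun g k => S g + (|F₁ (rm g k) - F₁ g| + |F₂ (rm g k) - F₂ g|)) hprod
  have htot : ∫ g, (∫ k, (S g + (|F₁ (rm g k) - F₁ g| + |F₂ (rm g k) - F₂ g|)) ∂ν) ∂ν ≤
      a + b + c := by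
    rw [hswap]
    have e1 : ∫ k, (∫ g, (S g + (|F₁ (rm g k) - F₁ g| + |F₂ (rm g k) - F₂ g|)) ∂ν) ∂ν ≤
        ∫ _k, (a + b + c) ∂ν :=
      integral_mono_ae hprod.integral_prod_right (integrable_const _) (ae_un hν hk)
    rw [integral_const, probReal_univ, one_smul] at e1
    exact e1
  obtain ⟨g₀, hg₀, hle⟩ := exists_notMem_null_le_integral hprod.integral_prod_left hν.supp
  rw [Set.notMem_compl_iff] at hg₀
  refine ⟨g₀, hg₀, ?_⟩
  have hle2 := hle.trans htot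
  have q : ∀ F : XX n → ℝ, ContinuousOn F (Un n) →
      Integrable (fun k => |F (rm g₀ k) - F g₀|) ν := by
    intro F hF
    apply integrable_un hν
    exact ((hF.comp (hcL g₀).continuousOn fun k hk => rm_mem hg₀ hk).sub continuousOn_const).abs
  have e3 := integral_add (μ := ν) (f := fun _ => S g₀)
    (g := fun k => |F₁ (rm g₀ k) - F₁ g₀| + |F₂ (rm g₀ k) - F₂ g₀|)
    (integrable_const _) ((q F₁ h1).add (q F₂ h2))
  have hle3 : ∫ k, (S g₀ + (|F₁ (rm g₀ k) - F₁ g₀| + |F₂ (rm g₀ k) - F₂ g₀|)) ∂ν ≤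
      a + b + c := hle2
  rw [e3, integral_const, probReal_univ, one_smul] at hle3
  have hi : Integrable (fun g => |F₁ g - F₁ g₀| + |F₂ g - F₂ g₀|) ν := by
    apply integrable_un hν
    exact (h1.sub continuousOn_const).abs.add (h2.sub continuousOn_const).abs
  have e2 := integral_lm hν hi hg₀
  rw [← e2]
  exact hle3

end MeaUAux

open MeaUAux

theorem meas_u (n : ℕ) (hn : 2 ≤ n) {ν : Measure (XX n)} (hν : Haar ν) {d δ : ℝ} (hd : 0 < d) (hδ : 0 < δ) :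
    ∃ E : ℝ, 0 < E ∧ ∀ α : FW n, Symp α →
      ∫⁻ z in ball (0 : W n) 1, ENNReal.ofReal (aO α z) ^ (2 * n) ≤ ENNReal.ofReal E →
      ∃ l : ℝ, l ≠ 0 ∧ ν {g | g ∈ Un n ∧ d * |l| < Real.sqrt (fr2 (Wm α g - l • Jm n))} ≤
        ENNReal.ofReal δ := by
  have hn1 : 1 ≤ n := by omega
  have hp := hν.prob
  obtain ⟨ε, hε, hpt⟩ := pt_J n hn1 hd
  obtain ⟨C₁, hC₁, hNi⟩ := n_int n
  set j := Real.sqrt (fr2 (Jm n)) with hj
  have j0 : 0 ≤ j := Real.sqrt_nonneg _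
  obtain ⟨M, hM⟩ : ∃ M : ℝ, M = C₁ + 4 + 4 * j := ⟨_, rfl⟩
  have hM0 : 0 < M := by rw [hM]; positivity
  obtain ⟨τ, hτ⟩ : ∃ τ : ℝ, τ = min ε (δ * ε / 2) / M := ⟨_, rfl⟩
  have hτ0 : 0 < τ := by rw [hτ]; positivity
  have hMτ : M * τ = min ε (δ * ε / 2) := by
    rw [hτ]
    field_simp
  have hMε : M * τ ≤ ε := hMτ.le.trans (min_le_left _ _)
  have hMδ : M * τ ≤ δ * ε / 2 := hMτ.le.trans (min_le_right _ _)
  obtain ⟨E, hE, hmom⟩ := mom_u n hn hν hτ0
  refine ⟨E, hE, fun α hα hen => ?_⟩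
  obtain ⟨hm1, hm2⟩ := hmom α hα hen
  have i₀ : Fin (n * 2) := ⟨0, by omega⟩
  have hcS : ContinuousOn (fun g => ∑ i, ∑ j, fr2 (Nm α i j g)) (Un n) :=
    continuousOn_finsetSum _ fun i _ => continuousOn_finsetSum _ fun j _ => cont_Nm hα i j
  have hs1 : ∀ g ∈ Un n, ContDiffAt ℝ 1 (lf α) g := fun g hg =>
    (coef_smooth hn1 hα hg).1.of_le CurvUAux.one_le_infty
  have hs2 : ∀ g ∈ Un n, ContDiffAt ℝ 1 (sf α) g := fun g hg =>
    (coef_smooth hn1 hα hg).2.of_le CurvUAux.one_le_infty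
  have hc1 : ContinuousOn (lf α) (Un n) := fun g hg => (hs1 g hg).continuousAt.continuousWithinAt
  have hc2 : ContinuousOn (sf α) (Un n) := fun g hg => (hs2 g hg).continuousAt.continuousWithinAt
  have hS : ∫ g, ∑ i, ∑ j, fr2 (Nm α i j g) ∂ν ≤ C₁ * τ := by
    have iN : ∀ i j, Integrable (fun g => fr2 (Nm α i j g)) ν := fun i j =>
      integrable_un hν (cont_Nm hα i j)
    rw [integral_finsetSum _ fun i _ => integrable_finsetSum _ fun j _ => iN i j]
    have e1 : ∀ i, ∫ g, ∑ j, fr2 (Nm α i j g) ∂ν = ∑ j, ∫ g, fr2 (Nm α i j g) ∂ν := fun i =>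
      integral_finsetSum _ fun j _ => iN i j
    simp only [e1]
    exact (hNi ν hν α hα).trans (mul_le_mul_of_nonneg_left hm1 hC₁.le)
  have hb1 : ∀ k ∈ Un n, ∫ g, |lf α (rm g k) - lf α g| ∂ν ≤ 2 * 2 * τ := fun k hk =>
    diff_le hν hn1 hα i₀ (by norm_num) hs1
      (fun g hg h hh => by
        unfold lf
        rw [(Wm_st hα.1 hg hh).1])
      (fun g hg => (coef_der hn1 hα hg i₀).1) (hm2 i₀) hk
  have hb2 : ∀ k ∈ Un n, ∫ g, |sf α (rm g k) - sf α g| ∂ν ≤ 2 * (2 * j) * τ := fun k hk =>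
    diff_le hν hn1 hα i₀ (by positivity) hs2
      (fun g hg h hh => by
        unfold sf
        rw [(Wm_st hα.1 hg hh).1, (Wm_st hα.1 hg hh).2])
      (fun g hg => (coef_der hn1 hα hg i₀).2) (hm2 i₀) hk
  obtain ⟨g₀, hg₀, htot⟩ := avg hν hcS hc1 hc2 hS hb1 hb2
  have hMe : C₁ * τ + 2 * 2 * τ + 2 * (2 * j) * τ = M * τ := by rw [hM]; ring
  rw [hMe] at htot
  have hS0 : ∀ g, 0 ≤ ∑ i, ∑ j, fr2 (Nm α i j g) := fun g =>
    Finset.sum_nonneg fun i _ => Finset.sum_nonneg fun j _ => fr2_nonneg _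
  have hI0 : 0 ≤ ∫ g, (|lf α g - lf α g₀| + |sf α g - sf α g₀|) ∂ν :=
    integral_nonneg fun g => by positivity
  have hSg : ∑ i, ∑ j, fr2 (Nm α i j g₀) ≤ ε := by
    linarith
  have hIle : ∫ g, (|lf α g - lf α g₀| + |sf α g - sf α g₀|) ∂ν ≤ M * τ := by
    have := hS0 g₀
    linarith
  obtain ⟨hl, hclose⟩ := hpt α hα g₀ hg₀ hSg
  refine ⟨inn (Wm α g₀) (Jm n) / fr2 (Jm n), hl, ?_⟩
  have hcf : ContinuousOn (fun g => (∑ i, ∑ j, fr2 (Nm α i j g)) +
      (|lf α g - lf α g₀| + |sf α g - sf α g₀|)) (Un n) :=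
    hcS.add ((hc1.sub continuousOn_const).abs.add (hc2.sub continuousOn_const).abs)
  have hif : ∫ g, ((∑ i, ∑ j, fr2 (Nm α i j g)) +
      (|lf α g - lf α g₀| + |sf α g - sf α g₀|)) ∂ν ≤ δ * ε := by
    have e1 := integral_add (μ := ν) (f := fun g => ∑ i, ∑ j, fr2 (Nm α i j g))
      (g := fun g => |lf α g - lf α g₀| + |sf α g - sf α g₀|) (integrable_un hν hcS)
      (integrable_un hν ((hc1.sub continuousOn_const).abs.add (hc2.sub continuousOn_const).abs))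
    rw [e1]
    have h4 : C₁ * τ ≤ M * τ := by
      apply mul_le_mul_of_nonneg_right _ hτ0.le
      rw [hM]
      linarith
    linarith
  have h5 := cheb hν hcf (fun g => add_nonneg (hS0 g) (by positivity)) hε hif
    (s := {g | g ∈ Un n ∧ d * |inn (Wm α g₀) (Jm n) / fr2 (Jm n)| <
      Real.sqrt (fr2 (Wm α g - (inn (Wm α g₀) (Jm n) / fr2 (Jm n)) • Jm n))}) (by
      rintro g ⟨hg, hlt⟩
      by_contra hcon
      push Not at hcon
      have a1 : 0 ≤ |lf α g - lf α g₀| := abs_nonneg _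
      have a2 : 0 ≤ |sf α g - sf α g₀| := abs_nonneg _
      have a3 := hS0 g
      have h6 := hclose g hg (by linarith) (by linarith) (by linarith)
      exact absurd hlt (not_lt.2 h6))
  have h7 : δ * ε / ε = δ := by field_simp
  rwa [h7] at h5

end Pool.Agent.Lib.P28v
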